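import Pool.Agent.Lib.MP_488b8a_co_W.Defs

/-! # Project C32, module Vec: determinants and vectors of `ℝ³` -/

set_option autoImplicit false

namespace Pool.Agent.C32

open Real

theorem inner_eq (x y : E3) : inner ℝ x y = x 0 * y 0 + x 1 * y 1 + x 2 * y 2 := by
  simp only [PiLp.inner_apply, Fin.sum_univ_three, RCLike.inner_apply, conj_trivial]
  ring

theorem norm_sq_eq (x : E3) : ‖x‖ ^ 2 = x 0 ^ 2 + x 1 ^ 2 + x 2 ^ 2 := by
  rw [← real_inner_self_eq_norm_sq, inner_eq]
  ring

theorem norm_one_iff (x : E3) : ‖x‖ = 1 ↔ x 0 ^ 2 + x 1 ^ 2 + x 2 ^ 2 = 1 := by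
  rw [← norm_sq_eq]
  constructor
  · intro h
    rw [h]
    norm_num
  · intro h
    have h0 := norm_nonneg x
    nlinarith

theorem ext3 {x y : E3} (h0 : x 0 = y 0) (h1 : x 1 = y 1) (h2 : x 2 = y 2) : x = y := by
  ext i
  fin_cases i <;> assumption

/-- PROOF. Unfold, `ring`. -/
theorem dt_swap (x y z : E3) : dt y x z = -dt x y z := by
  simp only [dt]
  ring

theorem dt_rot (x y z : E3) : dt y z x = dt x y z := by
  simp only [dt]
  ring

theorem dt_swap' (x y z : E3) : dt x z y = -dt x y z := by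
  simp only [dt]
  ring

theorem dt_lin1 (a b : ℝ) (x x' y z : E3) :
    dt (a • x + b • x') y z = a * dt x y z + b * dt x' y z := by
  simp only [dt, PiLp.add_apply, PiLp.smul_apply, smul_eq_mul]
  ring

theorem dt_lin2 (a b : ℝ) (x y y' z : E3) :
    dt x (a • y + b • y') z = a * dt x y z + b * dt x y' z := by
  simp only [dt, PiLp.add_apply, PiLp.smul_apply, smul_eq_mul]
  ring

theorem dt_lin3 (a b : ℝ) (x y z z' : E3) :
    dt x y (a • z + b • z') = a * dt x y z + b * dt x y z' := by
  simp only [dt, PiLp.add_apply, PiLp.smul_apply, smul_eq_mul]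
  ring

theorem dt_self12 (x z : E3) : dt x x z = 0 := by
  simp only [dt]
  ring

theorem dt_self13 (x z : E3) : dt x z x = 0 := by
  simp only [dt]
  ring

theorem dt_self23 (x z : E3) : dt z x x = 0 := by
  simp only [dt]
  ring

/-- PROOF. Coordinates; Cramer's rule is a polynomial identity after multiplication by `dt x y z`
(`field_simp`, `ring` in each coordinate). -/
theorem cramer (x y z u : E3) (h : dt x y z ≠ 0) :
    u = (dt u y z / dt x y z) • x + (dt x u z / dt x y z) • y + (dt x y u / dt x y z) • z := by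
  have h0 : dt x y z * u 0 = dt u y z * x 0 + dt x u z * y 0 + dt x y u * z 0 := by
    simp only [dt]
    ring
  have h1 : dt x y z * u 1 = dt u y z * x 1 + dt x u z * y 1 + dt x y u * z 1 := by
    simp only [dt]
    ring
  have h2 : dt x y z * u 2 = dt u y z * x 2 + dt x u z * y 2 + dt x y u * z 2 := by
    simp only [dt]
    ring
  have hk : ∀ a b c d e f g : ℝ, dt x y z * a = b * c + d * e + f * g →
      a = b / dt x y z * c + d / dt x y z * e + f / dt x y z * g := by
    intro a b c d e f g hh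
    field_simp
    linarith
  apply ext3
  · simp only [PiLp.add_apply, PiLp.smul_apply, smul_eq_mul]
    exact hk _ _ _ _ _ _ _ h0
  · simp only [PiLp.add_apply, PiLp.smul_apply, smul_eq_mul]
    exact hk _ _ _ _ _ _ _ h1
  · simp only [PiLp.add_apply, PiLp.smul_apply, smul_eq_mul]
    exact hk _ _ _ _ _ _ _ h2

/-- PROOF. If linearly dependent, one is a combination of the others and `dt = 0` (`dt_lin`,
`dt_self`); conversely, if `a • x + b • y + c • z = 0` then `0 = dt (0) y z = a * dt x y z`, etc.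
(`Fintype.linearIndependent_iff`, `Fin.sum_univ_three`). For the direction from linear independence
to `dt ≠ 0`: `dt x y z` is the determinant of the matrix of coordinates
(`Matrix.det_fin_three`, `Matrix.linearIndependent_rows_iff_isUnit`...), or: if `dt x y z = 0` then
`dt y z u • x + dt z x u • y + dt x y u • z = dt x y z • u = 0` for all `u` is a relation, and its
coefficients vanish for all `u` only if `vx y z = 0`, that is `y`, `z` are dependent. -/
theorem dt_ne_iff (x y z : E3) : dt x y z ≠ 0 ↔ LinearIndependent ℝ ![x, y, z] := by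
  have hiff : LinearIndependent ℝ ![x, y, z] ↔
      ∀ a b c : ℝ, a • x + b • y + c • z = 0 → a = 0 ∧ b = 0 ∧ c = 0 := by
    rw [Fintype.linearIndependent_iff]
    constructor
    · intro h a b c habc
      have h1 := h ![a, b, c] (by
        rw [Fin.sum_univ_three]
        exact habc)
      exact ⟨h1 0, h1 1, h1 2⟩
    · intro h g hg i
      rw [Fin.sum_univ_three] at hg
      obtain ⟨h0, h1, h2⟩ := h (g 0) (g 1) (g 2) hg
      fin_cases i
      · exact h0
      · exact h1
      · exact h2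
  have hc : ∀ v : E3, v = 0 → v 0 = 0 ∧ v 1 = 0 ∧ v 2 = 0 := by
    rintro v rfl
    simp
  rw [hiff]
  constructor
  · intro h a b c habc
    obtain ⟨h0, h1, h2⟩ := hc _ habc
    simp only [PiLp.add_apply, PiLp.smul_apply, smul_eq_mul] at h0 h1 h2
    have ha : a * dt x y z = 0 := by
      simp only [dt]
      linear_combination (y 1 * z 2 - y 2 * z 1) * h0 - (y 0 * z 2 - y 2 * z 0) * h1 +
        (y 0 * z 1 - y 1 * z 0) * h2
    have hb : b * dt x y z = 0 := by
      simp only [dt]
      linear_combination (z 1 * x 2 - z 2 * x 1) * h0 - (z 0 * x 2 - z 2 * x 0) * h1 +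
        (z 0 * x 1 - z 1 * x 0) * h2
    have hcc : c * dt x y z = 0 := by
      simp only [dt]
      linear_combination (x 1 * y 2 - x 2 * y 1) * h0 - (x 0 * y 2 - x 2 * y 0) * h1 +
        (x 0 * y 1 - x 1 * y 0) * h2
    exact ⟨(mul_eq_zero.1 ha).resolve_right h, (mul_eq_zero.1 hb).resolve_right h,
      (mul_eq_zero.1 hcc).resolve_right h⟩
  · intro h hd
    have h1 : ∀ u : E3, dt u y z = 0 := by
      intro u
      refine (h (dt u y z) (dt x u z) (dt x y u) ?_).1
      apply ext3
      · simp only [PiLp.add_apply, PiLp.smul_apply, smul_eq_mul, PiLp.zero_apply]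
        simp only [dt] at hd ⊢
        linear_combination (u 0) * hd
      · simp only [PiLp.add_apply, PiLp.smul_apply, smul_eq_mul, PiLp.zero_apply]
        simp only [dt] at hd ⊢
        linear_combination (u 1) * hd
      · simp only [PiLp.add_apply, PiLp.smul_apply, smul_eq_mul, PiLp.zero_apply]
        simp only [dt] at hd ⊢
        linear_combination (u 2) * hd
    have e0 : y 1 * z 2 - y 2 * z 1 = 0 := by
      have h2 := h1 !₂[1, 0, 0]
      simp [dt] at h2
      linarith
    have e1 : y 0 * z 2 - y 2 * z 0 = 0 := by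
      have h2 := h1 !₂[0, 1, 0]
      simp [dt] at h2
      linarith
    have e2 : y 0 * z 1 - y 1 * z 0 = 0 := by
      have h2 := h1 !₂[0, 0, 1]
      simp [dt] at h2
      linarith
    have hy : ∀ i : Fin 3, y i = 0 := by
      intro i
      have h3 : (0 : ℝ) • x + z i • y + (-y i) • z = 0 := by
        apply ext3
        · simp only [PiLp.add_apply, PiLp.smul_apply, smul_eq_mul, PiLp.zero_apply]
          fin_cases i
          · show 0 * x 0 + z 0 * y 0 + -y 0 * z 0 = 0
            ring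
          · show 0 * x 0 + z 1 * y 0 + -y 1 * z 0 = 0
            linarith
          · show 0 * x 0 + z 2 * y 0 + -y 2 * z 0 = 0
            linarith
        · simp only [PiLp.add_apply, PiLp.smul_apply, smul_eq_mul, PiLp.zero_apply]
          fin_cases i
          · show 0 * x 1 + z 0 * y 1 + -y 0 * z 1 = 0
            linarith
          · show 0 * x 1 + z 1 * y 1 + -y 1 * z 1 = 0
            ring
          · show 0 * x 1 + z 2 * y 1 + -y 2 * z 1 = 0
            linarith
        · simp only [PiLp.add_apply, PiLp.smul_apply, smul_eq_mul, PiLp.zero_apply]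
          fin_cases i
          · show 0 * x 2 + z 0 * y 2 + -y 0 * z 2 = 0
            linarith
          · show 0 * x 2 + z 1 * y 2 + -y 1 * z 2 = 0
            linarith
          · show 0 * x 2 + z 2 * y 2 + -y 2 * z 2 = 0
            ring
      have h4 := (h 0 (z i) (-y i) h3).2.2
      linarith
    have hy0 : y = 0 := by
      apply ext3
      · rw [hy 0]
        rfl
      · rw [hy 1]
        rfl
      · rw [hy 2]
        rfl
    have h5 := (h 0 1 0 (by rw [hy0]; simp)).2.1
    exact one_ne_zero h5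

/-- Gram determinant. PROOF. `inner_eq`, unfold, `ring`. -/
theorem gram_det (x y z : E3) : dt x y z ^ 2 =
    inner ℝ x x * (inner ℝ y y * inner ℝ z z - inner ℝ y z * inner ℝ y z) -
      inner ℝ x y * (inner ℝ x y * inner ℝ z z - inner ℝ y z * inner ℝ x z) +
      inner ℝ x z * (inner ℝ x y * inner ℝ y z - inner ℝ y y * inner ℝ x z) := by
  simp only [inner_eq, dt]
  ring

/-- PROOF. Polynomials in the coordinates. -/
theorem dt_cont : Continuous (fun x : E3 × E3 × E3 => dt x.1 x.2.1 x.2.2) := by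
  have h1 : ∀ i : Fin 3, Continuous (fun x : E3 × E3 × E3 => x.1 i) := fun i =>
    (EuclideanSpace.proj (𝕜 := ℝ) i).continuous.comp continuous_fst
  have h2 : ∀ i : Fin 3, Continuous (fun x : E3 × E3 × E3 => x.2.1 i) := fun i =>
    (EuclideanSpace.proj (𝕜 := ℝ) i).continuous.comp (continuous_fst.comp continuous_snd)
  have h3 : ∀ i : Fin 3, Continuous (fun x : E3 × E3 × E3 => x.2.2 i) := fun i =>
    (EuclideanSpace.proj (𝕜 := ℝ) i).continuous.comp (continuous_snd.comp continuous_snd)
  simp only [dt]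
  exact (((h1 0).mul (((h2 1).mul (h3 2)).sub ((h2 2).mul (h3 1)))).sub
    ((h1 1).mul (((h2 0).mul (h3 2)).sub ((h2 2).mul (h3 0))))).add
    ((h1 2).mul (((h2 0).mul (h3 1)).sub ((h2 1).mul (h3 0))))

theorem dt_tendsto {X : Type*} {l : Filter X} {x y z : X → E3} {x₀ y₀ z₀ : E3}
    (hx : Filter.Tendsto x l (nhds x₀)) (hy : Filter.Tendsto y l (nhds y₀))
    (hz : Filter.Tendsto z l (nhds z₀)) :
    Filter.Tendsto (fun m => dt (x m) (y m) (z m)) l (nhds (dt x₀ y₀ z₀)) := by
  exact (dt_cont.tendsto (x₀, y₀, z₀)).comp (hx.prodMk_nhds (hy.prodMk_nhds hz))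

theorem inner_vx (x y z : E3) : inner ℝ x (vx y z) = dt x y z := by
  rw [inner_eq]
  show x 0 * (y 1 * z 2 - y 2 * z 1) + x 1 * (y 2 * z 0 - y 0 * z 2) +
    x 2 * (y 0 * z 1 - y 1 * z 0) = _
  simp only [dt]
  ring

theorem inner_vx_left (x y : E3) : inner ℝ x (vx x y) = 0 := by
  rw [inner_vx, dt_self12]

theorem inner_vx_right (x y : E3) : inner ℝ y (vx x y) = 0 := by
  rw [inner_vx, dt_self13]

theorem vx_norm_sq (x y : E3) :
    ‖vx x y‖ ^ 2 = inner ℝ x x * inner ℝ y y - inner ℝ x y ^ 2 := by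
  rw [norm_sq_eq]
  show (x 1 * y 2 - x 2 * y 1) ^ 2 + (x 2 * y 0 - x 0 * y 2) ^ 2 +
    (x 0 * y 1 - x 1 * y 0) ^ 2 = _
  simp only [inner_eq]
  ring

/-- PROOF. `u` is orthogonal to `x` and `y`; `cramer` for the basis `x`, `y`, `vx x y`
(`dt x y (vx x y) = ‖vx x y‖^2`): the inner product of `u - t • vx x y`,
`t = inner u (vx x y) / ‖vx x y‖^2`, with `x`, `y` and `vx x y` is zero. -/
theorem eq_smul_vx {x y u : E3} (h : vx x y ≠ 0) (h1 : inner ℝ u x = 0) (h2 : inner ℝ u y = 0) :
    ∃ t : ℝ, u = t • vx x y := by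
  have hn : ‖vx x y‖ ^ 2 ≠ 0 := pow_ne_zero 2 (norm_ne_zero_iff.2 h)
  obtain ⟨t, ht⟩ : ∃ t : ℝ, t = inner ℝ u (vx x y) / ‖vx x y‖ ^ 2 := ⟨_, rfl⟩
  refine ⟨t, ?_⟩
  obtain ⟨w, hw⟩ : ∃ w : E3, w = u - t • vx x y := ⟨_, rfl⟩
  have hx : inner ℝ w x = 0 := by
    rw [hw, inner_sub_left, real_inner_smul_left, h1, real_inner_comm, inner_vx_left]
    ring
  have hy : inner ℝ w y = 0 := by
    rw [hw, inner_sub_left, real_inner_smul_left, h2, real_inner_comm, inner_vx_right]
    ring
  have hv : inner ℝ w (vx x y) = 0 := by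
    rw [hw, inner_sub_left, real_inner_smul_left, real_inner_self_eq_norm_sq, ht]
    field_simp
    ring
  have hd : dt x y (vx x y) ≠ 0 := by
    have h3 : dt x y (vx x y) = ‖vx x y‖ ^ 2 := by
      rw [← real_inner_self_eq_norm_sq, inner_vx, dt_rot]
    rw [h3]
    exact hn
  have hc := cramer x y (vx x y) w hd
  have h0 : inner ℝ w w = (0 : ℝ) := by
    conv_lhs =>
      rhs
      rw [hc]
    rw [inner_add_right, inner_add_right, inner_smul_right, inner_smul_right, inner_smul_right,
      hx, hy, hv]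
    ring
  have h3 : w = 0 := inner_self_eq_zero.1 h0
  rw [hw] at h3
  exact sub_eq_zero.1 h3

private theorem vec_div_nonneg {a d : ℝ} (h : 0 ≤ d * a) : 0 ≤ a / d := by
  rw [div_nonneg_iff]
  rcases mul_nonneg_iff.1 h with h1 | h1
  · exact Or.inl ⟨h1.2, h1.1⟩
  · exact Or.inr ⟨h1.2, h1.1⟩

private theorem vec_div_pos {a d : ℝ} (hd : d ≠ 0) (h : 0 < d * a) : 0 < a / d := by
  have h1 : a / d = d * a / d ^ 2 := by
    field_simp
  rw [h1]
  positivity

private theorem vec_c1 (p q w : E3) (a b c : ℝ) :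
    dt (a • p + b • q + c • w) q w = a * dt p q w := by
  simp only [dt, PiLp.add_apply, PiLp.smul_apply, smul_eq_mul]
  ring

private theorem vec_c2 (p q w : E3) (a b c : ℝ) :
    dt p (a • p + b • q + c • w) w = b * dt p q w := by
  simp only [dt, PiLp.add_apply, PiLp.smul_apply, smul_eq_mul]
  ring

private theorem vec_c3 (p q w : E3) (a b c : ℝ) :
    dt p q (a • p + b • q + c • w) = c * dt p q w := by
  simp only [dt, PiLp.add_apply, PiLp.smul_apply, smul_eq_mul]
  ring

private theorem vec_sq {a d : ℝ} (h : 0 ≤ a) : 0 ≤ d * (a * d) := by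
  have h1 : d * (a * d) = a * d ^ 2 := by ring
  rw [h1]
  positivity

/-- coefficients of a vector of the closed sector -/
theorem inS_coeff {p q w u : E3} (hd : dt p q w ≠ 0) (h : InS p q w u) :
    ∃ l α β : ℝ, 0 ≤ α ∧ 0 ≤ β ∧ u = l • p + α • q + β • w := by
  exact ⟨_, _, _, vec_div_nonneg h.1, vec_div_nonneg h.2, cramer p q w u hd⟩

theorem inO_coeff {p q w u : E3} (hd : dt p q w ≠ 0) (h : InO p q w u) :
    ∃ l α β : ℝ, 0 < α ∧ 0 < β ∧ u = l • p + α • q + β • w := by
  exact ⟨_, _, _, vec_div_pos hd h.1, vec_div_pos hd h.2, cramer p q w u hd⟩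

theorem inC_coeff {p q w u : E3} (hd : dt p q w ≠ 0) (h : InC p q w u) :
    ∃ α β γ : ℝ, 0 ≤ α ∧ 0 ≤ β ∧ 0 ≤ γ ∧ u = α • p + β • q + γ • w := by
  exact ⟨_, _, _, vec_div_nonneg h.1, vec_div_nonneg h.2.1, vec_div_nonneg h.2.2,
    cramer p q w u hd⟩

theorem inC_of_coeff {p q w : E3} {α β γ : ℝ} (ha : 0 ≤ α) (hb : 0 ≤ β) (hc : 0 ≤ γ) :
    InC p q w (α • p + β • q + γ • w) := by
  refine ⟨?_, ?_, ?_⟩
  · rw [vec_c1]
    exact vec_sq ha
  · rw [vec_c2]
    exact vec_sq hb
  · rw [vec_c3]
    exact vec_sq hc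

theorem inO_of_coeff {p q w : E3} {l α β : ℝ} (hd : dt p q w ≠ 0) (ha : 0 < α) (hb : 0 < β) :
    InO p q w (l • p + α • q + β • w) := by
  have h : 0 < dt p q w ^ 2 := by positivity
  refine ⟨?_, ?_⟩
  · rw [vec_c2]
    nlinarith [mul_pos ha h]
  · rw [vec_c3]
    nlinarith [mul_pos hb h]

theorem inS_of_coeff {p q w : E3} {l α β : ℝ} (ha : 0 ≤ α) (hb : 0 ≤ β) :
    InS p q w (l • p + α • q + β • w) := by
  refine ⟨?_, ?_⟩
  · rw [vec_c2]
    exact vec_sq ha
  · rw [vec_c3]
    exact vec_sq hb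

/-- the order of `q`, `w` does not matter -/
theorem inS_swap {p q w u : E3} (h : InS p q w u) : InS p w q u := by
  refine ⟨?_, ?_⟩
  · rw [dt_swap' p q w, dt_swap' p q u, neg_mul_neg]
    exact h.2
  · rw [dt_swap' p q w, dt_swap' p u w, neg_mul_neg]
    exact h.1

theorem inO_swap {p q w u : E3} (h : InO p q w u) : InO p w q u := by
  refine ⟨?_, ?_⟩
  · rw [dt_swap' p q w, dt_swap' p q u, neg_mul_neg]
    exact h.2
  · rw [dt_swap' p q w, dt_swap' p u w, neg_mul_neg]
    exact h.1

/-- the order of `p`, `q`, `w` does not matter -/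
theorem inC_swap {p q w u : E3} (h : InC p q w u) : InC q p w u := by
  refine ⟨?_, ?_, ?_⟩
  · rw [dt_swap p q w, dt_swap p u w, neg_mul_neg]
    exact h.2.1
  · rw [dt_swap p q w, dt_swap u q w, neg_mul_neg]
    exact h.1
  · rw [dt_swap p q w, dt_swap p q u, neg_mul_neg]
    exact h.2.2

theorem inC_rot {p q w u : E3} (h : InC p q w u) : InC q w p u := by
  refine ⟨?_, ?_, ?_⟩
  · rw [dt_rot p q w, dt_rot p u w]
    exact h.2.1
  · rw [dt_rot p q w, dt_rot p q u]
    exact h.2.2
  · rw [dt_rot p q w, dt_rot u q w]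
    exact h.1

/-- the closed sector contains the closed cone. PROOF. The first condition is dropped. -/
theorem inC_inS {p q w u : E3} (h : InC p q w u) : InS p q w u := ⟨h.2.1, h.2.2⟩

end Pool.Agent.C32
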