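import Pool.Agent.Lib.MP_488b8a_co_W.Fun
import Pool.Agent.Lib.MP_488b8a_co_W.Vec

/-! # Project C32, module Ang: the angles of a spherical triangle -/

set_option autoImplicit false

namespace Pool.Agent.C32

open Real

theorem par_rot {p q w : E3} {c a b d : ℝ} (h : Par p q w c a b d) : Par q w p c b d a := by
  obtain ⟨h1, h2, h3, h4, h5, h6, h7, h8, h9⟩ := h
  exact ⟨h1, h2, h4, h5, h3, by linarith, h8, h9, h7⟩

theorem par_swap {p q w : E3} {c a b d : ℝ} (h : Par p q w c a b d) : Par p w q c d b a := by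
  obtain ⟨h1, h2, h3, h4, h5, h6, h7, h8, h9⟩ := h
  exact ⟨h1, h2, h5, h4, h3, by linarith, by rw [real_inner_comm]; exact h9,
    by rw [real_inner_comm]; exact h8, by rw [real_inner_comm]; exact h7⟩

private theorem ang_den {c : ℝ} (hc : 0 < c) (z : ℝ) : 0 < cos z ^ 2 + c ^ 2 * sin z ^ 2 := by
  have h7 := sin_sq_add_cos_sq z
  rcases eq_or_ne (sin z) 0 with h | h
  · rw [h] at h7 ⊢
    nlinarith
  · have h2 : 0 < sin z ^ 2 := by positivity
    have h3 : 0 < c ^ 2 * sin z ^ 2 := by positivity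
    have h4 := sq_nonneg (cos z)
    linarith

private theorem ang_nsq {p q : E3} (hp : ‖p‖ = 1) (hq : ‖q‖ = 1) :
    ‖pr p q‖ ^ 2 = 1 - inner ℝ p q ^ 2 := by
  unfold pr
  rw [norm_sub_sq_real, hq, norm_smul, hp, inner_smul_right, real_inner_comm q p,
    Real.norm_eq_abs, mul_one, sq_abs]
  ring

private theorem ang_inner {p q w : E3} (hp : ‖p‖ = 1) :
    inner ℝ (pr p q) (pr p w) = inner ℝ q w - inner ℝ p q * inner ℝ p w := by
  unfold pr
  rw [inner_sub_left, inner_sub_right, inner_sub_right, inner_smul_left, inner_smul_right,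
    inner_smul_left, inner_smul_right, real_inner_self_eq_norm_sq, hp, real_inner_comm p q]
  simp only [conj_trivial]
  ring

/-- PROOF. `‖pr p q‖^2 = 1 - (inner p q)^2`, `‖pr p w‖^2 = 1 - (inner p w)^2`,
`inner (pr p q) (pr p w) = inner q w - inner p q * inner p w`. Let `s = 1 - c^2 > 0` and
`D z = cos^2 z + c^2 sin^2 z = 1 - s sin^2 z > 0`. Then `1 - (gram c a)^2 = 4 s sin^2 a D a`, the
same for `d`, and with `b = π - a - d` (`sin b = sin (a + d)`)
`gram c b - gram c a * gram c d = 4 s sin a sin d (c^2 sin a sin d - cos a cos d)`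
(use `sin^2 a + sin^2 d - sin^2 (a+d) = 2 sin^2 a sin^2 d - 2 sin a sin d cos a cos d`). So the
cosine of the angle is `(c^2 sin a sin d - cos a cos d) / √(D a * D d)`, which is
`cos (ph c a + ph c d)` by `cos_ph`, `sin_ph`. Finally `0 ≤ ph c a + ph c d ≤ π`: the upper bound
is `ph_le`; since `d ≤ π - a` (`b > 0`), `ph c d ≥ ph c (π - a) = - ph c a` (`ph_anti`,
`ph_pi_sub`). Conclude with `Real.arccos_cos`. -/
theorem ang_par {p q w : E3} {c a b d : ℝ} (hp : ‖p‖ = 1) (hq : ‖q‖ = 1) (hw : ‖w‖ = 1)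
    (h : Par p q w c a b d) : ang p q w = ph c a + ph c d := by
  obtain ⟨hc, hc1, ha, hb, hd, hs, hpq, hqw, hwp⟩ := h
  have hpw : inner ℝ p w = gram c d := by rw [real_inner_comm]; exact hwp
  have hpi := pi_pos
  have hsa : 0 < sin a := sin_pos_of_pos_of_lt_pi ha (by linarith)
  have hsd : 0 < sin d := sin_pos_of_pos_of_lt_pi hd (by linarith)
  have hs0 : 0 < 1 - c ^ 2 := by nlinarith
  set r := √(1 - c ^ 2) with hr
  have hr0 : 0 < r := sqrt_pos.2 hs0
  have hr2 : r ^ 2 = 1 - c ^ 2 := sq_sqrt hs0.le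
  set A := √(cos a ^ 2 + c ^ 2 * sin a ^ 2) with hA
  set B := √(cos d ^ 2 + c ^ 2 * sin d ^ 2) with hB
  have hA0 : 0 < A := sqrt_pos.2 (ang_den hc a)
  have hB0 : 0 < B := sqrt_pos.2 (ang_den hc d)
  have hA2 : A ^ 2 = cos a ^ 2 + c ^ 2 * sin a ^ 2 := sq_sqrt (ang_den hc a).le
  have hB2 : B ^ 2 = cos d ^ 2 + c ^ 2 * sin d ^ 2 := sq_sqrt (ang_den hc d).le
  have ca := sin_sq_add_cos_sq a
  have cd := sin_sq_add_cos_sq d
  have n1 : ‖pr p q‖ = 2 * r * sin a * A := by
    refine (sq_eq_sq₀ (norm_nonneg _) (by positivity)).1 ?_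
    rw [ang_nsq hp hq, hpq]
    unfold gram
    rw [mul_pow, mul_pow, mul_pow, hr2, hA2]
    have : cos a ^ 2 = 1 - sin a ^ 2 := by linarith
    rw [this]
    ring
  have n2 : ‖pr p w‖ = 2 * r * sin d * B := by
    refine (sq_eq_sq₀ (norm_nonneg _) (by positivity)).1 ?_
    rw [ang_nsq hp hw, hpw]
    unfold gram
    rw [mul_pow, mul_pow, mul_pow, hr2, hB2]
    have : cos d ^ 2 = 1 - sin d ^ 2 := by linarith
    rw [this]
    ring
  have hsb : sin b = sin a * cos d + cos a * sin d := by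
    have : b = π - (a + d) := by linarith
    rw [this, sin_pi_sub, sin_add]
  have n3 : inner ℝ (pr p q) (pr p w) =
      4 * r ^ 2 * sin a * sin d * (c ^ 2 * sin a * sin d - cos a * cos d) := by
    rw [ang_inner hp, hqw, hpq, hpw, hr2]
    unfold gram
    rw [hsb]
    have e1 : cos a ^ 2 = 1 - sin a ^ 2 := by linarith
    have e2 : cos d ^ 2 = 1 - sin d ^ 2 := by linarith
    have e3 : (sin a * cos d + cos a * sin d) ^ 2 =
        sin a ^ 2 * cos d ^ 2 + 2 * sin a * sin d * (cos a * cos d) + cos a ^ 2 * sin d ^ 2 := by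
      ring
    rw [e3, e1, e2]
    ring
  have hcos : cos (ph c a + ph c d) = inner ℝ (pr p q) (pr p w) / (‖pr p q‖ * ‖pr p w‖) := by
    rw [cos_add, cos_ph hc, cos_ph hc, sin_ph hc, sin_ph hc, n1, n2, n3, ← hA, ← hB]
    field_simp
    ring
  unfold ang InnerProductGeometry.angle
  rw [← hcos, arccos_cos]
  · have h1 : ph c (π - a) ≤ ph c d :=
      (ph_anti hc).antitoneOn ⟨hd.le, by linarith⟩ ⟨by linarith, by linarith⟩ (by linarith)
    rw [ph_pi_sub hc ha.le (by linarith)] at h1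
    linarith
  · have h1 := ph_le hc ha.le (by linarith : a ≤ π)
    have h2 := ph_le hc hd.le (by linarith : d ≤ π)
    linarith

theorem ang_symm (p q w : E3) : ang p q w = ang p w q := by
  exact InnerProductGeometry.angle_comm _ _

end Pool.Agent.C32
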