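import Pool.Agent.Lib.MP_488b8a_co_W.Vec
import Pool.Agent.Lib.MP_488b8a_co.GpDense
import Pool.Agent.Lib.MP_488b8a_co.FacetA
import Pool.Agent.Lib.MP_488b8a_co.GenPos

/-! # Project C32, module Apx: generic perturbations -/

set_option autoImplicit false

namespace Pool.Agent.C32

open Real

section aux

open CAPS Complex

private theorem Apx_lip (z w : ℂ) : ‖sph z - sph w‖ ≤ 2 * ‖z - w‖ := by
  refine abs_le_of_sq_le_sq' ?_ (by positivity) |>.2
  rw [sph_dist, xx, div_le_iff₀ (by positivity)]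
  have h1 : 0 ≤ ‖z‖ ^ 2 := by positivity
  have h2 : 0 ≤ ‖w‖ ^ 2 := by positivity
  have h3 : 0 ≤ ‖z - w‖ ^ 2 := by positivity
  have h4 : 0 ≤ ‖z‖ ^ 2 * ‖w‖ ^ 2 := by positivity
  nlinarith [mul_nonneg h3 h1, mul_nonneg h3 h2, mul_nonneg h3 h4]

private theorem Apx_nsq (z : ℂ) : ‖z‖ ^ 2 = z.re ^ 2 + z.im ^ 2 := by
  rw [Complex.sq_norm, Complex.normSq_apply]
  ring

private theorem Apx_unit {y : EuclideanSpace ℝ (Fin 3)} (hy : ‖y‖ = 1) :
    y 0 ^ 2 + y 1 ^ 2 + y 2 ^ 2 = 1 := by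
  have h := EuclideanSpace.norm_sq_eq y
  rw [hy, Fin.sum_univ_three] at h
  simp only [Real.norm_eq_abs, sq_abs] at h
  linarith

private theorem Apx_dense {y : EuclideanSpace ℝ (Fin 3)} (hy : ‖y‖ = 1) {δ : ℝ} (hδ : 0 < δ) :
    ∃ w : ℂ, ‖sph w - y‖ < δ := by
  have hu := Apx_unit hy
  by_cases h : y 2 = -1
  · have h0 : y 0 = 0 := by
      rw [h] at hu
      nlinarith [sq_nonneg (y 0), sq_nonneg (y 1)]
    have h1 : y 1 = 0 := by
      rw [h] at hu
      nlinarith [sq_nonneg (y 0), sq_nonneg (y 1)]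
    refine ⟨⟨2 / δ, 0⟩, ?_⟩
    set w : ℂ := ⟨2 / δ, 0⟩ with hw
    have hn : ‖w‖ ^ 2 = (2 / δ) ^ 2 := by
      rw [Apx_nsq]
      simp [hw]
    have e : ‖sph w - y‖ ^ 2 = 4 / (1 + (2 / δ) ^ 2) := by
      rw [EuclideanSpace.norm_sq_eq, Fin.sum_univ_three]
      simp only [Real.norm_eq_abs, sq_abs]
      have e0 : (sph w - y) 0 = 2 * w.re / (1 + ‖w‖ ^ 2) - y 0 := rfl
      have e1 : (sph w - y) 1 = 2 * w.im / (1 + ‖w‖ ^ 2) - y 1 := rfl
      have e2 : (sph w - y) 2 = (1 - ‖w‖ ^ 2) / (1 + ‖w‖ ^ 2) - y 2 := rfl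
      rw [e0, e1, e2, h0, h1, h, hn]
      have r1 : w.re = 2 / δ := rfl
      have r2 : w.im = 0 := rfl
      rw [r1, r2]
      have h5 : (1 : ℝ) + (2 / δ) ^ 2 ≠ 0 := by positivity
      generalize 2 / δ = t at *
      field_simp
      ring
    have h6 : ‖sph w - y‖ ^ 2 < δ ^ 2 := by
      rw [e, div_lt_iff₀ (by positivity)]
      have : δ ^ 2 * (1 + (2 / δ) ^ 2) = δ ^ 2 + 4 := by
        field_simp
        ring
      rw [this]
      have := pow_pos hδ 2
      linarith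
    exact lt_of_pow_lt_pow_left₀ 2 hδ.le h6
  · have h2 : -1 < y 2 := by
      have h3 : y 2 ^ 2 ≤ 1 := by nlinarith [sq_nonneg (y 0), sq_nonneg (y 1)]
      have h4 : -1 ≤ y 2 := by nlinarith [sq_nonneg (y 2 + 1)]
      exact lt_of_le_of_ne h4 (Ne.symm h)
    have h3 : (0 : ℝ) < 1 + y 2 := by linarith
    refine ⟨⟨y 0 / (1 + y 2), y 1 / (1 + y 2)⟩, ?_⟩
    set w : ℂ := ⟨y 0 / (1 + y 2), y 1 / (1 + y 2)⟩ with hw
    have hn : ‖w‖ ^ 2 = (1 - y 2) / (1 + y 2) := by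
      rw [Apx_nsq]
      have r1 : w.re = y 0 / (1 + y 2) := rfl
      have r2 : w.im = y 1 / (1 + y 2) := rfl
      rw [r1, r2]
      field_simp
      nlinarith
    have hn1 : 1 + ‖w‖ ^ 2 = 2 / (1 + y 2) := by
      rw [hn]
      field_simp
      ring
    have he : sph w = y := by
      ext i
      have r1 : w.re = y 0 / (1 + y 2) := rfl
      have r2 : w.im = y 1 / (1 + y 2) := rfl
      fin_cases i
      · show 2 * w.re / (1 + ‖w‖ ^ 2) = y 0
        rw [hn1, r1]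
        field_simp
      · show 2 * w.im / (1 + ‖w‖ ^ 2) = y 1
        rw [hn1, r2]
        field_simp
      · show (1 - ‖w‖ ^ 2) / (1 + ‖w‖ ^ 2) = y 2
        rw [hn1, hn]
        field_simp
        ring
    rw [he, sub_self, norm_zero]
    exact hδ

end aux

/-- PROOF. Every unit vector is a limit of points `sph w` (private lemma `GenPos_dense` of
`Lib/MP_488b8a_co/GenPos.lean`: copy it; also `GenPos_lip`: `sph` is Lipschitz); take `w i` with
`‖sph (w i) - p i‖ < ε/2`, then `CAPS.gp_dense` gives `z` with `CAPS.GP z` and `‖z i - w i‖` small.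
`q i = sph (z i)`: unit vectors (`CAPS.sph_norm`), distinct because `sph` is injective
(`CAPS.sph_dist`: `‖sph z - sph w‖^2 = xx z w > 0`), no four on a plane by `CAPS.gp_plane`. -/
theorem gen_approx {n : ℕ} (p : Fin n → E3) (hp : ∀ i, ‖p i‖ = 1) {ε : ℝ} (hε : 0 < ε) :
    ∃ q : Fin n → E3, Gen q ∧ ∀ i, ‖q i - p i‖ < ε := by
  choose w hw using fun i => Apx_dense (hp i) (δ := ε / 2) (by linarith)
  obtain ⟨z, hz, hzw⟩ := CAPS.gp_dense w (ε := ε / 4) (by linarith)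
  refine ⟨fun i => CAPS.sph (z i), ⟨fun i => CAPS.sph_norm _, ?_, ?_⟩, fun i => ?_⟩
  · intro i j hij
    by_contra hne
    have h1 : z i ≠ z j := fun h => hne (hz.1 h)
    have h2 := CAPS.sph_dist (z i) (z j)
    have h3 : CAPS.sph (z i) = CAPS.sph (z j) := hij
    rw [h3, sub_self, norm_zero, zero_pow two_ne_zero] at h2
    have h4 : 0 < ‖z i - z j‖ := norm_pos_iff.2 (sub_ne_zero.2 h1)
    have h5 : 0 < CAPS.xx (z i) (z j) := by
      unfold CAPS.xx
      positivity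
    linarith
  · intro N i j k l hij hik hil hjk hjl hkl
    exact CAPS.gp_plane hz N i j k l hij hik hil hjk hjl hkl
  · have h2 : CAPS.sph (z i) - p i = (CAPS.sph (z i) - CAPS.sph (w i)) +
        (CAPS.sph (w i) - p i) := by abel
    show ‖CAPS.sph (z i) - p i‖ < ε
    rw [h2]
    refine lt_of_le_of_lt (norm_add_le _ _) ?_
    have h3 := Apx_lip (z i) (w i)
    have h4 := hzw i
    have h5 := hw i
    linarith

/-- PROOF. `inner x (q l) ≥ inner x (p l) - ‖q l - p l‖`. -/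
theorem covers_approx {n : ℕ} {p q : Fin n → E3} {κ ε : ℝ} (hC : Covers p κ)
    (h : ∀ i, ‖q i - p i‖ ≤ ε) : Covers q (κ - ε) := by
  intro x hx
  obtain ⟨l, hl⟩ := hC x hx
  refine ⟨l, ?_⟩
  have h6 : inner ℝ x (q l) = inner ℝ x (p l) + inner ℝ x (q l - p l) := by
    rw [← inner_add_right]
    congr 1
    abel
  have h7 : |inner ℝ x (q l - p l)| ≤ ‖x‖ * ‖q l - p l‖ := abs_real_inner_le_norm _ _
  rw [hx, one_mul] at h7
  have h8 := (abs_le.1 h7).1
  have h9 := h l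
  rw [h6]
  linarith

end Pool.Agent.C32
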