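import Pool.Agent.Lib.MP_488b8a_co_W.Defs

/-! # Project C32, module Arc: arcs covering the circle -/

set_option autoImplicit false

namespace Pool.Agent.C32

open Real

/-- PROOF. In the circle group `AddCircle (2 * π)` (or `Real.Angle`) let `t s = arg (m s)`; the
angle between `exp (i θ)` and `m s` is the norm of `θ - t s` in `AddCircle (2π)` (`angle` is
`|arg (quotient)|`: `Complex.angle_eq_abs_arg`; `AddCircle.norm_eq`), so the closed balls
`closedBall (t s) (ρ s)` cover the circle, and
`volume (closedBall x ε) = ENNReal.ofReal (min (2π) (2 ε))` (`AddCircle.volume_closedBall`),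
`volume univ = ENNReal.ofReal (2π)` (`AddCircle.measure_univ`). So `2π ≤ ∑ 2 ρ s`. -/
theorem arc_sum {ι : Type*} (S : Finset ι) (m : ι → ℂ) (ρ : ι → ℝ) (hm : ∀ s ∈ S, m s ≠ 0)
    (hρ : ∀ s ∈ S, 0 ≤ ρ s)
    (h : ∀ u : ℂ, ‖u‖ = 1 → ∃ s ∈ S, InnerProductGeometry.angle u (m s) ≤ ρ s) :
    π ≤ ∑ s ∈ S, ρ s := by
  have : Fact (0 < 2 * π) := ⟨Real.two_pi_pos⟩
  have hsub : (Set.univ : Set (AddCircle (2 * π))) ⊆
      ⋃ s ∈ S, Metric.closedBall ((Complex.arg (m s) : ℝ) : AddCircle (2 * π)) (ρ s) := by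
    intro x _
    obtain ⟨θ, rfl⟩ := QuotientAddGroup.mk_surjective x
    obtain ⟨s, hs, h1⟩ := h (Complex.exp (θ * Complex.I)) (Complex.norm_exp_ofReal_mul_I θ)
    refine Set.mem_biUnion hs ?_
    rw [Complex.angle_eq_abs_arg (Complex.exp_ne_zero _) (hm s hs)] at h1
    set r := Complex.arg (Complex.exp (θ * Complex.I) / m s) with hr
    have h2 : ((r : ℝ) : Real.Angle) = (θ : Real.Angle) - (Complex.arg (m s) : Real.Angle) := by
      rw [hr, Complex.arg_div_coe_angle (Complex.exp_ne_zero _) (hm s hs)]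
      congr 1
      have h6 := Complex.arg_cos_add_sin_mul_I_coe_angle (θ : Real.Angle)
      rwa [Real.Angle.cos_coe, Real.Angle.sin_coe, Complex.ofReal_cos, Complex.ofReal_sin,
        ← Complex.exp_mul_I] at h6
    have h3 : ‖((r : ℝ) : AddCircle (2 * π))‖ = |r| := by
      rw [AddCircle.norm_coe_eq_abs_iff _ Real.two_pi_pos.ne', abs_of_pos Real.two_pi_pos]
      have := Complex.abs_arg_le_pi (Complex.exp (θ * Complex.I) / m s)
      rw [← hr] at this
      linarith
    rw [mem_closedBall_iff_norm]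
    have h4 : ((QuotientAddGroup.mk θ : AddCircle (2 * π)) -
        ((Complex.arg (m s) : ℝ) : AddCircle (2 * π))) = ((r : ℝ) : AddCircle (2 * π)) := h2.symm
    rw [h4, h3]
    exact h1
  have h5 : MeasureTheory.volume (Set.univ : Set (AddCircle (2 * π))) ≤
      ∑ s ∈ S, ENNReal.ofReal (2 * ρ s) := by
    refine (MeasureTheory.measure_mono hsub).trans
      ((MeasureTheory.measure_biUnion_finset_le S _).trans (Finset.sum_le_sum fun s _ => ?_))
    rw [AddCircle.volume_closedBall]
    exact ENNReal.ofReal_le_ofReal (min_le_right _ _)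
  rw [AddCircle.measure_univ, ← ENNReal.ofReal_sum_of_nonneg
    (fun s hs => mul_nonneg zero_le_two (hρ s hs)), ENNReal.ofReal_le_ofReal_iff
    (Finset.sum_nonneg fun s hs => mul_nonneg zero_le_two (hρ s hs)), ← Finset.mul_sum] at h5
  linarith

/-- the bisector. PROOF. Let `x = inner v w`, `x > -1` because `v + w ≠ 0`; `‖v + w‖^2 = 2 + 2 x`,
`inner u (v + w) = (α + β)(1 + x)`, `‖u‖^2 = α^2 + β^2 + 2 α β x ≤ (α + β)^2`, so the cosine of
`angle u (v + w)` is at least `√((1 + x)/2) = cos (angle v w / 2)` (`Real.cos_half`), and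
`arccos` is antitone. -/
theorem half_angle {V : Type*} [NormedAddCommGroup V] [InnerProductSpace ℝ V] {u v w : V}
    {α β : ℝ} (hv : ‖v‖ = 1) (hw : ‖w‖ = 1) (hvw : v + w ≠ 0) (hu : u ≠ 0) (ha : 0 ≤ α)
    (hb : 0 ≤ β) (h : u = α • v + β • w) :
    InnerProductGeometry.angle u (v + w) ≤ InnerProductGeometry.angle v w / 2 := by
  set c : ℝ := ‖v + w‖ / 2 with hc
  have hc0 : 0 < c := by
    have := norm_pos_iff.2 hvw
    linarith
  have hn : ‖v + w‖ = 2 * c := by
    rw [hc]
    ring
  set x : ℝ := inner ℝ v w with hx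
  have hcos : Real.cos (InnerProductGeometry.angle v w) = x := by
    rw [InnerProductGeometry.cos_angle, hv, hw]
    simp [hx]
  have hx2 : 1 + x = 2 * c ^ 2 := by
    have h1 := norm_add_sq_real v w
    rw [hn, hv, hw] at h1
    linarith
  have hcos2 : Real.cos (InnerProductGeometry.angle v w / 2) = c := by
    rw [Real.cos_half (by linarith [InnerProductGeometry.angle_nonneg v w, Real.pi_pos])
      (InnerProductGeometry.angle_le_pi v w), hcos, hx2]
    rw [show 2 * c ^ 2 / 2 = c ^ 2 by ring, Real.sqrt_sq hc0.le]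
  have hu0 : 0 < ‖u‖ := norm_pos_iff.2 hu
  have hule : ‖u‖ ≤ α + β := by
    rw [h]
    refine (norm_add_le _ _).trans ?_
    rw [norm_smul, norm_smul, hv, hw, Real.norm_eq_abs, Real.norm_eq_abs, abs_of_nonneg ha,
      abs_of_nonneg hb]
    linarith
  have hin : inner ℝ u (v + w) = (α + β) * (1 + x) := by
    rw [h, inner_add_left, inner_add_right, inner_add_right, real_inner_smul_left,
      real_inner_smul_left, real_inner_smul_left, real_inner_smul_left,
      real_inner_self_eq_norm_sq, real_inner_self_eq_norm_sq, hv, hw, real_inner_comm v w, ← hx]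
    ring
  have h1 : InnerProductGeometry.angle v w / 2 =
      Real.arccos (Real.cos (InnerProductGeometry.angle v w / 2)) := by
    rw [Real.arccos_cos]
    · linarith [InnerProductGeometry.angle_nonneg v w]
    · linarith [InnerProductGeometry.angle_le_pi v w, Real.pi_pos]
  rw [h1, InnerProductGeometry.angle]
  refine Real.arccos_le_arccos ?_
  rw [hcos2, hin, hx2, hn, le_div_iff₀ (by positivity)]
  have h2 : c * c * ‖u‖ ≤ c * c * (α + β) := mul_le_mul_of_nonneg_left hule (by positivity)
  nlinarith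

end Pool.Agent.C32
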