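import Pool.Agent.Lib.MP_488b8a_co_W.Fac

/-! # Project C32, module Cnt: at most `2n - 4` facets -/

set_option autoImplicit false

namespace Pool.Agent.C32

open Real

variable {n : ℕ}

private theorem poly_zero (a b c : ℝ) (h : Polynomial.C a + Polynomial.C b * Polynomial.X +
    Polynomial.C c * Polynomial.X ^ 2 = 0) : a = 0 ∧ b = 0 ∧ c = 0 := by
  refine ⟨?_, ?_, ?_⟩
  · have h1 := congrArg (fun q => Polynomial.coeff q 0) h
    simpa [Polynomial.coeff_X, Polynomial.coeff_C, Polynomial.coeff_X_pow] using h1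
  · have h1 := congrArg (fun q => Polynomial.coeff q 1) h
    simpa [Polynomial.coeff_X, Polynomial.coeff_C, Polynomial.coeff_X_pow] using h1
  · have h1 := congrArg (fun q => Polynomial.coeff q 2) h
    simpa [Polynomial.coeff_X, Polynomial.coeff_C, Polynomial.coeff_X_pow] using h1

/-- PROOF. The points are distinct, and a finite number of proper subspaces (the orthogonal
complements of the differences `p i - p j ≠ 0`) do not cover `ℝ³` (measure zero, or
`Subspace.biUnion_ne_univ_of_top_nmem`; or take `w = (1, t, t^2)` with `t` outside the finite set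
of roots of finitely many nonzero polynomials). -/
theorem gen_dir {p : Fin n → E3} (hp : Function.Injective p) :
    ∃ w : E3, ∀ i j, i ≠ j → inner ℝ w (p i) ≠ inner ℝ w (p j) := by
  classical
  set P : Fin n → Fin n → Polynomial ℝ := fun i j =>
    Polynomial.C ((p i - p j) 0) + Polynomial.C ((p i - p j) 1) * Polynomial.X +
      Polynomial.C ((p i - p j) 2) * Polynomial.X ^ 2 with hP
  have hne : ∀ i j, i ≠ j → P i j ≠ 0 := by
    intro i j hij h0
    obtain ⟨g1, g2, g3⟩ := poly_zero _ _ _ h0
    simp only [PiLp.sub_apply] at g1 g2 g3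
    exact hij (hp (ext3 (by linarith) (by linarith) (by linarith)))
  have hfin : (⋃ i : Fin n, ⋃ j : Fin n, {t : ℝ | i ≠ j ∧ (P i j).IsRoot t}).Finite := by
    refine Set.finite_iUnion fun i => Set.finite_iUnion fun j => ?_
    by_cases hij : i = j
    · refine Set.Finite.subset Set.finite_empty ?_
      rintro t ⟨h, -⟩
      exact absurd hij h
    · refine Set.Finite.subset (Polynomial.finite_setOfPred_isRoot (hne i j hij)) ?_
      rintro t ⟨-, h⟩
      exact h
  obtain ⟨t, ht⟩ := hfin.infinite_compl.nonempty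
  refine ⟨!₂[1, t, t ^ 2], fun i j hij heq => ht ?_⟩
  refine Set.mem_iUnion.2 ⟨i, Set.mem_iUnion.2 ⟨j, hij, ?_⟩⟩
  rw [inner_eq, inner_eq] at heq
  simp only [Polynomial.IsRoot, hP, Polynomial.eval_add, Polynomial.eval_mul, Polynomial.eval_C,
    Polynomial.eval_X, Polynomial.eval_pow, PiLp.sub_apply]
  simp at heq
  linarith

private theorem vx_eq {a b c N : E3} (h1 : inner ℝ N a = 1)
    (h2 : inner ℝ N b = 1) (h3 : inner ℝ N c = 1) :
    vx (b - a) (c - a) = dt a b c • N := by
  rw [inner_eq] at h1 h2 h3
  refine ext3 ?_ ?_ ?_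
  · simp [dt, vx]
    linear_combination (-(b 1 * c 2 - b 2 * c 1)) * h1 - (c 1 * a 2 - c 2 * a 1) * h2 -
      (a 1 * b 2 - a 2 * b 1) * h3
  · simp [dt, vx]
    linear_combination (-(b 2 * c 0 - b 0 * c 2)) * h1 - (c 2 * a 0 - c 0 * a 2) * h2 -
      (a 2 * b 0 - a 0 * b 2) * h3
  · simp [dt, vx]
    linear_combination (-(b 0 * c 1 - b 1 * c 0)) * h1 - (c 0 * a 1 - c 1 * a 0) * h2 -
      (a 0 * b 1 - a 1 * b 0) * h3

private theorem triple_eq {x y N : E3} {D : ℝ} (M w : E3) (h : vx x y = D • N) :
    inner ℝ w x * inner ℝ M y - inner ℝ w y * inner ℝ M x = -(D * dt M w N) := by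
  have h1 : dt M w (vx x y) = inner ℝ M x * inner ℝ w y - inner ℝ M y * inner ℝ w x := by
    rw [inner_eq, inner_eq, inner_eq, inner_eq]
    simp [dt, vx]
    ring
  have h2 : dt M w (D • N) = D * dt M w N := by
    simp only [dt, PiLp.smul_apply, smul_eq_mul]
    ring
  rw [h, h2] at h1
  linarith

/-- the middle vertex determines the facet, given the orientation.

PROOF. Let `N`, `N'` be the normals of the two facets (`inner N (p m) ≤ 1` for all `m`). Let
`x = p j - p i`, `y = p k - p i`, `D = dt (p i) (p j) (p k)`. Then `vx x y = D • N`: both sides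
have the inner products `0`, `0`, `D` with `x`, `y`, `p i`, and `dt x y (p i) = D ≠ 0` (`cramer`
for the basis, or: a vector orthogonal to `x`, `y`, `p i` is zero). Put
`d = (- inner w y) • x + (inner w x) • y`, a combination with positive coefficients. By the
expansion of the double vector product (coordinates, `ring`) `vx w (vx x y) = - d`, so
`d = - D • vx w N`. The same for the second facet: `d' = - D' • vx w N'`. Now `inner N' x ≤ 0`,
`inner N' y ≤ 0` (because `inner N' (p i) = 1`), so `inner N' d ≤ 0`, and `inner N d' ≤ 0` in the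
same way. With `q = dt N' w N` (`inner_vx`): `inner N' d = - D q` and `inner N d' = D' q`. So
`D q ≥ 0`, `D' q ≤ 0`, `D D' > 0`, hence `q = 0` and `inner N' d = 0`; since the coefficients are
positive, `inner N' x = inner N' y = 0`, `inner N' (p j) = 1 = inner N' (p k)`, so `j` and `k` are
vertices of the second facet (strict inequality in `Facet`), different from `i`; by the heights
`j = j'`, `k = k'`. -/
theorem middle_unique {p : Fin n → E3} {w : E3} {i j k j' k' : Fin n} (h : Facet p (i, j, k))
    (h' : Facet p (i, j', k')) (h1 : inner ℝ w (p i) < inner ℝ w (p j))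
    (h2 : inner ℝ w (p k) < inner ℝ w (p i)) (h1' : inner ℝ w (p i) < inner ℝ w (p j'))
    (h2' : inner ℝ w (p k') < inner ℝ w (p i))
    (hs : 0 < dt (p i) (p j) (p k) * dt (p i) (p j') (p k')) : j = j' ∧ k = k' := by
  obtain ⟨hD, N, n1, n2, n3, n4⟩ := h
  obtain ⟨hD', N', m1, m2, m3, m4⟩ := h'
  simp only at hD hD' n1 n2 n3 n4 m1 m2 m3 m4
  have hv := vx_eq n1 n2 n3
  have hv' := vx_eq m1 m2 m3
  have le1 : ∀ l, inner ℝ N (p l) ≤ 1 := by
    intro l
    by_cases a1 : l = i
    · rw [a1, n1]
    by_cases a2 : l = j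
    · rw [a2, n2]
    by_cases a3 : l = k
    · rw [a3, n3]
    exact (n4 l a1 a2 a3).le
  have le2 : ∀ l, inner ℝ N' (p l) ≤ 1 := by
    intro l
    by_cases a1 : l = i
    · rw [a1, m1]
    by_cases a2 : l = j'
    · rw [a2, m2]
    by_cases a3 : l = k'
    · rw [a3, m3]
    exact (m4 l a1 a2 a3).le
  set D := dt (p i) (p j) (p k) with hDdef
  set D' := dt (p i) (p j') (p k') with hDdef'
  set q := dt N' w N with hq
  have e1 := triple_eq N' w hv
  have e2 := triple_eq N w hv'
  have e3 : dt N w N' = -q := by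
    simp only [hq, dt]
    ring
  have x1 : inner ℝ w (p j - p i) = inner ℝ w (p j) - inner ℝ w (p i) := inner_sub_right _ _ _
  have y1 : inner ℝ w (p k - p i) = inner ℝ w (p k) - inner ℝ w (p i) := inner_sub_right _ _ _
  have x2 : inner ℝ w (p j' - p i) = inner ℝ w (p j') - inner ℝ w (p i) := inner_sub_right _ _ _
  have y2 : inner ℝ w (p k' - p i) = inner ℝ w (p k') - inner ℝ w (p i) := inner_sub_right _ _ _
  have x3 : inner ℝ N' (p j - p i) = inner ℝ N' (p j) - 1 := by rw [inner_sub_right, m1]
  have y3 : inner ℝ N' (p k - p i) = inner ℝ N' (p k) - 1 := by rw [inner_sub_right, m1]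
  have x4 : inner ℝ N (p j' - p i) = inner ℝ N (p j') - 1 := by rw [inner_sub_right, n1]
  have y4 : inner ℝ N (p k' - p i) = inner ℝ N (p k') - 1 := by rw [inner_sub_right, n1]
  rw [x1, y1, x3, y3, ← hq] at e1
  rw [x2, y2, x4, y4, e3] at e2
  have lj := le2 j
  have lk := le2 k
  have lj' := le1 j'
  have lk' := le1 k'
  have t1 : 0 ≤ (inner ℝ w (p i) - inner ℝ w (p k)) * (1 - inner ℝ N' (p j)) :=
    mul_nonneg (by linarith) (by linarith)
  have t2 : 0 ≤ (inner ℝ w (p j) - inner ℝ w (p i)) * (1 - inner ℝ N' (p k)) :=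
    mul_nonneg (by linarith) (by linarith)
  have t3 : 0 ≤ (inner ℝ w (p i) - inner ℝ w (p k')) * (1 - inner ℝ N (p j')) :=
    mul_nonneg (by linarith) (by linarith)
  have t4 : 0 ≤ (inner ℝ w (p j') - inner ℝ w (p i)) * (1 - inner ℝ N (p k')) :=
    mul_nonneg (by linarith) (by linarith)
  have s1 : 0 ≤ D * q := by nlinarith
  have s2 : D' * q ≤ 0 := by nlinarith
  have hq0 : q = 0 := by
    by_contra hne
    have hq2 : 0 < q ^ 2 := by positivity
    have : 0 < (D * q) * (D' * q) := by
      have := mul_pos hs hq2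
      calc 0 < D * D' * q ^ 2 := this
        _ = (D * q) * (D' * q) := by ring
    have h5 : (D * q) * (D' * q) ≤ 0 := mul_nonpos_of_nonneg_of_nonpos s1 s2
    linarith
  rw [hq0, mul_zero] at e1
  have u1 : (inner ℝ w (p i) - inner ℝ w (p k)) * (1 - inner ℝ N' (p j)) = 0 := by nlinarith
  have u2 : (inner ℝ w (p j) - inner ℝ w (p i)) * (1 - inner ℝ N' (p k)) = 0 := by nlinarith
  have v1 : inner ℝ N' (p j) = 1 := by
    rcases mul_eq_zero.1 u1 with h | h <;> linarith
  have v2 : inner ℝ N' (p k) = 1 := by
    rcases mul_eq_zero.1 u2 with h | h <;> linarith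
  constructor
  · by_contra hjj
    have a1 : j ≠ i := by
      rintro rfl
      exact lt_irrefl _ h1
    have a3 : j ≠ k' := by
      rintro rfl
      linarith
    have := m4 j a1 hjj a3
    linarith
  · by_contra hkk
    have a1 : k ≠ i := by
      rintro rfl
      exact lt_irrefl _ h2
    have a3 : k ≠ j' := by
      rintro rfl
      linarith
    have := m4 k a1 a3 hkk
    linarith

/-- PROOF. Choose `w` by `gen_dir`. Let `S` be the set of facets `(i, j, k)` with
`inner w (p k) < inner w (p i) < inner w (p j)`. Every facet is one of the six permutations of an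
element of `S`, so `card (facets p) ≤ 6 * card S` (cover `facets p` by the six images of `S`).
The map `(i, j, k) ↦ (i, sign of dt (p i) (p j) (p k))` is injective on `S` by `middle_unique`, and
its first component is neither the highest nor the lowest vertex: `card S ≤ 2 (n - 2)`. -/
theorem facets_card {p : Fin n → E3} (hG : Gen p) (hn : 2 ≤ n) :
    (facets p).card + 24 ≤ 12 * n := by
  classical
  obtain ⟨w, hw⟩ := gen_dir hG.2.1
  set S := (facets p).filter (fun t => inner ℝ w (p t.2.2) < inner ℝ w (p t.1) ∧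
    inner ℝ w (p t.1) < inner ℝ w (p t.2.1)) with hS
  have hcov : facets p ⊆ S ∪ S.image (fun t => (t.1, t.2.2, t.2.1)) ∪
      S.image (fun t => (t.2.1, t.1, t.2.2)) ∪ S.image (fun t => (t.2.2, t.1, t.2.1)) ∪
      S.image (fun t => (t.2.1, t.2.2, t.1)) ∪ S.image (fun t => (t.2.2, t.2.1, t.1)) := by
    rintro ⟨i, j, k⟩ ht
    rw [mem_facets] at ht
    obtain ⟨n1, n2, n3⟩ := facet_ne ht
    have p1 := facet_perm1 ht
    have p2 := facet_perm2 ht
    have p3 := facet_perm2 p2
    have p4 := facet_perm2 p1
    have p5 := facet_perm2 p4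
    have a1 := hw i j n1
    have a2 := hw j k n2
    have a3 := hw i k n3
    have key : ∀ a b c : Fin n, Facet p (a, b, c) → inner ℝ w (p c) < inner ℝ w (p a) →
        inner ℝ w (p a) < inner ℝ w (p b) → (a, b, c) ∈ S := by
      intro a b c h1 h2 h3
      rw [hS, Finset.mem_filter]
      exact ⟨(mem_facets p _).2 h1, h2, h3⟩
    simp only [Finset.mem_union, Finset.mem_image, Prod.mk.injEq, Prod.exists]
    rcases lt_or_gt_of_ne a1 with b1 | b1 <;> rcases lt_or_gt_of_ne a2 with b2 | b2 <;>
      rcases lt_or_gt_of_ne a3 with b3 | b3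
    · -- i < j < k
      left; left; right
      exact ⟨j, k, i, key j k i p2 b1 b2, rfl, rfl, rfl⟩
    · linarith
    · -- i < k < j : middle k, high j, low i
      right
      exact ⟨k, j, i, key k j i p5 b3 b2, rfl, rfl, rfl⟩
    · -- k < i < j
      left; left; left; left; left
      exact key i j k ht b3 b1
    · -- j < i < k
      left; left; left; left; right
      exact ⟨i, k, j, key i k j p4 b1 b3, rfl, rfl, rfl⟩
    · -- j < k < i : middle k, high i, low j
      left; right
      exact ⟨k, i, j, key k i j p3 b2 b3, rfl, rfl, rfl⟩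
    · linarith
    · -- k < j < i : middle j, high i, low k
      left; left; left; right
      exact ⟨j, i, k, key j i k p1 b2 b1, rfl, rfl, rfl⟩
  have hcard6 : (facets p).card ≤ 6 * S.card := by
    refine (Finset.card_le_card hcov).trans ?_
    refine (Finset.card_union_le _ _).trans ?_
    have c1 := Finset.card_union_le (S ∪ S.image (fun t => (t.1, t.2.2, t.2.1)) ∪
      S.image (fun t => (t.2.1, t.1, t.2.2)) ∪ S.image (fun t => (t.2.2, t.1, t.2.1)))
      (S.image (fun t => (t.2.1, t.2.2, t.1)))
    have c2 := Finset.card_union_le (S ∪ S.image (fun t => (t.1, t.2.2, t.2.1)) ∪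
      S.image (fun t => (t.2.1, t.1, t.2.2))) (S.image (fun t => (t.2.2, t.1, t.2.1)))
    have c3 := Finset.card_union_le (S ∪ S.image (fun t => (t.1, t.2.2, t.2.1)))
      (S.image (fun t => (t.2.1, t.1, t.2.2)))
    have c4 := Finset.card_union_le S (S.image (fun t => (t.1, t.2.2, t.2.1)))
    have i1 : (S.image (fun t => (t.1, t.2.2, t.2.1))).card ≤ S.card := Finset.card_image_le
    have i2 : (S.image (fun t => (t.2.1, t.1, t.2.2))).card ≤ S.card := Finset.card_image_le
    have i3 : (S.image (fun t => (t.2.2, t.1, t.2.1))).card ≤ S.card := Finset.card_image_le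
    have i4 : (S.image (fun t => (t.2.1, t.2.2, t.1))).card ≤ S.card := Finset.card_image_le
    have i5 : (S.image (fun t => (t.2.2, t.2.1, t.1))).card ≤ S.card := Finset.card_image_le
    omega
  have hne : (Finset.univ : Finset (Fin n)).Nonempty := ⟨⟨0, by omega⟩, Finset.mem_univ _⟩
  obtain ⟨hi, -, hhi⟩ := Finset.exists_max_image Finset.univ (fun i => inner ℝ w (p i)) hne
  obtain ⟨lo, -, hlo⟩ := Finset.exists_min_image Finset.univ (fun i => inner ℝ w (p i)) hne
  have hhl : lo ≠ hi := by
    rintro rfl
    have hall : ∀ i j : Fin n, i = j := by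
      intro i j
      by_contra hij
      apply hw i j hij
      have q1 := hhi i (Finset.mem_univ _)
      have q2 := hlo i (Finset.mem_univ _)
      have q3 := hhi j (Finset.mem_univ _)
      have q4 := hlo j (Finset.mem_univ _)
      linarith
    have := hall ⟨0, by omega⟩ ⟨1, by omega⟩
    simp at this
  have hSc : S.card ≤ 2 * (n - 2) := by
    have hcT : ((((Finset.univ : Finset (Fin n)).erase hi).erase lo) ×ˢ
        (Finset.univ : Finset Bool)).card = 2 * (n - 2) := by
      rw [Finset.card_product, Finset.card_erase_of_mem (Finset.mem_erase.2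
        ⟨hhl, Finset.mem_univ _⟩), Finset.card_erase_of_mem (Finset.mem_univ _)]
      simp
      omega
    rw [← hcT]
    refine Finset.card_le_card_of_injOn
      (fun t => (t.1, decide (0 < dt (p t.1) (p t.2.1) (p t.2.2)))) ?_ ?_
    · rintro ⟨i, j, k⟩ ht
      have ht' := (Finset.mem_filter.1 (Finset.mem_coe.1 ht)).2
      simp only at ht'
      simp only [Finset.coe_product, Set.mem_prod, Finset.mem_coe, Finset.mem_erase,
        Finset.mem_univ, and_true]
      refine ⟨?_, ?_⟩
      · rintro rfl
        have := hlo k (Finset.mem_univ _)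
        linarith [ht'.1]
      · rintro rfl
        have := hhi j (Finset.mem_univ _)
        linarith [ht'.2]
    · rintro ⟨i, j, k⟩ ht ⟨i', j', k'⟩ ht' heq
      obtain ⟨hf, hb1, hb2⟩ := Finset.mem_filter.1 (Finset.mem_coe.1 ht)
      obtain ⟨hf', hb1', hb2'⟩ := Finset.mem_filter.1 (Finset.mem_coe.1 ht')
      rw [mem_facets] at hf hf'
      simp only [Prod.mk.injEq] at heq
      obtain ⟨rfl, hdec⟩ := heq
      simp only at hb1 hb2 hb1' hb2'
      have hd1 : dt (p i) (p j) (p k) ≠ 0 := hf.1
      have hd2 : dt (p i) (p j') (p k') ≠ 0 := hf'.1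
      have hs : 0 < dt (p i) (p j) (p k) * dt (p i) (p j') (p k') := by
        rcases lt_or_gt_of_ne hd1 with c1 | c1 <;> rcases lt_or_gt_of_ne hd2 with c2 | c2
        · exact mul_pos_of_neg_of_neg c1 c2
        · exfalso
          rw [decide_eq_decide] at hdec
          have := hdec.2 c2
          linarith
        · exfalso
          rw [decide_eq_decide] at hdec
          have := hdec.1 c1
          linarith
        · exact mul_pos c1 c2
      obtain ⟨r1, r2⟩ := middle_unique hf hf' hb2 hb1 hb2' hb1' hs
      rw [r1, r2]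
  omega

end Pool.Agent.C32
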