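import Pool.Agent.Lib.MP_488b8a_co_W.Fun

/-! # Project C32, module Conc: concavity of `φ_c` on `[0, π/2]` -/

set_option autoImplicit false

namespace Pool.Agent.C32

open Real

private theorem conc_den {c : ℝ} (hc : 0 < c) (z : ℝ) : 0 < cos z ^ 2 + c ^ 2 * sin z ^ 2 := by
  have h7 := sin_sq_add_cos_sq z
  rcases eq_or_ne (sin z) 0 with h | h
  · rw [h] at h7 ⊢
    nlinarith
  · have h2 : 0 < sin z ^ 2 := by positivity
    have h3 : 0 < c ^ 2 * sin z ^ 2 := by positivity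
    have h4 := sq_nonneg (cos z)
    linarith

/-- PROOF. `dph c z = c / (1 - (1 - c^2) sin^2 z)` and `sin` is strictly increasing on
`[0, π/2]`. -/
theorem dph_mono {c : ℝ} (hc : 0 < c) (hc1 : c < 1) :
    StrictMonoOn (dph c) (Set.Icc 0 (π / 2)) := by
  intro x hx y hy hxy
  have hp := pi_pos
  have h1 : sin x < sin y :=
    strictMonoOn_sin ⟨by linarith [hx.1], hx.2⟩ ⟨by linarith [hy.1], hy.2⟩ hxy
  have h2 : 0 ≤ sin x := sin_nonneg_of_nonneg_of_le_pi hx.1 (by linarith [hx.2])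
  have h3 : sin x ^ 2 < sin y ^ 2 := pow_lt_pow_left₀ h1 h2 two_ne_zero
  have h4 := sin_sq_add_cos_sq x
  have h5 := sin_sq_add_cos_sq y
  have h6 : 0 < 1 - c ^ 2 := by nlinarith
  have h7 := mul_lt_mul_of_pos_left h3 h6
  unfold dph
  exact div_lt_div_of_pos_left hc (conc_den hc y) (by nlinarith)

/-- PROOF. `ph c` is continuous on `[0, π/2]` and its derivative `- dph c` is strictly decreasing in
the interior (`StrictAntiOn.strictConcaveOn_of_deriv`). -/
theorem ph_conc {c : ℝ} (hc : 0 < c) (hc1 : c < 1) :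
    StrictConcaveOn ℝ (Set.Icc 0 (π / 2)) (ph c) := by
  have hp := pi_pos
  refine StrictAntiOn.strictConcaveOn_of_deriv (convex_Icc 0 (π / 2))
    ((ph_cont1 hc).mono (Set.Icc_subset_Icc le_rfl (by linarith))) ?_
  rw [interior_Icc]
  intro x hx y hy hxy
  rw [(ph_deriv hc hx.1 (by linarith [hx.2])).deriv, (ph_deriv hc hy.1 (by linarith [hy.2])).deriv]
  exact neg_lt_neg (dph_mono hc hc1 (Set.Ioo_subset_Icc_self hx) (Set.Ioo_subset_Icc_self hy) hxy)

private theorem conc_mvt {c x y : ℝ} (hc : 0 < c) (hx : 0 ≤ x) (hxy : x < y) (hy : y ≤ π / 2) :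
    ∃ z, x < z ∧ z < y ∧ ph c y - ph c x = -dph c z * (y - x) := by
  have hp := pi_pos
  obtain ⟨z, hz, hz2⟩ := exists_hasDerivAt_eq_slope (ph c) (fun z => -dph c z) hxy
    ((ph_cont1 hc).mono (Set.Icc_subset_Icc hx (by linarith)))
    (fun z hz => ph_deriv hc (by linarith [hz.1]) (by linarith [hz.2]))
  refine ⟨z, hz.1, hz.2, ?_⟩
  have h1 : y - x ≠ 0 := by linarith
  rw [hz2]
  field_simp

private theorem conc_tan_lt {c z0 z : ℝ} (hc : 0 < c) (hc1 : c < 1) (h0 : 0 < z0)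
    (h0' : z0 < π / 2) (hz : 0 ≤ z) (hz' : z ≤ π / 2) (hne : z ≠ z0) :
    ph c z < ph c z0 - dph c z0 * (z - z0) := by
  rcases lt_or_gt_of_ne hne with h | h
  · obtain ⟨w, hw1, hw2, hw⟩ := conc_mvt hc hz h h0'.le
    have h1 := dph_mono hc hc1 (⟨by linarith, by linarith⟩ : w ∈ Set.Icc 0 (π / 2))
      ⟨h0.le, h0'.le⟩ hw2
    have h2 : 0 < z0 - z := by linarith
    have h3 := mul_lt_mul_of_pos_right h1 h2
    linarith
  · obtain ⟨w, hw1, hw2, hw⟩ := conc_mvt hc h0.le h hz'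
    have h1 := dph_mono hc hc1 (⟨h0.le, h0'.le⟩ : z0 ∈ Set.Icc 0 (π / 2))
      (⟨by linarith, by linarith⟩ : w ∈ Set.Icc 0 (π / 2)) hw1
    have h2 : 0 < z - z0 := by linarith
    have h3 := mul_lt_mul_of_pos_right h1 h2
    linarith

/-- tangent line. PROOF. Concavity, or: `g z = ph c z + dph c z0 * (z - z0)` has derivative
`dph c z0 - dph c z`, positive for `z < z0` and negative for `z > z0`. -/
theorem ph_tan {c z0 z : ℝ} (hc : 0 < c) (hc1 : c < 1) (h0 : 0 < z0) (h0' : z0 < π / 2)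
    (hz : 0 ≤ z) (hz' : z ≤ π / 2) : ph c z ≤ ph c z0 - dph c z0 * (z - z0) := by
  rcases eq_or_ne z z0 with h | h
  · rw [h, sub_self, mul_zero, sub_zero]
  · exact (conc_tan_lt hc hc1 h0 h0' hz hz' h).le

theorem ph_tan_lt {c z0 z : ℝ} (hc : 0 < c) (hc1 : c < 1) (h0 : 0 < z0) (h0' : z0 < π / 2)
    (hz : 0 ≤ z) (hz' : z ≤ π / 2) (hne : z ≠ z0) :
    ph c z < ph c z0 - dph c z0 * (z - z0) := by
  exact conc_tan_lt hc hc1 h0 h0' hz hz' hne

private theorem conc_one {z : ℝ} (hz : 0 ≤ z) (hz' : z ≤ π / 2) : ph 1 z = π / 2 - z := by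
  have hp := pi_pos
  unfold ph
  have h1 : (⟨1 * sin z, cos z⟩ : ℂ) =
      Complex.cos ((π / 2 - z : ℝ) : ℂ) + Complex.sin ((π / 2 - z : ℝ) : ℂ) * Complex.I := by
    rw [← Complex.ofReal_cos, ← Complex.ofReal_sin, Real.cos_pi_div_two_sub,
      Real.sin_pi_div_two_sub, one_mul]
    exact Complex.mk_eq_add_mul_I _ _
  rw [h1, Complex.arg_cos_add_sin_mul_I ⟨by linarith, by linarith⟩]

/-- PROOF. Midpoint concavity for `c < 1`; for `c = 1` one has `ph 1 z = π/2 - z`, equality. -/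
theorem ph_mid {c x y : ℝ} (hc : 0 < c) (hc1 : c ≤ 1) (hx : 0 ≤ x) (hx' : x ≤ π / 2) (hy : 0 ≤ y)
    (hy' : y ≤ π / 2) : ph c x + ph c y ≤ 2 * ph c ((x + y) / 2) := by
  rcases eq_or_lt_of_le hc1 with h | h
  · rw [h, conc_one hx hx', conc_one hy hy', conc_one (by linarith) (by linarith)]
    linarith
  · have h1 := (ph_conc hc h).concaveOn.2 (⟨hx, hx'⟩ : x ∈ Set.Icc 0 (π / 2))
      (⟨hy, hy'⟩ : y ∈ Set.Icc 0 (π / 2)) (by norm_num : (0 : ℝ) ≤ 1 / 2)
      (by norm_num : (0 : ℝ) ≤ 1 / 2) (by norm_num)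
    simp only [smul_eq_mul] at h1
    have h2 : 1 / 2 * x + 1 / 2 * y = (x + y) / 2 := by ring
    rw [h2] at h1
    linarith

/-- PROOF. The derivative of `s ↦ 2 ph c (s/2) - ph c s` on `(0, π/2)` is
`dph c s - dph c (s/2) ≥ 0` by `dph_mono`. -/
theorem two_half_mono {c : ℝ} (hc : 0 < c) (hc1 : c < 1) :
    MonotoneOn (fun s => 2 * ph c (s / 2) - ph c s) (Set.Icc 0 (π / 2)) := by
  have hp := pi_pos
  have hd : ∀ s ∈ Set.Ioo 0 (π / 2), HasDerivAt (fun s => 2 * ph c (s / 2) - ph c s)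
      (dph c s - dph c (s / 2)) s := by
    intro s hs
    have h1 : HasDerivAt (fun s : ℝ => s / 2) (1 / 2) s := (hasDerivAt_id s).div_const 2
    have h2 : HasDerivAt (fun s => ph c (s / 2)) (-dph c (s / 2) * (1 / 2)) s :=
      HasDerivAt.comp (h := fun s : ℝ => s / 2) (h₂ := ph c) s
        (ph_deriv hc (z := s / 2) (by linarith [hs.1]) (by linarith [hs.2])) h1
    have h3 := (h2.const_mul 2).sub (ph_deriv hc hs.1 (by linarith [hs.2]))
    refine h3.congr_deriv ?_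
    ring
  refine monotoneOn_of_deriv_nonneg (convex_Icc 0 (π / 2)) ?_ ?_ ?_
  · refine ContinuousOn.sub (continuousOn_const.mul ((ph_cont1 hc).comp (by fun_prop) ?_))
      ((ph_cont1 hc).mono (Set.Icc_subset_Icc le_rfl (by linarith)))
    intro s hs
    exact ⟨by linarith [hs.1], by linarith [hs.2]⟩
  · rw [interior_Icc]
    exact fun s hs => (hd s hs).differentiableAt.differentiableWithinAt
  · rw [interior_Icc]
    intro s hs
    rw [(hd s hs).deriv]
    have h1 := dph_mono hc hc1 (⟨by linarith [hs.1], by linarith [hs.2]⟩ :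
      s / 2 ∈ Set.Icc 0 (π / 2)) (⟨hs.1.le, hs.2.le⟩ : s ∈ Set.Icc 0 (π / 2)) (by linarith [hs.1])
    linarith

private theorem conc_dc {c z : ℝ} (hc : 0 < c) (h0 : 0 < z) (h1 : z < π) :
    HasDerivAt (fun c => ph c z) (-(sin z * cos z / (cos z ^ 2 + c ^ 2 * sin z ^ 2))) c := by
  have h2 : 0 < sin z := sin_pos_of_pos_of_lt_pi h0 h1
  have h3 : c * sin z ≠ 0 := (mul_pos hc h2).ne'
  have h4 : HasDerivAt (fun c : ℝ => c * sin z) (1 * sin z) c :=
    (hasDerivAt_id c).mul_const (sin z)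
  have h5 := ((hasDerivAt_const c (cos z)).div h4 h3).arctan
  have h6 : (fun c => ph c z) =ᶠ[nhds c] fun c => arctan (cos z / (c * sin z)) := by
    filter_upwards [lt_mem_nhds hc] with y hy
    exact ph_eq hy h0 h1
  refine (h5.congr_of_eventuallyEq h6).congr_deriv ?_
  have h8 := conc_den hc z
  simp only [Pi.div_apply]
  have h9 : 1 + (cos z / (c * sin z)) ^ 2 = (cos z ^ 2 + c ^ 2 * sin z ^ 2) /
      (c * sin z) ^ 2 := by
    field_simp
    ring
  rw [h9]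
  field_simp
  ring

private theorem conc_key {a t u : ℝ} (ha : 9 / 25 ≤ a) (ht : 0 < t) (hu : 0 < u) :
    (t + u) * (1 - t * u) / ((1 - t * u) ^ 2 + a * (t + u) ^ 2) ≤
      t * 1 / (1 ^ 2 + a * t ^ 2) + u * 1 / (1 ^ 2 + a * u ^ 2) := by
  have ha0 : 0 < a := by linarith
  have h1 : 0 < (1 - t * u) ^ 2 + a * (t + u) ^ 2 := by positivity
  have h2 : 0 < 1 ^ 2 + a * t ^ 2 := by positivity
  have h3 : 0 < 1 ^ 2 + a * u ^ 2 := by positivity
  have hq : 0 < t * u := mul_pos ht hu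
  have he : 2 * (t * u) ≤ t ^ 2 + u ^ 2 := by nlinarith [sq_nonneg (t - u)]
  rw [div_add_div _ _ h2.ne' h3.ne', div_le_div_iff₀ h1 (mul_pos h2 h3)]
  have h4 : 0 ≤ (a ^ 2 + a) * (t ^ 2 + u ^ 2 - 2 * (t * u)) :=
    mul_nonneg (by positivity) (by linarith)
  have h5 : 0 ≤ (t * u) * (1 + 3 * a ^ 2) := by positivity
  have h6 : 0 ≤ (t * u) ^ 2 * (a + a ^ 2) := by positivity
  have h7 : 0 ≤ (t + u) * ((t * u) * ((3 * a - 1) + (t * u) * (1 + 3 * a ^ 2) +
      (t * u) ^ 2 * (a + a ^ 2) + (a ^ 2 + a) * (t ^ 2 + u ^ 2 - 2 * (t * u)))) := by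
    refine mul_nonneg (by positivity) (mul_nonneg hq.le ?_)
    linarith
  nlinarith [h7]

/-- PROOF. Let `G c z = sin z cos z / (cos^2 z + c^2 sin^2 z)`; for `0 < z < π` the derivative of
`c ↦ ph c z` is `- G c z`. For `x = 0` or `y = 0` both sides are `π/2`. For `x, y > 0`, with
`t = tan x`, `u = tan y` (if `x + y = π/2` then `G c (x+y) = 0`): `G c x = t / (1 + c^2 t^2)`, and
`G c x + G c y ≥ G c (x + y)` is
`(1 + c^2 t u) ((1 - t u)^2 + c^2 (t + u)^2) ≥ (1 - t u) (1 + c^2 t^2) (1 + c^2 u^2)`;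
the difference is `q (-1 + q + 3 c^2 - 2 c^2 q + c^2 q^2 + c^4 q + c^4 q^2 + (c^4 + c^2) e)` with
`q = t u ≥ 0`, `e = t^2 + u^2 ≥ 2 q`, and this is `≥ 0` if `c^2 ≥ 1/3`. Integrate over `[c, c']`
(`antitoneOn_of_deriv_nonpos`, or monotonicity of `c ↦ ph c x + ph c y - ph c (x + y)`). -/
theorem ph_sub_mono {c c' x y : ℝ} (hc : 3 / 5 ≤ c) (hcc : c ≤ c') (hc1 : c' ≤ 1) (hx : 0 ≤ x)
    (hy : 0 ≤ y) (hxy : x + y ≤ π / 2) :
    ph c' x + ph c' y - ph c' (x + y) ≤ ph c x + ph c y - ph c (x + y) := by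
  have _ := hc1
  have hp := pi_pos
  rcases eq_or_lt_of_le hx with h | hx0
  · rw [← h, zero_add, ph_zero, ph_zero]
    linarith
  rcases eq_or_lt_of_le hy with h | hy0
  · rw [← h, add_zero, ph_zero, ph_zero]
    linarith
  have hkey : ∀ k : ℝ, 3 / 5 ≤ k →
      sin (x + y) * cos (x + y) / (cos (x + y) ^ 2 + k ^ 2 * sin (x + y) ^ 2) ≤
      sin x * cos x / (cos x ^ 2 + k ^ 2 * sin x ^ 2) +
        sin y * cos y / (cos y ^ 2 + k ^ 2 * sin y ^ 2) := by
    intro k hk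
    have h1 : 0 < cos x := cos_pos_of_mem_Ioo ⟨by linarith, by linarith⟩
    have h2 : 0 < cos y := cos_pos_of_mem_Ioo ⟨by linarith, by linarith⟩
    have h3 : 0 < sin x := sin_pos_of_pos_of_lt_pi hx0 (by linarith)
    have h4 : 0 < sin y := sin_pos_of_pos_of_lt_pi hy0 (by linarith)
    have h6 : 9 / 25 ≤ k ^ 2 := by nlinarith
    obtain ⟨t, ht⟩ : ∃ t, t = sin x / cos x := ⟨_, rfl⟩
    obtain ⟨u, hu⟩ : ∃ u, u = sin y / cos y := ⟨_, rfl⟩
    have ht0 : 0 < t := by rw [ht]; exact div_pos h3 h1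
    have hu0 : 0 < u := by rw [hu]; exact div_pos h4 h2
    have ex : sin x = t * cos x := by rw [ht]; field_simp
    have ey : sin y = u * cos y := by rw [hu]; field_simp
    have ec : cos (x + y) = (1 - t * u) * (cos x * cos y) := by
      rw [cos_add, ex, ey]
      ring
    have es : sin (x + y) = (t + u) * (cos x * cos y) := by
      rw [sin_add, ex, ey]
      ring
    have hG : ∀ S C m : ℝ, m ≠ 0 → (S * m) * (C * m) / ((C * m) ^ 2 + k ^ 2 * (S * m) ^ 2) =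
        S * C / (C ^ 2 + k ^ 2 * S ^ 2) := by
      intro S C m hm
      have e1 : (S * m) * (C * m) = (S * C) * m ^ 2 := by ring
      have e2 : (C * m) ^ 2 + k ^ 2 * (S * m) ^ 2 = (C ^ 2 + k ^ 2 * S ^ 2) * m ^ 2 := by ring
      rw [e1, e2, mul_div_mul_right _ _ (pow_ne_zero 2 hm)]
    have g1 := hG (t + u) (1 - t * u) (cos x * cos y) (mul_pos h1 h2).ne'
    have g2 := hG t 1 (cos x) h1.ne'
    have g3 := hG u 1 (cos y) h2.ne'
    rw [one_mul] at g2 g3
    rw [ec, es, g1, ex, ey, g2, g3]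
    exact conc_key h6 ht0 hu0
  have hd : ∀ k ∈ Set.Icc c c', HasDerivAt (fun k => ph k x + ph k y - ph k (x + y))
      (-(sin x * cos x / (cos x ^ 2 + k ^ 2 * sin x ^ 2)) +
        -(sin y * cos y / (cos y ^ 2 + k ^ 2 * sin y ^ 2)) -
        -(sin (x + y) * cos (x + y) / (cos (x + y) ^ 2 + k ^ 2 * sin (x + y) ^ 2))) k := by
    intro k hk
    have hk0 : 0 < k := by linarith [hk.1]
    exact ((conc_dc hk0 hx0 (by linarith)).add (conc_dc hk0 hy0 (by linarith))).sub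
      (conc_dc hk0 (by linarith) (by linarith))
  have hanti : AntitoneOn (fun k => ph k x + ph k y - ph k (x + y)) (Set.Icc c c') := by
    refine antitoneOn_of_deriv_nonpos (convex_Icc c c')
      (fun k hk => (hd k hk).continuousAt.continuousWithinAt) ?_ ?_
    · exact fun k hk => (hd k (interior_subset hk)).differentiableAt.differentiableWithinAt
    · intro k hk
      have hk' := interior_subset hk
      rw [(hd k hk').deriv]
      have := hkey k (hc.trans hk'.1)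
      linarith
  exact hanti ⟨le_rfl, hcc⟩ ⟨hcc, le_rfl⟩ hcc

end Pool.Agent.C32
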