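import Pool.Agent.Lib.MP_488b8a_co_W.IcoC

/-! # Project C32, module CovI: the explicit configuration covers -/

set_option autoImplicit false

namespace Pool.Agent.C32

open Real

/-- PROOF. Let `μ = (1 - g56)/(1 + g66 - 2 g56^2)`, `l = 1 - 2 μ g56`, `N = l • P + μ • (Q + R)`.
Then `inner N P = l + 2 μ g56 = 1`, `inner N Q = l g56 + μ (1 + g66) = 1 = inner N R`
and `‖N‖^2 = inner N (l P + μ (Q + R)) = l + 2 μ = 1 / kap^2` (`circ_ident`). If
`x = α P + β Q + γ R` with nonnegative coefficients, then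
`α + β + γ = inner N x ≤ ‖N‖ = 1 / kap` and
`1 = inner x x = α inner x P + β inner x Q + γ inner x R`; if all three inner products were less
than `kap`, then `1 < kap (α + β + γ) ≤ 1` (not all coefficients are zero). -/
theorem tile_max {P Q R x : E3} {α β γ : ℝ} (hP : ‖P‖ = 1) (hQ : ‖Q‖ = 1) (hR : ‖R‖ = 1)
    (hx : ‖x‖ = 1) (h1 : inner ℝ P Q = g56) (h2 : inner ℝ P R = g56) (h3 : inner ℝ Q R = g66)
    (ha : 0 ≤ α) (hb : 0 ≤ β) (hc : 0 ≤ γ) (h : x = α • P + β • Q + γ • R) :
    kap ≤ inner ℝ x P ∨ kap ≤ inner ℝ x Q ∨ kap ≤ inner ℝ x R := by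
  have hgb := g_bounds
  have hk := kap_pos
  obtain ⟨g1, g2, g3, g4⟩ := hgb
  have hD : 0 < 1 + g66 - 2 * g56 ^ 2 := by nlinarith
  have hci := circ_ident
  obtain ⟨μ, hμ⟩ : ∃ μ : ℝ, μ = (1 - g56) / (1 + g66 - 2 * g56 ^ 2) := ⟨_, rfl⟩
  have hμD : μ * (1 + g66 - 2 * g56 ^ 2) = 1 - g56 := by
    rw [hμ, div_mul_cancel₀ _ hD.ne']
  have hci' : 1 + 2 * μ * (1 - g56) = 1 / kap ^ 2 := by
    rw [← hci, hμ]
    ring
  obtain ⟨l, hl⟩ : ∃ l : ℝ, l = 1 - 2 * μ * g56 := ⟨_, rfl⟩
  obtain ⟨N, hN⟩ : ∃ N : E3, N = l • P + μ • (Q + R) := ⟨_, rfl⟩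
  have hPP : inner ℝ P P = (1 : ℝ) := by rw [real_inner_self_eq_norm_sq, hP]; norm_num
  have hQQ : inner ℝ Q Q = (1 : ℝ) := by rw [real_inner_self_eq_norm_sq, hQ]; norm_num
  have hRR : inner ℝ R R = (1 : ℝ) := by rw [real_inner_self_eq_norm_sq, hR]; norm_num
  have h1' : inner ℝ Q P = g56 := by rw [real_inner_comm]; exact h1
  have h2' : inner ℝ R P = g56 := by rw [real_inner_comm]; exact h2
  have h3' : inner ℝ R Q = g66 := by rw [real_inner_comm]; exact h3
  have hNP : inner ℝ N P = 1 := by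
    rw [hN, inner_add_left, real_inner_smul_left, real_inner_smul_left, inner_add_left, hPP, h1',
      h2', hl]
    ring
  have hNQ : inner ℝ N Q = 1 := by
    rw [hN, inner_add_left, real_inner_smul_left, real_inner_smul_left, inner_add_left, hQQ, h1,
      h3', hl]
    linear_combination hμD
  have hNR : inner ℝ N R = 1 := by
    rw [hN, inner_add_left, real_inner_smul_left, real_inner_smul_left, inner_add_left, hRR, h2,
      h3, hl]
    linear_combination hμD
  have hNN : ‖N‖ ^ 2 = 1 / kap ^ 2 := by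
    rw [← real_inner_self_eq_norm_sq]
    nth_rw 2 [hN]
    rw [inner_add_right, real_inner_smul_right, real_inner_smul_right, inner_add_right, hNP, hNQ,
      hNR, ← hci', hl]
    ring
  have hNn : ‖N‖ = 1 / kap := by
    have h5 : ‖N‖ ^ 2 = (1 / kap) ^ 2 := by rw [hNN]; ring
    exact (pow_left_inj₀ (norm_nonneg N) (by positivity) two_ne_zero).1 h5
  have hNx : inner ℝ N x = α + β + γ := by
    rw [h, inner_add_right, inner_add_right, real_inner_smul_right, real_inner_smul_right,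
      real_inner_smul_right, hNP, hNQ, hNR]
    ring
  have hle : α + β + γ ≤ 1 / kap := by
    rw [← hNx, ← hNn]
    calc inner ℝ N x ≤ ‖N‖ * ‖x‖ := real_inner_le_norm N x
      _ = ‖N‖ := by rw [hx, mul_one]
  have hxx : α * inner ℝ x P + β * inner ℝ x Q + γ * inner ℝ x R = 1 := by
    have h6 : inner ℝ x x = (1 : ℝ) := by rw [real_inner_self_eq_norm_sq, hx]; norm_num
    nth_rw 2 [h] at h6
    rw [inner_add_right, inner_add_right, real_inner_smul_right, real_inner_smul_right,
      real_inner_smul_right] at h6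
    exact h6
  by_contra hcon
  push Not at hcon
  obtain ⟨c1, c2, c3⟩ := hcon
  have hs : 0 < α + β + γ := by
    rcases (add_nonneg (add_nonneg ha hb) hc).lt_or_eq with h7 | h7
    · exact h7
    · exfalso
      have e1 : α = 0 := by linarith
      have e2 : β = 0 := by linarith
      have e3 : γ = 0 := by linarith
      rw [e1, e2, e3] at hxx
      norm_num at hxx
  obtain ⟨M, hM⟩ : ∃ M : ℝ, M = max (inner ℝ x P) (max (inner ℝ x Q) (inner ℝ x R)) :=
    ⟨_, rfl⟩
  have hMk : M < kap := by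
    rw [hM]
    exact max_lt c1 (max_lt c2 c3)
  have d1 : inner ℝ x P ≤ M := by rw [hM]; exact le_max_left _ _
  have d2 : inner ℝ x Q ≤ M := by rw [hM]; exact (le_max_left _ _).trans (le_max_right _ _)
  have d3 : inner ℝ x R ≤ M := by rw [hM]; exact (le_max_right _ _).trans (le_max_right _ _)
  have e1 := mul_le_mul_of_nonneg_left d1 ha
  have e2 := mul_le_mul_of_nonneg_left d2 hb
  have e3 := mul_le_mul_of_nonneg_left d3 hc
  have e4 : 1 ≤ (α + β + γ) * M := by linarith
  have e5 : (α + β + γ) * M < (α + β + γ) * kap := mul_lt_mul_of_pos_left hMk hs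
  have e6 : (α + β + γ) * kap ≤ 1 / kap * kap := mul_le_mul_of_nonneg_right hle hk.le
  have e7 : 1 / kap * kap = 1 := by field_simp
  linarith

private theorem tile_co {x : E3} (hx : ‖x‖ = 1) {p0 p1 p2 q0 q1 q2 r0 r1 r2 α β γ : ℝ}
    (hp : p0 ^ 2 + p1 ^ 2 + p2 ^ 2 = 2 + gold) (hq : q0 ^ 2 + q1 ^ 2 + q2 ^ 2 = 3)
    (hr : r0 ^ 2 + r1 ^ 2 + r2 ^ 2 = 3) (hpq : p0 * q0 + p1 * q1 + p2 * q2 = gold ^ 2)
    (hpr : p0 * r0 + p1 * r1 + p2 * r2 = gold ^ 2) (hqr : q0 * r0 + q1 * r1 + q2 * r2 = √5)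
    (ha : 0 ≤ α) (hb : 0 ≤ β) (hc : 0 ≤ γ) (h0 : x 0 = α * p0 + β * q0 + γ * r0)
    (h1 : x 1 = α * p1 + β * q1 + γ * r1) (h2 : x 2 = α * p2 + β * q2 + γ * r2) :
    kap ≤ inner ℝ x ((√(2 + gold))⁻¹ • (!₂[p0, p1, p2] : E3)) ∨
    kap ≤ inner ℝ x ((√3)⁻¹ • (!₂[q0, q1, q2] : E3)) ∨
    kap ≤ inner ℝ x ((√3)⁻¹ • (!₂[r0, r1, r2] : E3)) := by
  have hg := gold_pos
  have hw : 0 < √(2 + gold) := by positivity
  have h3 : 0 < √3 := by positivity
  have hw2 : √(2 + gold) ^ 2 = 2 + gold := Real.sq_sqrt (by linarith)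
  have h32 : √3 ^ 2 = 3 := Real.sq_sqrt (by norm_num)
  have hwi : (√(2 + gold))⁻¹ ^ 2 * (2 + gold) = 1 := by
    rw [inv_pow, hw2, inv_mul_cancel₀ (by linarith)]
  have h3i : (√3)⁻¹ ^ 2 * 3 = 1 := by
    rw [inv_pow, h32, inv_mul_cancel₀ (by norm_num)]
  refine tile_max (α := α * √(2 + gold)) (β := β * √3) (γ := γ * √3) ?_ ?_ ?_ hx ?_ ?_ ?_
    (by positivity) (by positivity) (by positivity) ?_
  · rw [norm_one_iff]
    simp only [PiLp.smul_apply, smul_eq_mul, Matrix.cons_val_zero,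
      Matrix.cons_val_one, Matrix.cons_val]
    linear_combination (√(2 + gold))⁻¹ ^ 2 * hp + hwi
  · rw [norm_one_iff]
    simp only [PiLp.smul_apply, smul_eq_mul, Matrix.cons_val_zero,
      Matrix.cons_val_one, Matrix.cons_val]
    linear_combination (√3)⁻¹ ^ 2 * hq + h3i
  · rw [norm_one_iff]
    simp only [PiLp.smul_apply, smul_eq_mul, Matrix.cons_val_zero,
      Matrix.cons_val_one, Matrix.cons_val]
    linear_combination (√3)⁻¹ ^ 2 * hr + h3i
  · rw [g56_eq, inner_eq]
    simp only [PiLp.smul_apply, smul_eq_mul, Matrix.cons_val_zero,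
      Matrix.cons_val_one, Matrix.cons_val]
    rw [← hpq]
    field_simp
  · rw [g56_eq, inner_eq]
    simp only [PiLp.smul_apply, smul_eq_mul, Matrix.cons_val_zero,
      Matrix.cons_val_one, Matrix.cons_val]
    rw [← hpr]
    field_simp
  · rw [g66_eq, inner_eq]
    simp only [PiLp.smul_apply, smul_eq_mul, Matrix.cons_val_zero,
      Matrix.cons_val_one, Matrix.cons_val]
    rw [← hqr]
    linear_combination (q0 * r0 + q1 * r1 + q2 * r2) / 3 * h3i
  · have e1 : √(2 + gold) * (√(2 + gold))⁻¹ = 1 := mul_inv_cancel₀ hw.ne'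
    have e2 : √3 * (√3)⁻¹ = 1 := mul_inv_cancel₀ h3.ne'
    apply ext3
    · simp only [PiLp.add_apply, PiLp.smul_apply, smul_eq_mul,
        Matrix.cons_val_zero, Matrix.cons_val_one, Matrix.cons_val]
      rw [h0]
      linear_combination (-(α * p0)) * e1 - (β * q0 + γ * r0) * e2
    · simp only [PiLp.add_apply, PiLp.smul_apply, smul_eq_mul,
        Matrix.cons_val_zero, Matrix.cons_val_one, Matrix.cons_val]
      rw [h1]
      linear_combination (-(α * p1)) * e1 - (β * q1 + γ * r1) * e2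
    · simp only [PiLp.add_apply, PiLp.smul_apply, smul_eq_mul,
        Matrix.cons_val_zero, Matrix.cons_val_one, Matrix.cons_val]
      rw [h2]
      linear_combination (-(α * p2)) * e1 - (β * q2 + γ * r2) * e2

private theorem inv_gold : 1 / gold = gold - 1 := by
  have hg := gold_pos
  have h := gold_sq
  rw [div_eq_iff hg.ne']
  linarith

private theorem sqrt5_eq : √5 = 2 * gold - 1 := by
  unfold gold
  ring

private theorem pt_a (k : Fin 3) :
    pt (Sum.inl (true, true, k)) = (√(2 + gold))⁻¹ • cyc k 0 1 gold := by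
  simp [pt, sg]

private theorem pt_b (k : Fin 3) :
    pt (Sum.inr (Sum.inr (true, true, k))) = (√3)⁻¹ • cyc k (gold - 1) 0 gold := by
  simp only [pt, sg, if_true, inv_gold, one_mul]

private theorem pt_b' (k : Fin 3) :
    pt (Sum.inr (Sum.inr (false, true, k))) = (√3)⁻¹ • cyc k (-(gold - 1)) 0 gold := by
  have : (-1 : ℝ) / gold = -(gold - 1) := by
    rw [← inv_gold]
    ring
  simp [pt, sg, this]

private theorem pt_c : pt (Sum.inr (Sum.inl (true, true, true))) = (√3)⁻¹ • cyc 0 1 1 1 := by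
  simp [pt, sg]

/-- the octant. Write `f` for `gold` (`1/f = f - 1`, `f^2 = f + 1`), `x = (X, Y, Z) ≥ 0`,
`a0 = (0,1,f)`, `a1 = (f,0,1)`, `a2 = (1,f,0)`, `b0 = (1/f,0,f)`, `b0' = (-1/f,0,f)`,
`b1 = (f,1/f,0)`, `b2 = (0,f,1/f)`, `c = (1,1,1)` (unnormalised points `pt`).

PROOF. Case A: `f X + Y ≤ Z/f`. Then `x = Y a0 + β b0 + γ b0'` with
`β = (Z/f - Y + f X)/2 ≥ 0`, `γ = (Z/f - Y - f X)/2 ≥ 0`: use `tile_max`. The same for the cyclic
images (`f Y + Z ≤ X/f`: points `a1`, `b1`, `(f,-1/f,0)`; `f Z + X ≤ Y/f`: points `a2`, `b2`,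
`(0,f,-1/f)`).
Case B: otherwise `e0 = f X + Y - Z/f > 0`, `e1 = f Y + Z - X/f > 0`, `e2 = f Z + X - Y/f > 0`. Let
`m1 = f X - Y - Z/f`, `m2 = -X/f + f Y - Z`, `m3 = -X - Y/f + f Z`; `m1 + m2 + m3 = 0`. So two of
them are `≥ 0` or two of them are `≤ 0`.
If `m1, m3 ≥ 0`: `x = (m1/2) a1 + (m3/2) b0 + Y c`.
If `m1, m2 ≥ 0`: `x = (m2/2) a2 + (m1/2) b1 + Z c`.
If `m2, m3 ≥ 0`: `x = (m3/2) a0 + (m2/2) b2 + X c`.
If `m1, m2 ≤ 0`: `x = (-m1/2) a0 + (-m2/2) b0 + (e0/2) c`.
If `m2, m3 ≤ 0`: `x = (-m2/2) a1 + (-m3/2) b1 + (e1/2) c`.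
If `m3, m1 ≤ 0`: `x = (-m3/2) a2 + (-m1/2) b2 + (e2/2) c`.
In each case `tile_max` with the normalised points (`g56_eq`, `g66_eq` for the inner products). -/
theorem octant (x : E3) (hx : ‖x‖ = 1) (h0 : 0 ≤ x 0) (h1 : 0 ≤ x 1) (h2 : 0 ≤ x 2) :
    ∃ s, kap ≤ inner ℝ x (pt s) := by
  have hg := gold_sq
  have hgp := gold_pos
  obtain ⟨m1, hm1⟩ : ∃ m1 : ℝ, m1 = gold * x 0 - x 1 - (gold - 1) * x 2 := ⟨_, rfl⟩
  obtain ⟨m2, hm2⟩ : ∃ m2 : ℝ, m2 = -(gold - 1) * x 0 + gold * x 1 - x 2 := ⟨_, rfl⟩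
  obtain ⟨m3, hm3⟩ : ∃ m3 : ℝ, m3 = -x 0 - (gold - 1) * x 1 + gold * x 2 := ⟨_, rfl⟩
  obtain ⟨e0, he0⟩ : ∃ e0 : ℝ, e0 = gold * x 0 + x 1 - (gold - 1) * x 2 := ⟨_, rfl⟩
  obtain ⟨e1, he1⟩ : ∃ e1 : ℝ, e1 = gold * x 1 + x 2 - (gold - 1) * x 0 := ⟨_, rfl⟩
  obtain ⟨e2, he2⟩ : ∃ e2 : ℝ, e2 = gold * x 2 + x 0 - (gold - 1) * x 1 := ⟨_, rfl⟩
  have hsum : m1 + m2 + m3 = 0 := by
    rw [hm1, hm2, hm3]
    ring
  have caseA0 : 0 ≤ x 1 → 0 ≤ ((gold - 1) * x 2 - x 1 + gold * x 0) / 2 →
      0 ≤ ((gold - 1) * x 2 - x 1 - gold * x 0) / 2 →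
      ∃ s, kap ≤ inner ℝ x (pt s) := by
    intro t1 t2 t3
    rcases tile_co hx (p0 := 0) (p1 := 1) (p2 := gold) (q0 := gold - 1)
      (q1 := 0) (q2 := gold) (r0 := -(gold - 1)) (r1 := 0) (r2 := gold)
      (by linear_combination hg) (by subst_vars; linear_combination ((2)) * hg)
        (by subst_vars; linear_combination ((2)) * hg) (by subst_vars; ring) (by subst_vars; ring)
      (by rw [sqrt5_eq]; linear_combination (0) * hg) t1 t2 t3
      (by subst_vars; linear_combination ((-1) * x 0) * hg) (by subst_vars; ring)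
      (by subst_vars; linear_combination ((-1) * x 2) * hg) with h | h | h
    · exact ⟨Sum.inl (true, true, 0), by rw [pt_a]; exact h⟩
    · exact ⟨Sum.inr (Sum.inr (true, true, 0)), by rw [pt_b]; exact h⟩
    · exact ⟨Sum.inr (Sum.inr (false, true, 0)), by rw [pt_b']; exact h⟩
  have caseA1 : 0 ≤ x 2 → 0 ≤ ((gold - 1) * x 0 - x 2 + gold * x 1) / 2 →
      0 ≤ ((gold - 1) * x 0 - x 2 - gold * x 1) / 2 →
      ∃ s, kap ≤ inner ℝ x (pt s) := by
    intro t1 t2 t3
    rcases tile_co hx (p0 := gold) (p1 := 0) (p2 := 1) (q0 := gold)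
      (q1 := gold - 1) (q2 := 0) (r0 := gold) (r1 := -(gold - 1)) (r2 := 0)
      (by linear_combination hg) (by subst_vars; linear_combination ((2)) * hg)
        (by subst_vars; linear_combination ((2)) * hg) (by subst_vars; ring) (by subst_vars; ring)
      (by rw [sqrt5_eq]; linear_combination (0) * hg) t1 t2 t3
      (by subst_vars; linear_combination ((-1) * x 0) * hg)
        (by subst_vars; linear_combination ((-1) * x 1) * hg)
      (by subst_vars; ring) with h | h | h
    · exact ⟨Sum.inl (true, true, 1), by rw [pt_a]; exact h⟩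
    · exact ⟨Sum.inr (Sum.inr (true, true, 1)), by rw [pt_b]; exact h⟩
    · exact ⟨Sum.inr (Sum.inr (false, true, 1)), by rw [pt_b']; exact h⟩
  have caseA2 : 0 ≤ x 0 → 0 ≤ ((gold - 1) * x 1 - x 0 + gold * x 2) / 2 →
      0 ≤ ((gold - 1) * x 1 - x 0 - gold * x 2) / 2 →
      ∃ s, kap ≤ inner ℝ x (pt s) := by
    intro t1 t2 t3
    rcases tile_co hx (p0 := 1) (p1 := gold) (p2 := 0) (q0 := 0)
      (q1 := gold) (q2 := gold - 1) (r0 := 0) (r1 := gold) (r2 := -(gold - 1))
      (by linear_combination hg) (by subst_vars; linear_combination ((2)) * hg)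
        (by subst_vars; linear_combination ((2)) * hg) (by subst_vars; ring) (by subst_vars; ring)
      (by rw [sqrt5_eq]; linear_combination (0) * hg) t1 t2 t3
      (by subst_vars; ring) (by subst_vars; linear_combination ((-1) * x 1) * hg)
      (by subst_vars; linear_combination ((-1) * x 2) * hg) with h | h | h
    · exact ⟨Sum.inl (true, true, 2), by rw [pt_a]; exact h⟩
    · exact ⟨Sum.inr (Sum.inr (true, true, 2)), by rw [pt_b]; exact h⟩
    · exact ⟨Sum.inr (Sum.inr (false, true, 2)), by rw [pt_b']; exact h⟩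
  have caseB13 : 0 ≤ m1 / 2 → 0 ≤ m3 / 2 → 0 ≤ x 1 →
      ∃ s, kap ≤ inner ℝ x (pt s) := by
    intro t1 t2 t3
    rcases tile_co hx (p0 := gold) (p1 := 0) (p2 := 1) (q0 := gold - 1)
      (q1 := 0) (q2 := gold) (r0 := 1) (r1 := 1) (r2 := 1)
      (by linear_combination hg) (by subst_vars; linear_combination ((2)) * hg)
        (by subst_vars; ring) (by subst_vars; ring)
        (by subst_vars; linear_combination ((-1)) * hg)
      (by rw [sqrt5_eq]; linear_combination (0) * hg) t1 t2 t3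
      (by subst_vars; linear_combination ((-1/2) * x 0 + (1/2) * x 1) * hg) (by subst_vars; ring)
      (by subst_vars; linear_combination ((-1/2) * x 2 + (1/2) * x 1) * hg) with h | h | h
    · exact ⟨Sum.inl (true, true, 1), by rw [pt_a]; exact h⟩
    · exact ⟨Sum.inr (Sum.inr (true, true, 0)), by rw [pt_b]; exact h⟩
    · exact ⟨Sum.inr (Sum.inl (true, true, true)), by rw [pt_c]; exact h⟩
  have caseB12 : 0 ≤ m2 / 2 → 0 ≤ m1 / 2 → 0 ≤ x 2 →
      ∃ s, kap ≤ inner ℝ x (pt s) := by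
    intro t1 t2 t3
    rcases tile_co hx (p0 := 1) (p1 := gold) (p2 := 0) (q0 := gold)
      (q1 := gold - 1) (q2 := 0) (r0 := 1) (r1 := 1) (r2 := 1)
      (by linear_combination hg) (by subst_vars; linear_combination ((2)) * hg)
        (by subst_vars; ring) (by subst_vars; ring)
        (by subst_vars; linear_combination ((-1)) * hg)
      (by rw [sqrt5_eq]; linear_combination (0) * hg) t1 t2 t3
      (by subst_vars; linear_combination ((-1/2) * x 0 + (1/2) * x 2) * hg)
        (by subst_vars; linear_combination ((-1/2) * x 1 + (1/2) * x 2) * hg)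
      (by subst_vars; ring) with h | h | h
    · exact ⟨Sum.inl (true, true, 2), by rw [pt_a]; exact h⟩
    · exact ⟨Sum.inr (Sum.inr (true, true, 1)), by rw [pt_b]; exact h⟩
    · exact ⟨Sum.inr (Sum.inl (true, true, true)), by rw [pt_c]; exact h⟩
  have caseB23 : 0 ≤ m3 / 2 → 0 ≤ m2 / 2 → 0 ≤ x 0 →
      ∃ s, kap ≤ inner ℝ x (pt s) := by
    intro t1 t2 t3
    rcases tile_co hx (p0 := 0) (p1 := 1) (p2 := gold) (q0 := 0)
      (q1 := gold) (q2 := gold - 1) (r0 := 1) (r1 := 1) (r2 := 1)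
      (by linear_combination hg) (by subst_vars; linear_combination ((2)) * hg)
        (by subst_vars; ring) (by subst_vars; ring)
        (by subst_vars; linear_combination ((-1)) * hg)
      (by rw [sqrt5_eq]; linear_combination (0) * hg) t1 t2 t3
      (by subst_vars; ring) (by subst_vars; linear_combination ((-1/2) * x 1 + (1/2) * x 0) * hg)
      (by subst_vars; linear_combination ((-1/2) * x 2 + (1/2) * x 0) * hg) with h | h | h
    · exact ⟨Sum.inl (true, true, 0), by rw [pt_a]; exact h⟩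
    · exact ⟨Sum.inr (Sum.inr (true, true, 2)), by rw [pt_b]; exact h⟩
    · exact ⟨Sum.inr (Sum.inl (true, true, true)), by rw [pt_c]; exact h⟩
  have caseC12 : 0 ≤ -m1 / 2 → 0 ≤ -m2 / 2 → 0 ≤ e0 / 2 →
      ∃ s, kap ≤ inner ℝ x (pt s) := by
    intro t1 t2 t3
    rcases tile_co hx (p0 := 0) (p1 := 1) (p2 := gold) (q0 := gold - 1)
      (q1 := 0) (q2 := gold) (r0 := 1) (r1 := 1) (r2 := 1)
      (by linear_combination hg) (by subst_vars; linear_combination ((2)) * hg)
        (by subst_vars; ring) (by subst_vars; ring)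
        (by subst_vars; linear_combination ((-1)) * hg)
      (by rw [sqrt5_eq]; linear_combination (0) * hg) t1 t2 t3
      (by subst_vars; linear_combination ((1/2) * x 1 + (-1/2) * x 0) * hg) (by subst_vars; ring)
      (by subst_vars; linear_combination ((-1/2) * x 2 + (1/2) * x 1) * hg) with h | h | h
    · exact ⟨Sum.inl (true, true, 0), by rw [pt_a]; exact h⟩
    · exact ⟨Sum.inr (Sum.inr (true, true, 0)), by rw [pt_b]; exact h⟩
    · exact ⟨Sum.inr (Sum.inl (true, true, true)), by rw [pt_c]; exact h⟩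
  have caseC23 : 0 ≤ -m2 / 2 → 0 ≤ -m3 / 2 → 0 ≤ e1 / 2 →
      ∃ s, kap ≤ inner ℝ x (pt s) := by
    intro t1 t2 t3
    rcases tile_co hx (p0 := gold) (p1 := 0) (p2 := 1) (q0 := gold)
      (q1 := gold - 1) (q2 := 0) (r0 := 1) (r1 := 1) (r2 := 1)
      (by linear_combination hg) (by subst_vars; linear_combination ((2)) * hg)
        (by subst_vars; ring) (by subst_vars; ring)
        (by subst_vars; linear_combination ((-1)) * hg)
      (by rw [sqrt5_eq]; linear_combination (0) * hg) t1 t2 t3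
      (by subst_vars; linear_combination ((-1/2) * x 0 + (1/2) * x 2) * hg)
        (by subst_vars; linear_combination ((1/2) * x 2 + (-1/2) * x 1) * hg)
      (by subst_vars; ring) with h | h | h
    · exact ⟨Sum.inl (true, true, 1), by rw [pt_a]; exact h⟩
    · exact ⟨Sum.inr (Sum.inr (true, true, 1)), by rw [pt_b]; exact h⟩
    · exact ⟨Sum.inr (Sum.inl (true, true, true)), by rw [pt_c]; exact h⟩
  have caseC31 : 0 ≤ -m3 / 2 → 0 ≤ -m1 / 2 → 0 ≤ e2 / 2 →
      ∃ s, kap ≤ inner ℝ x (pt s) := by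
    intro t1 t2 t3
    rcases tile_co hx (p0 := 1) (p1 := gold) (p2 := 0) (q0 := 0)
      (q1 := gold) (q2 := gold - 1) (r0 := 1) (r1 := 1) (r2 := 1)
      (by linear_combination hg) (by subst_vars; linear_combination ((2)) * hg)
        (by subst_vars; ring) (by subst_vars; ring)
        (by subst_vars; linear_combination ((-1)) * hg)
      (by rw [sqrt5_eq]; linear_combination (0) * hg) t1 t2 t3
      (by subst_vars; ring) (by subst_vars; linear_combination ((-1/2) * x 1 + (1/2) * x 0) * hg)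
      (by subst_vars; linear_combination ((1/2) * x 0 + (-1/2) * x 2) * hg) with h | h | h
    · exact ⟨Sum.inl (true, true, 2), by rw [pt_a]; exact h⟩
    · exact ⟨Sum.inr (Sum.inr (true, true, 2)), by rw [pt_b]; exact h⟩
    · exact ⟨Sum.inr (Sum.inl (true, true, true)), by rw [pt_c]; exact h⟩
  have X1 : 0 ≤ gold * x 0 := mul_nonneg hgp.le h0
  have Y1 : 0 ≤ gold * x 1 := mul_nonneg hgp.le h1
  have Z1 : 0 ≤ gold * x 2 := mul_nonneg hgp.le h2
  rcases le_or_gt e0 0 with k0 | k0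
  · exact caseA0 h1 (by linarith) (by linarith)
  rcases le_or_gt e1 0 with k1 | k1
  · exact caseA1 h2 (by linarith) (by linarith)
  rcases le_or_gt e2 0 with k2 | k2
  · exact caseA2 h0 (by linarith) (by linarith)
  rcases le_total 0 m1 with s1 | s1 <;> rcases le_total 0 m2 with s2 | s2 <;>
    rcases le_total 0 m3 with s3 | s3
  · exact caseB12 (by linarith) (by linarith) h2
  · exact caseB12 (by linarith) (by linarith) h2
  · exact caseB13 (by linarith) (by linarith) h1
  · exact caseC23 (by linarith) (by linarith) (by linarith)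
  · exact caseB23 (by linarith) (by linarith) h0
  · exact caseC31 (by linarith) (by linarith) (by linarith)
  · exact caseC12 (by linarith) (by linarith) (by linarith)
  · exact caseC12 (by linarith) (by linarith) (by linarith)

private theorem sgn_le (a : ℝ) (s : Bool) : |a| * sg s ≤ a * sg (decide (0 ≤ a)) := by
  have h1 : a * sg (decide (0 ≤ a)) = |a| := by
    by_cases h : 0 ≤ a
    · rw [decide_eq_true h, abs_of_nonneg h]
      simp [sg]
    · rw [decide_eq_false h, abs_of_neg (not_le.1 h)]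
      simp [sg]
  rw [h1]
  have h2 := abs_nonneg a
  cases s
  · simp only [sg]
    norm_num
  · simp [sg]

private theorem inner_cyc0 (x : E3) (c a b d : ℝ) :
    inner ℝ x (c • cyc 0 a b d) = c * (x 0 * a + x 1 * b + x 2 * d) := by
  rw [inner_eq]
  simp only [cyc, PiLp.smul_apply, smul_eq_mul, Matrix.cons_val_zero,
    Matrix.cons_val_one, Matrix.cons_val]
  ring

private theorem inner_cyc1 (x : E3) (c a b d : ℝ) :
    inner ℝ x (c • cyc 1 a b d) = c * (x 0 * d + x 1 * a + x 2 * b) := by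
  rw [inner_eq]
  simp only [cyc, PiLp.smul_apply, smul_eq_mul, Matrix.cons_val_zero,
    Matrix.cons_val_one, Matrix.cons_val]
  ring

private theorem inner_cyc2 (x : E3) (c a b d : ℝ) :
    inner ℝ x (c • cyc 2 a b d) = c * (x 0 * b + x 1 * d + x 2 * a) := by
  rw [inner_eq]
  simp only [cyc, PiLp.smul_apply, smul_eq_mul, Matrix.cons_val_zero,
    Matrix.cons_val_one, Matrix.cons_val]
  ring

/-- PROOF. Apply `octant` to `(|x 0|, |x 1|, |x 2|)`; the set of the points `pt s` is invariant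
under changing the signs of coordinates (for `s` given and signs `ε`, there is `s'` with
`inner x (pt s') ≥ ...`: choose the signs of the nonzero coordinates of `pt s'` such that
`x i * pt s' i = |x i| * |pt s i| ≥ |x i| * pt s i`). -/
theorem ico_covers (x : E3) (hx : ‖x‖ = 1) : ∃ s, kap ≤ inner ℝ x (pt s) := by
  have hy : ‖(!₂[|x 0|, |x 1|, |x 2|] : E3)‖ = 1 := by
    rw [norm_one_iff] at hx ⊢
    simp only [Matrix.cons_val_zero, Matrix.cons_val_one, Matrix.cons_val,
      sq_abs]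
    exact hx
  obtain ⟨s, hs⟩ := octant !₂[|x 0|, |x 1|, |x 2|] hy (by simp) (by simp) (by simp)
  have hg := gold_pos
  have hw : 0 ≤ (√(2 + gold))⁻¹ := by positivity
  have h3 : 0 ≤ (√3)⁻¹ := by positivity
  have S0 := sgn_le (x 0)
  have S1 := sgn_le (x 1)
  have S2 := sgn_le (x 2)
  have T : ∀ (a b : ℝ), a ≤ b → a * gold ≤ b * gold := fun a b h =>
    mul_le_mul_of_nonneg_right h hg.le
  have T' : ∀ (a b c d : ℝ), a * b ≤ c * d → a * (b / gold) ≤ c * (d / gold) := by
    intro a b c d h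
    rw [← mul_div_assoc, ← mul_div_assoc]
    exact div_le_div_of_nonneg_right h hg.le
  have key : ∃ s', inner ℝ (!₂[|x 0|, |x 1|, |x 2|] : E3) (pt s) ≤ inner ℝ x (pt s') := by
    rcases s with ⟨s, t, k⟩ | ⟨s, t, u⟩ | ⟨s, t, k⟩
    · match k with
      | 0 =>
        refine ⟨Sum.inl (decide (0 ≤ x 1), decide (0 ≤ x 2), 0), ?_⟩
        simp only [pt]
        rw [inner_cyc0, inner_cyc0]
        refine mul_le_mul_of_nonneg_left ?_ hw
        simp only [Matrix.cons_val_zero, Matrix.cons_val_one, Matrix.cons_val]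
        have := S1 s
        have := T _ _ (S2 t)
        linarith
      | 1 =>
        refine ⟨Sum.inl (decide (0 ≤ x 2), decide (0 ≤ x 0), 1), ?_⟩
        simp only [pt]
        rw [inner_cyc1, inner_cyc1]
        refine mul_le_mul_of_nonneg_left ?_ hw
        simp only [Matrix.cons_val_zero, Matrix.cons_val_one, Matrix.cons_val]
        have := S2 s
        have := T _ _ (S0 t)
        linarith
      | 2 =>
        refine ⟨Sum.inl (decide (0 ≤ x 0), decide (0 ≤ x 1), 2), ?_⟩
        simp only [pt]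
        rw [inner_cyc2, inner_cyc2]
        refine mul_le_mul_of_nonneg_left ?_ hw
        simp only [Matrix.cons_val_zero, Matrix.cons_val_one, Matrix.cons_val]
        have := S0 s
        have := T _ _ (S1 t)
        linarith
    · refine ⟨Sum.inr (Sum.inl (decide (0 ≤ x 0), decide (0 ≤ x 1), decide (0 ≤ x 2))), ?_⟩
      simp only [pt]
      rw [inner_cyc0, inner_cyc0]
      refine mul_le_mul_of_nonneg_left ?_ h3
      simp only [Matrix.cons_val_zero, Matrix.cons_val_one, Matrix.cons_val]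
      have := S0 s
      have := S1 t
      have := S2 u
      linarith
    · match k with
      | 0 =>
        refine ⟨Sum.inr (Sum.inr (decide (0 ≤ x 0), decide (0 ≤ x 2), 0)), ?_⟩
        simp only [pt]
        rw [inner_cyc0, inner_cyc0]
        refine mul_le_mul_of_nonneg_left ?_ h3
        simp only [Matrix.cons_val_zero, Matrix.cons_val_one, Matrix.cons_val]
        have := T' _ _ _ _ (S0 s)
        have := T _ _ (S2 t)
        linarith
      | 1 =>
        refine ⟨Sum.inr (Sum.inr (decide (0 ≤ x 1), decide (0 ≤ x 0), 1)), ?_⟩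
        simp only [pt]
        rw [inner_cyc1, inner_cyc1]
        refine mul_le_mul_of_nonneg_left ?_ h3
        simp only [Matrix.cons_val_zero, Matrix.cons_val_one, Matrix.cons_val]
        have := T' _ _ _ _ (S1 s)
        have := T _ _ (S0 t)
        linarith
      | 2 =>
        refine ⟨Sum.inr (Sum.inr (decide (0 ≤ x 2), decide (0 ≤ x 1), 2)), ?_⟩
        simp only [pt]
        rw [inner_cyc2, inner_cyc2]
        refine mul_le_mul_of_nonneg_left ?_ h3
        simp only [Matrix.cons_val_zero, Matrix.cons_val_one, Matrix.cons_val]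
        have := T' _ _ _ _ (S2 s)
        have := T _ _ (S1 t)
        linarith
  obtain ⟨s', hs'⟩ := key
  exact ⟨s', hs.trans hs'⟩

end Pool.Agent.C32
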