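import Mathlib

/-! # Project C32 (MP_488b8a_co): the covering of the sphere by 32 equal caps. Definitions.

Text: /team-store/R18_488b8a_co_helper49.md. -/

set_option autoImplicit false

namespace Pool.Agent.C32

open Real

noncomputable section

abbrev E3 := EuclideanSpace ℝ (Fin 3)

/-- the cosine of the radius `r_32` -/
def kap : ℝ := 1 / √(10 - √5 - √(30 + 6 * √5))

/-- `φ_c(z)`, the argument of `c sin z + i cos z`; it is `arctan (cot z / c)` for `0 < z < π`,
`π/2` at `0` and `-π/2` at `π` -/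
def ph (c z : ℝ) : ℝ := Complex.arg ⟨c * sin z, cos z⟩

/-- minus the derivative of `φ_c` -/
def dph (c z : ℝ) : ℝ := c / (cos z ^ 2 + c ^ 2 * sin z ^ 2)

/-- the price of the label `5` -/
def P5 : ℝ :=
  2 * (1 - (1 - kap ^ 2) * sin (2 * π / 15) ^ 2) / (1 - (1 - kap ^ 2) * sin (π / 5) ^ 2) - 1

def bb : ℝ := 323 / 50

/-- price of a label (`true` is the label `5`, `false` is the label `6`) -/
def PP (l : Bool) : ℝ := if l then P5 else 1

/-- value of a label -/
def LL (l : Bool) : ℝ := if l then 5 else 6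

/-- right side of the local inequality -/
def RR (l₁ l₂ l₃ : Bool) : ℝ :=
  8 / 15 * bb + (2 * π * PP l₁ - bb) / LL l₁ + (2 * π * PP l₂ - bb) / LL l₂ +
    (2 * π * PP l₃ - bb) / LL l₃

/-- left side of the local inequality; `a`, `b`, `d` are the half gaps of the sides `12`, `23`,
`31` of the triangle -/
def FF (c a b d : ℝ) (l₁ l₂ l₃ : Bool) : ℝ :=
  (PP l₁ + PP l₂) * ph c a + (PP l₂ + PP l₃) * ph c b + (PP l₃ + PP l₁) * ph c d

/-- half gap of the sides `56` of the tight triangle -/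
def z1 : ℝ := arctan (1 / (kap * tan (π / 5)))

/-- half gap of the side `66` of the tight triangle -/
def z2 : ℝ := π - 2 * z1

/-- the tight triangles -/
def Tight (c a b d : ℝ) (l₁ l₂ l₃ : Bool) : Prop :=
  c = kap ∧ ((l₁ = true ∧ l₂ = false ∧ l₃ = false ∧ a = z1 ∧ b = z2 ∧ d = z1) ∨
    (l₁ = false ∧ l₂ = true ∧ l₃ = false ∧ a = z1 ∧ b = z1 ∧ d = z2) ∨
    (l₁ = false ∧ l₂ = false ∧ l₃ = true ∧ a = z2 ∧ b = z1 ∧ d = z1))

/-- projection to the orthogonal complement of the unit vector `p` -/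
def pr (p q : E3) : E3 := q - inner ℝ p q • p

/-- the angle at `p` of the spherical triangle `p q w` -/
def ang (p q w : E3) : ℝ := InnerProductGeometry.angle (pr p q) (pr p w)

/-- inner product of two points of a circle of angular radius `arccos c` with half gap `z` -/
def gram (c z : ℝ) : ℝ := 1 - 2 * (1 - c ^ 2) * sin z ^ 2

/-- the spherical caps of radius `arccos κ` about the `p l` cover the sphere -/
def Covers {n : ℕ} (p : Fin n → E3) (κ : ℝ) : Prop :=
  ∀ x : E3, ‖x‖ = 1 → ∃ l, κ ≤ inner ℝ x (p l)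

/-- distinct unit vectors, no four on a plane not through the origin -/
def Gen {n : ℕ} (p : Fin n → E3) : Prop :=
  (∀ i, ‖p i‖ = 1) ∧ Function.Injective p ∧ ∀ N : E3, ∀ i j k l : Fin n,
    i ≠ j → i ≠ k → i ≠ l → j ≠ k → j ≠ l → k ≠ l →
      ¬ (inner ℝ N (p i) = 1 ∧ inner ℝ N (p j) = 1 ∧ inner ℝ N (p k) = 1 ∧ inner ℝ N (p l) = 1)

/-- determinant of three vectors -/
def dt (x y z : E3) : ℝ :=
  x 0 * (y 1 * z 2 - y 2 * z 1) - x 1 * (y 0 * z 2 - y 2 * z 0) + x 2 * (y 0 * z 1 - y 1 * z 0)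

/-- vector product -/
def vx (x y : E3) : E3 :=
  !₂[x 1 * y 2 - x 2 * y 1, x 2 * y 0 - x 0 * y 2, x 0 * y 1 - x 1 * y 0]

/-- `u` lies in the closed sector at `p` of the triangle `p q w`
(that is `u = λ p + α q + β w`, `α ≥ 0`, `β ≥ 0`, if `dt p q w ≠ 0`) -/
def InS (p q w u : E3) : Prop := 0 ≤ dt p q w * dt p u w ∧ 0 ≤ dt p q w * dt p q u

/-- `u` lies in the open sector at `p` of the triangle `p q w` -/
def InO (p q w u : E3) : Prop := 0 < dt p q w * dt p u w ∧ 0 < dt p q w * dt p q u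

/-- `u` lies in the closed cone of `p`, `q`, `w` -/
def InC (p q w u : E3) : Prop :=
  0 ≤ dt p q w * dt u q w ∧ 0 ≤ dt p q w * dt p u w ∧ 0 ≤ dt p q w * dt p q u

/-- (ordered) facets of the convex hull -/
def Facet {n : ℕ} (p : Fin n → E3) (t : Fin n × Fin n × Fin n) : Prop :=
  dt (p t.1) (p t.2.1) (p t.2.2) ≠ 0 ∧
    ∃ N : E3, inner ℝ N (p t.1) = 1 ∧ inner ℝ N (p t.2.1) = 1 ∧ inner ℝ N (p t.2.2) = 1 ∧
      ∀ l, l ≠ t.1 → l ≠ t.2.1 → l ≠ t.2.2 → inner ℝ N (p l) < 1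

def facets {n : ℕ} (p : Fin n → E3) : Finset (Fin n × Fin n × Fin n) := by
  classical exact Finset.univ.filter (Facet p)

/-- twice the degree of a vertex -/
def deg2 {n : ℕ} (p : Fin n → E3) (i : Fin n) : ℕ :=
  ((facets p).filter (fun t => t.1 = i)).card

/-- label of a vertex: `true` (that is `5`) if the degree is at most `5` -/
def lab {n : ℕ} (p : Fin n → E3) (i : Fin n) : Bool := decide (deg2 p i ≤ 10)

/-- parameters of a triangle: `c` is the cosine of the circumradius, `a`, `b`, `d` the half gaps of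
the sides `12`, `23`, `31` -/
def Par (p q w : E3) (c a b d : ℝ) : Prop :=
  0 < c ∧ c < 1 ∧ 0 < a ∧ 0 < b ∧ 0 < d ∧ a + b + d = π ∧
    inner ℝ p q = gram c a ∧ inner ℝ q w = gram c b ∧ inner ℝ w p = gram c d

/-- the golden ratio -/
def gold : ℝ := (1 + √5) / 2

def sg (s : Bool) : ℝ := if s then 1 else -1

/-- cyclic shifts of a vector -/
def cyc (k : Fin 3) (x y z : ℝ) : E3 :=
  match k with
  | 0 => !₂[x, y, z]
  | 1 => !₂[z, x, y]
  | 2 => !₂[y, z, x]

/-- the 32 centres: 12 vertices of an icosahedron, 8 + 12 vertices of the dual dodecahedron -/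
def pt : (Bool × Bool × Fin 3) ⊕ (Bool × Bool × Bool) ⊕ (Bool × Bool × Fin 3) → E3
  | Sum.inl (s, t, k) => (√(2 + gold))⁻¹ • cyc k 0 (sg s) (sg t * gold)
  | Sum.inr (Sum.inl (s, t, u)) => (√3)⁻¹ • cyc 0 (sg s) (sg t) (sg u)
  | Sum.inr (Sum.inr (s, t, k)) => (√3)⁻¹ • cyc k (sg s / gold) 0 (sg t * gold)

/-- inner products of neighbours in the tight triangle -/
def g56 : ℝ := gram kap z1
def g66 : ℝ := gram kap z2

def GG (l l' : Bool) : ℝ := if l || l' then g56 else g66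

/-- the structure of the facets in the limit of generic perturbations of an optimal covering -/
structure Tiling (p : Fin 32 → E3) (lb : Fin 32 → Bool)
    (T : Finset (Fin 32 × Fin 32 × Fin 32)) : Prop where
  unit : ∀ i, ‖p i‖ = 1
  perm1 : ∀ i j k, (i, j, k) ∈ T → (j, i, k) ∈ T
  perm2 : ∀ i j k, (i, j, k) ∈ T → (j, k, i) ∈ T
  one : ∀ i j k, (i, j, k) ∈ T → (lb i = true ∧ lb j = false ∧ lb k = false) ∨
    (lb i = false ∧ lb j = true ∧ lb k = false) ∨ (lb i = false ∧ lb j = false ∧ lb k = true)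
  dist : ∀ i j k, (i, j, k) ∈ T → inner ℝ (p i) (p j) = GG (lb i) (lb j)
  supp : ∀ i j k, (i, j, k) ∈ T → ∃ N : E3, inner ℝ N (p i) = 1 ∧ inner ℝ N (p j) = 1 ∧
    inner ℝ N (p k) = 1 ∧ ∀ l, inner ℝ N (p l) ≤ 1
  cover : ∀ i (u : E3), ∃ j k, (i, j, k) ∈ T ∧ InS (p i) (p j) (p k) u
  nonov : ∀ i j k j' k' (u : E3), (i, j, k) ∈ T → (i, j', k') ∈ T → InO (p i) (p j) (p k) u →
    InO (p i) (p j') (p k') u → (j = j' ∧ k = k') ∨ (j = k' ∧ k = j')
  ne : T.Nonempty

/-- the least common angular radius of `n` closed caps covering the unit sphere of `ℝ³` -/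
def capRadius (n : ℕ) : ℝ :=
  sInf {r : ℝ | 0 ≤ r ∧ ∃ p : Fin n → EuclideanSpace ℝ (Fin 3), (∀ i, ‖p i‖ = 1) ∧
    ∀ x : EuclideanSpace ℝ (Fin 3), ‖x‖ = 1 → ∃ i, InnerProductGeometry.angle x (p i) ≤ r}

end

end Pool.Agent.C32
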