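import Pool.Agent.Lib.MP_488b8a_co_W.Pln

/-! # Project C32, module Fac: elementary facts on facets -/

set_option autoImplicit false

namespace Pool.Agent.C32

open Real

variable {n : ℕ}

theorem mem_facets (p : Fin n → E3) (t : Fin n × Fin n × Fin n) :
    t ∈ facets p ↔ Facet p t := by
  classical
  unfold facets
  rw [Finset.mem_filter]
  exact ⟨fun h => h.2, fun h => ⟨Finset.mem_univ _, h⟩⟩

/-- PROOF. `dt_self12` etc. -/
theorem facet_ne {p : Fin n → E3} {i j k : Fin n} (h : Facet p (i, j, k)) :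
    i ≠ j ∧ j ≠ k ∧ i ≠ k := by
  refine ⟨?_, ?_, ?_⟩
  · rintro rfl
    exact h.1 (dt_self12 _ _)
  · rintro rfl
    exact h.1 (dt_self23 _ _)
  · rintro rfl
    exact h.1 (dt_self13 _ _)

theorem facet_perm1 {p : Fin n → E3} {i j k : Fin n} (h : Facet p (i, j, k)) :
    Facet p (j, i, k) := by
  obtain ⟨hd, N, h1, h2, h3, h4⟩ := h
  refine ⟨?_, N, h2, h1, h3, fun l hl1 hl2 hl3 => h4 l hl2 hl1 hl3⟩
  show dt (p j) (p i) (p k) ≠ 0
  rw [dt_swap]
  exact neg_ne_zero.2 hd

theorem facet_perm2 {p : Fin n → E3} {i j k : Fin n} (h : Facet p (i, j, k)) :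
    Facet p (j, k, i) := by
  obtain ⟨hd, N, h1, h2, h3, h4⟩ := h
  refine ⟨?_, N, h2, h3, h1, fun l hl1 hl2 hl3 => h4 l hl3 hl1 hl2⟩
  show dt (p j) (p k) (p i) ≠ 0
  rw [dt_rot]
  exact hd

/-- PROOF. `(i, j, k) ↦ (i, k, j)` is an involution without fixed points
(`Finset.card_involution`, `Finset.sum_involution` in `ZMod 2`, or: the set is the disjoint union
of `{t | t.2.1 < t.2.2}` and `{t | t.2.2 < t.2.1}`, which have the same cardinality
(`Finset.card_bij`)). -/
theorem deg2_even (p : Fin n → E3) (i : Fin n) : Even (deg2 p i) := by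
  classical
  have hmem : ∀ t : Fin n × Fin n × Fin n, t ∈ (facets p).filter (fun t => t.1 = i) →
      (t.1, t.2.2, t.2.1) ∈ (facets p).filter (fun t => t.1 = i) := by
    rintro ⟨a, b, c⟩ h
    rw [Finset.mem_filter, mem_facets] at h ⊢
    exact ⟨facet_perm1 (facet_perm2 (facet_perm2 h.1)), h.2⟩
  have h1 : ∑ t ∈ (facets p).filter (fun t => t.1 = i), (1 : ZMod 2) = 0 := by
    refine Finset.sum_involution (fun t _ => (t.1, t.2.2, t.2.1)) (fun t _ => by decide)
      (fun t ht _ hEq => ?_) (fun t ht => hmem t ht) (fun t _ => rfl)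
    obtain ⟨a, b, c⟩ := t
    rw [Finset.mem_filter, mem_facets] at ht
    have h2 := (facet_ne ht.1).2.1
    simp only [Prod.mk.injEq] at hEq
    exact h2 hEq.2.2
  rw [Finset.sum_const, nsmul_eq_mul, mul_one] at h1
  exact (ZMod.natCast_eq_zero_iff_even).1 h1

/-- PROOF. The vector `x = ‖N‖⁻¹ • N` is a unit vector, so `κ ≤ inner x (p l)` for some `l`, and
`inner x (p l) = ‖N‖⁻¹ * inner N (p l) ≤ 1 / ‖N‖`. -/
theorem norm_le {p : Fin n → E3} {κ : ℝ} (hC : Covers p κ) {N : E3} (hN : N ≠ 0)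
    (h : ∀ l, inner ℝ N (p l) ≤ 1) : κ ≤ 1 / ‖N‖ := by
  have hn : 0 < ‖N‖ := norm_pos_iff.2 hN
  obtain ⟨l, hl⟩ := hC (‖N‖⁻¹ • N) (by
    rw [norm_smul, norm_inv, norm_norm, inv_mul_cancel₀ hn.ne'])
  rw [real_inner_smul_left] at hl
  refine hl.trans ?_
  rw [one_div]
  exact mul_le_of_le_one_right (inv_nonneg.2 hn.le) (h l)

/-- PROOF. `exists_par` and `norm_le`. -/
theorem facet_par {p : Fin n → E3} {κ : ℝ} (hp : ∀ i, ‖p i‖ = 1) (hC : Covers p κ)
    {i j k : Fin n} (h : Facet p (i, j, k)) :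
    ∃ c a b d : ℝ, κ ≤ c ∧ Par (p i) (p j) (p k) c a b d := by
  obtain ⟨hd, N, h1, h2, h3, h4⟩ := h
  have hN : N ≠ 0 := by
    rintro rfl
    rw [inner_zero_left] at h1
    exact zero_ne_one h1
  obtain ⟨a, b, d, hPar⟩ := exists_par (hp i) (hp j) (hp k) hd h1 h2 h3
  refine ⟨1 / ‖N‖, a, b, d, norm_le hC hN fun l => ?_, hPar⟩
  by_cases e1 : l = i
  · rw [e1]
    exact h1.le
  by_cases e2 : l = j
  · rw [e2]
    exact h2.le
  by_cases e3 : l = k
  · rw [e3]
    exact h3.le
  exact (h4 l e1 e2 e3).le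

/-- PROOF. `p l = α p i + β p j + γ p k` with nonnegative coefficients (`inC_coeff`). If `l` is not
a vertex then `1 > inner N (p l) = α + β + γ ≥ ‖p l‖ = 1`, a contradiction. -/
theorem cone_vertex {p : Fin n → E3} (hp : ∀ i, ‖p i‖ = 1) {i j k l : Fin n}
    (h : Facet p (i, j, k)) (hl : InC (p i) (p j) (p k) (p l)) : l = i ∨ l = j ∨ l = k := by
  by_contra hcon
  rw [not_or, not_or] at hcon
  obtain ⟨hd, N, h1, h2, h3, h4⟩ := h
  obtain ⟨α, β, γ, ha, hb, hc, hu⟩ := inC_coeff hd hl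
  have h5 := h4 l hcon.1 hcon.2.1 hcon.2.2
  have h1' : inner ℝ N (p i) = 1 := h1
  have h2' : inner ℝ N (p j) = 1 := h2
  have h3' : inner ℝ N (p k) = 1 := h3
  rw [hu, inner_add_right, inner_add_right, real_inner_smul_right, real_inner_smul_right,
    real_inner_smul_right, h1', h2', h3'] at h5
  have h6 : ‖p l‖ ≤ α + β + γ := by
    rw [hu]
    refine (norm_add_le _ _).trans ?_
    refine (add_le_add (norm_add_le _ _) le_rfl).trans (le_of_eq ?_)
    rw [norm_smul, norm_smul, norm_smul, hp, hp, hp, Real.norm_of_nonneg ha,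
      Real.norm_of_nonneg hb, Real.norm_of_nonneg hc]
    ring
  rw [hp] at h6
  linarith

/-- PROOF. `u = λ p i + α p j + β p k = λ' p i + α' p j' + β' p k'`, `α, β, α', β' > 0`
(`inO_coeff`). With the normals `N`, `N'` of the two facets (`inner N (p m) ≤ 1` for all `m`):
`λ' + α' + β' = inner N' u = λ + α inner N' (p j) + β inner N' (p k) ≤ λ + α + β = inner N u
= λ' + α' inner N (p j') + β' inner N (p k') ≤ λ' + α' + β'`, so equality holds and
`inner N' (p j) = 1 = inner N' (p k)`. By the strict inequality in `Facet`, `j` and `k` are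
vertices of the second facet, `j ≠ i`, `k ≠ i`, `j ≠ k` (`facet_ne`). -/
theorem sector_nonov {p : Fin n → E3} {i j k j' k' : Fin n} (h : Facet p (i, j, k))
    (h' : Facet p (i, j', k')) {u : E3} (hu : InO (p i) (p j) (p k) u)
    (hu' : InO (p i) (p j') (p k') u) : (j = j' ∧ k = k') ∨ (j = k' ∧ k = j') := by
  have hne := facet_ne h
  obtain ⟨hd, N, h1, h2, h3, h4⟩ := h
  obtain ⟨hd', N', h1', h2', h3', h4'⟩ := h'
  obtain ⟨l, α, β, ha, hb, hu1⟩ := inO_coeff hd hu
  obtain ⟨l', α', β', ha', hb', hu2⟩ := inO_coeff hd' hu'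
  have e1 : inner ℝ N (p i) = 1 := h1
  have e2 : inner ℝ N (p j) = 1 := h2
  have e3 : inner ℝ N (p k) = 1 := h3
  have e1' : inner ℝ N' (p i) = 1 := h1'
  have e2' : inner ℝ N' (p j') = 1 := h2'
  have e3' : inner ℝ N' (p k') = 1 := h3'
  have hle : ∀ m, inner ℝ N (p m) ≤ 1 := by
    intro m
    by_cases q1 : m = i
    · rw [q1, e1]
    by_cases q2 : m = j
    · rw [q2, e2]
    by_cases q3 : m = k
    · rw [q3, e3]
    exact (h4 m q1 q2 q3).le
  have hle' : ∀ m, inner ℝ N' (p m) ≤ 1 := by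
    intro m
    by_cases q1 : m = i
    · rw [q1, e1']
    by_cases q2 : m = j'
    · rw [q2, e2']
    by_cases q3 : m = k'
    · rw [q3, e3']
    exact (h4' m q1 q2 q3).le
  have a1 : inner ℝ N u = l + α + β := by
    rw [hu1, inner_add_right, inner_add_right, real_inner_smul_right, real_inner_smul_right,
      real_inner_smul_right, e1, e2, e3]
    ring
  have a2 : inner ℝ N' u = l + α * inner ℝ N' (p j) + β * inner ℝ N' (p k) := by
    rw [hu1, inner_add_right, inner_add_right, real_inner_smul_right, real_inner_smul_right,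
      real_inner_smul_right, e1']
    ring
  have a3 : inner ℝ N' u = l' + α' + β' := by
    rw [hu2, inner_add_right, inner_add_right, real_inner_smul_right, real_inner_smul_right,
      real_inner_smul_right, e1', e2', e3']
    ring
  have a4 : inner ℝ N u = l' + α' * inner ℝ N (p j') + β' * inner ℝ N (p k') := by
    rw [hu2, inner_add_right, inner_add_right, real_inner_smul_right, real_inner_smul_right,
      real_inner_smul_right, e1]
    ring
  have b1 : α' * inner ℝ N (p j') ≤ α' := mul_le_of_le_one_right ha'.le (hle j')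
  have b2 : β' * inner ℝ N (p k') ≤ β' := mul_le_of_le_one_right hb'.le (hle k')
  have b3 : α * inner ℝ N' (p j) ≤ α := mul_le_of_le_one_right ha.le (hle' j)
  have b4 : β * inner ℝ N' (p k) ≤ β := mul_le_of_le_one_right hb.le (hle' k)
  have c1 : inner ℝ N' (p j) = 1 := by
    have h5 : α * inner ℝ N' (p j) = α := by linarith
    exact mul_left_cancel₀ ha.ne' (by rw [h5, mul_one])
  have c2 : inner ℝ N' (p k) = 1 := by
    have h5 : β * inner ℝ N' (p k) = β := by linarith
    exact mul_left_cancel₀ hb.ne' (by rw [h5, mul_one])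
  have d1 : j = j' ∨ j = k' := by
    by_contra hcon
    rw [not_or] at hcon
    exact absurd c1 (h4' j (Ne.symm hne.1) hcon.1 hcon.2).ne
  have d2 : k = j' ∨ k = k' := by
    by_contra hcon
    rw [not_or] at hcon
    exact absurd c2 (h4' k (Ne.symm hne.2.2) hcon.1 hcon.2).ne
  rcases d1 with d1 | d1 <;> rcases d2 with d2 | d2
  · exact absurd (d1.trans d2.symm) hne.2.1
  · exact Or.inl ⟨d1, d2⟩
  · exact Or.inr ⟨d1, d2⟩
  · exact absurd (d1.trans d2.symm) hne.2.1

end Pool.Agent.C32
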