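import Pool.Agent.Lib.MP_488b8a_co_W.LimT

/-! # Project C32, module LimC: the limit tiling -/

set_option autoImplicit false

namespace Pool.Agent.C32

open Real Filter Topology

private theorem limC_facet {p : Fin 32 → E3} {lb : Fin 32 → Bool}
    {T : Finset (Fin 32 × Fin 32 × Fin 32)} {q : ℕ → Fin 32 → E3} {κ : ℕ → ℝ}
    (h : LimData p lb T q κ) (m : ℕ) (t : Fin 32 × Fin 32 × Fin 32) :
    t ∈ T ↔ Facet (q m) t := by
  rw [← h.fac m, mem_facets]

/-- PROOF. Let `N m` be the normal of the facet `(i, j, k)` of `q m`, `inner (N m) (q m l) ≤ 1` for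
all `l`, `‖N m‖ ≤ 1 / κ m ≤ 2` (`norm_le`). A subsequence of `N m` converges (closed ball of `E3`
is compact), pass to the limit in all (in)equalities. -/
theorem lim_supp {p : Fin 32 → E3} {lb : Fin 32 → Bool} {T : Finset (Fin 32 × Fin 32 × Fin 32)}
    {q : ℕ → Fin 32 → E3} {κ : ℕ → ℝ} (h : LimData p lb T q κ) {i j k : Fin 32}
    (ht : (i, j, k) ∈ T) : ∃ N : E3, inner ℝ N (p i) = 1 ∧ inner ℝ N (p j) = 1 ∧
      inner ℝ N (p k) = 1 ∧ ∀ l, inner ℝ N (p l) ≤ 1 := by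
  have h1 : ∀ m, ∃ N : E3, inner ℝ N (q m i) = 1 ∧ inner ℝ N (q m j) = 1 ∧
      inner ℝ N (q m k) = 1 ∧ (∀ l, inner ℝ N (q m l) ≤ 1) ∧ N ∈ Metric.closedBall (0 : E3) 2 := by
    intro m
    obtain ⟨-, N, e1, e2, e3, e4⟩ := (limC_facet h m _).1 ht
    have e5 : ∀ l, inner ℝ N (q m l) ≤ 1 := by
      intro l
      by_cases hi : l = i
      · rw [hi]
        exact e1.le
      by_cases hj : l = j
      · rw [hj]
        exact e2.le
      by_cases hk : l = k
      · rw [hk]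
        exact e3.le
      exact (e4 l hi hj hk).le
    refine ⟨N, e1, e2, e3, e5, ?_⟩
    have hN : N ≠ 0 := by
      intro h0
      have e1' : inner ℝ N (q m i) = 1 := e1
      rw [h0, inner_zero_left] at e1'
      exact zero_ne_one e1'
    have e6 := norm_le (h.cov m) hN e5
    have e7 := h.kpos m
    have e8 : 0 < ‖N‖ := norm_pos_iff.2 hN
    rw [mem_closedBall_zero_iff]
    rw [le_div_iff₀ e8] at e6
    nlinarith
  choose N e1 e2 e3 e4 e5 using h1
  obtain ⟨N', -, φ, hφ, hlim⟩ := (isCompact_closedBall (0 : E3) 2).tendsto_subseq e5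
  have h2 : ∀ l, Tendsto (fun m => (inner ℝ (N (φ m)) (q (φ m) l) : ℝ)) atTop
      (𝓝 (inner ℝ N' (p l))) := fun l =>
    hlim.inner ((h.lim l).comp hφ.tendsto_atTop)
  refine ⟨N', ?_, ?_, ?_, fun l => ?_⟩
  · exact tendsto_nhds_unique (h2 i) (tendsto_const_nhds.congr fun m => (e1 (φ m)).symm)
  · exact tendsto_nhds_unique (h2 j) (tendsto_const_nhds.congr fun m => (e2 (φ m)).symm)
  · exact tendsto_nhds_unique (h2 k) (tendsto_const_nhds.congr fun m => (e3 (φ m)).symm)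
  · exact le_of_tendsto' (h2 l) fun m => e4 (φ m) l

/-- PROOF. `sec_cover` for every `q m`: some pair `(j, k)` occurs for infinitely many `m`
(`∃ᶠ m in atTop`); the conditions of `InS` are closed (`dt_tendsto`). -/
theorem lim_cover {p : Fin 32 → E3} {lb : Fin 32 → Bool} {T : Finset (Fin 32 × Fin 32 × Fin 32)}
    {q : ℕ → Fin 32 → E3} {κ : ℕ → ℝ} (h : LimData p lb T q κ) (i : Fin 32) (u : E3) :
    ∃ j k, (i, j, k) ∈ T ∧ InS (p i) (p j) (p k) u := by
  have h1 : ∀ m, ∃ t : Fin 32 × Fin 32, (i, t.1, t.2) ∈ T ∧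
      InS (q m i) (q m t.1) (q m t.2) u := by
    intro m
    obtain ⟨j, k, h2, h3⟩ := sec_cover (by linarith [h.kpos m]) (h.gen m) (h.cov m) i u
    exact ⟨(j, k), (limC_facet h m _).2 h2, h3⟩
  obtain ⟨t, ht⟩ : ∃ t : Fin 32 × Fin 32, ∃ᶠ m in atTop, (i, t.1, t.2) ∈ T ∧
      InS (q m i) (q m t.1) (q m t.2) u := by
    by_contra hcon
    push Not at hcon
    have h2 := eventually_all.2 hcon
    obtain ⟨m, hm⟩ := h2.exists
    obtain ⟨t, ht⟩ := h1 m
    exact hm t ht.1 ht.2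
  obtain ⟨-, h3, -⟩ := ht.exists
  have h4 : ∃ᶠ m in atTop, InS (q m i) (q m t.1) (q m t.2) u := ht.mono fun m hm => hm.2
  refine ⟨t.1, t.2, h3, ?_, ?_⟩
  · exact ge_of_tendsto_of_frequently
      ((dt_tendsto (h.lim i) (h.lim t.1) (h.lim t.2)).mul
        (dt_tendsto (h.lim i) tendsto_const_nhds (h.lim t.2))) (h4.mono fun m hm => hm.1)
  · exact ge_of_tendsto_of_frequently
      ((dt_tendsto (h.lim i) (h.lim t.1) (h.lim t.2)).mul
        (dt_tendsto (h.lim i) (h.lim t.1) tendsto_const_nhds)) (h4.mono fun m hm => hm.2)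

private theorem limC_inO {p : Fin 32 → E3} {lb : Fin 32 → Bool}
    {T : Finset (Fin 32 × Fin 32 × Fin 32)} {q : ℕ → Fin 32 → E3} {κ : ℕ → ℝ}
    (h : LimData p lb T q κ) {i j k : Fin 32} {u : E3} (hu : InO (p i) (p j) (p k) u) :
    ∀ᶠ m in atTop, InO (q m i) (q m j) (q m k) u := by
  refine Filter.Eventually.and ?_ ?_
  · exact ((dt_tendsto (h.lim i) (h.lim j) (h.lim k)).mul
      (dt_tendsto (h.lim i) tendsto_const_nhds (h.lim k))).eventually_const_lt hu.1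
  · exact ((dt_tendsto (h.lim i) (h.lim j) (h.lim k)).mul
      (dt_tendsto (h.lim i) (h.lim j) tendsto_const_nhds)).eventually_const_lt hu.2

/-- PROOF. The conditions of `InO` are open, so they hold for `q m`, `m` large (`dt_tendsto`); then
`sector_nonov`. -/
theorem lim_nonov {p : Fin 32 → E3} {lb : Fin 32 → Bool} {T : Finset (Fin 32 × Fin 32 × Fin 32)}
    {q : ℕ → Fin 32 → E3} {κ : ℕ → ℝ} (h : LimData p lb T q κ) {i j k j' k' : Fin 32} {u : E3}
    (ht : (i, j, k) ∈ T) (ht' : (i, j', k') ∈ T) (hu : InO (p i) (p j) (p k) u)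
    (hu' : InO (p i) (p j') (p k') u) : (j = j' ∧ k = k') ∨ (j = k' ∧ k = j') := by
  obtain ⟨m, h1, h2⟩ := ((limC_inO h hu).and (limC_inO h hu')).exists
  exact sector_nonov ((limC_facet h m _).1 ht) ((limC_facet h m _).1 ht') h1 h2

/-- PROOF. `exists_limdata`; `perm1`, `perm2`: `fac` and `facet_perm1`, `facet_perm2`; `one` and
`dist`: the three cases of `Tight` in `lim_tight` (`GG`, `g56`, `g66`); `supp`, `cover`, `nonov`:
above; `ne`: `facets_nonempty`. -/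
theorem exists_tiling {p : Fin 32 → E3} (hp : ∀ i, ‖p i‖ = 1) (hC : Covers p kap) :
    ∃ lb T, Tiling p lb T := by
  obtain ⟨lb, T, q, κ, h⟩ := exists_limdata hp hC
  refine ⟨lb, T, hp, fun i j k ht => ?_, fun i j k ht => ?_, fun i j k ht => ?_,
    fun i j k ht => ?_, fun i j k ht => lim_supp h ht, fun i u => lim_cover h i u,
    fun i j k j' k' u ht ht' hu hu' => lim_nonov h ht ht' hu hu', ?_⟩
  · exact (limC_facet h 0 _).2 (facet_perm1 ((limC_facet h 0 _).1 ht))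
  · exact (limC_facet h 0 _).2 (facet_perm2 ((limC_facet h 0 _).1 ht))
  · obtain ⟨c, a, b, d, ⟨-, h1⟩, -⟩ := lim_tight h ht
    rcases h1 with h1 | h1 | h1
    · exact Or.inl ⟨h1.1, h1.2.1, h1.2.2.1⟩
    · exact Or.inr (Or.inl ⟨h1.1, h1.2.1, h1.2.2.1⟩)
    · exact Or.inr (Or.inr ⟨h1.1, h1.2.1, h1.2.2.1⟩)
  · obtain ⟨c, a, b, d, ⟨hc, h1⟩, h2, -⟩ := lim_tight h ht
    rcases h1 with ⟨e1, e2, -, e3, -⟩ | ⟨e1, e2, -, e3, -⟩ | ⟨e1, e2, -, e3, -⟩
    · rw [h2, hc, e3, e1, e2]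
      rfl
    · rw [h2, hc, e3, e1, e2]
      rfl
    · rw [h2, hc, e3, e1, e2]
      rfl
  · rw [← h.fac 0]
    exact facets_nonempty (by linarith [h.kpos 0]) (h.gen 0) (h.cov 0) 0

end Pool.Agent.C32
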