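import Pool.Agent.Lib.MP_488b8a_co_W.Num1

/-! # Project C32, module Num3: identities for `g56`, `g66` -/

set_option autoImplicit false

namespace Pool.Agent.C32

open Real

private lemma n3_sq : √5 ^ 2 = 5 := Real.sq_sqrt (by norm_num)

private lemma n3_lo : 2.236 < √5 := by
  apply Real.lt_sqrt_of_sq_lt
  norm_num

private lemma n3_hi : √5 < 2.2361 := by
  rw [Real.sqrt_lt' (by norm_num)]
  norm_num

theorem gold_sq : gold ^ 2 = gold + 1 := by
  unfold gold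
  linear_combination (1 / 4) * n3_sq

theorem gold_pos : 0 < gold := by
  unfold gold
  positivity

private lemma n3_w : √(30 + 6 * √5) ^ 2 = 30 + 6 * √5 := Real.sq_sqrt (by positivity)

private lemma n3_g56 : g56 = (3 + √5) / √(30 + 6 * √5) := by
  have hg := gold_pos
  have hw : 0 < √(30 + 6 * √5) := by positivity
  have e1 : √(2 + gold) * √3 = √(30 + 6 * √5) / 2 := by
    rw [← Real.sqrt_mul (by positivity)]
    have h : (2 + gold) * 3 = (√(30 + 6 * √5) / 2) ^ 2 := by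
      rw [div_pow, n3_w]
      unfold gold
      ring
    rw [h, Real.sqrt_sq (by positivity)]
  rw [g56_eq, e1, gold_sq]
  unfold gold
  field_simp
  ring

/-- PROOF. `g56_eq`, `g66_eq`, `g66_lt`; `g66 = √5 / 3 > 0.7`, `g56^2 = gold^4 / (3 (2 + gold))`,
numerically `g56 = 0.79465`, `g66 = 0.74535`. -/
theorem g_bounds : 7 / 10 < g66 ∧ g66 < 3 / 4 ∧ 3 / 4 < g56 ∧ g56 < 4 / 5 := by
  have h1 := n3_lo
  have h2 := n3_hi
  have h5 := n3_sq
  have hw := n3_w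
  have hw0 : 0 < √(30 + 6 * √5) := by positivity
  refine ⟨?_, ?_, ?_, ?_⟩
  · rw [g66_eq]
    linarith
  · rw [g66_eq]
    linarith
  · rw [n3_g56, lt_div_iff₀ hw0]
    nlinarith
  · rw [n3_g56, div_lt_iff₀ hw0]
    nlinarith

/-- the Gram determinant of the tight triangle is positive; the true value is `0.1228`. PROOF.
`1 + 2 g56^2 g66 - 2 g56^2 - g66^2 = (1 - g66) (1 + g66 - 2 g56^2)` and `g_bounds`
(`2 (4/5)^2 = 1.28 < 1.7`). -/
theorem gram_tight_pos : 0 < 1 + 2 * g56 ^ 2 * g66 - 2 * g56 ^ 2 - g66 ^ 2 := by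
  obtain ⟨h1, h2, h3, h4⟩ := g_bounds
  have e : 1 + 2 * g56 ^ 2 * g66 - 2 * g56 ^ 2 - g66 ^ 2 =
      (1 - g66) * (1 + g66 - 2 * g56 ^ 2) := by
    ring
  rw [e]
  refine mul_pos (by linarith) ?_
  nlinarith

/-- the circumradius of the tight triangle. PROOF. Let `w = √(2 + gold) * √3`, so
`w^2 = 6 + 3 gold`, `4 w^2 = 30 + 6 √5`, `2 w = √(30 + 6 √5)`; by `kap_sq`
`1 / kap^2 = 10 - √5 - 2 w`, `g56 = gold^2 / w` (`g56_eq`), `g66 = √5 / 3` (`g66_eq`); after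
multiplication by `w^2` the claim is
`2 (w - gold^2)^2 = (9 - √5 - 2 w) ((1 + √5/3) w^2 - 2 gold^4)`; with `√5 = 2 gold - 1`,
`gold^2 = gold + 1` both sides are `16 + 12 gold - 4 gold^2 w`. -/
theorem circ_ident : 1 + 2 * (1 - g56) ^ 2 / (1 + g66 - 2 * g56 ^ 2) = 1 / kap ^ 2 := by
  have h5 := n3_sq
  have hw := n3_w
  have hw0 : 0 < √(30 + 6 * √5) := by positivity
  have hk0 : kap ^ 2 ≠ 0 := (pow_pos kap_pos 2).ne'
  have hk : 1 / kap ^ 2 = 10 - √5 - √(30 + 6 * √5) := by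
    rw [div_eq_iff hk0, ← kap_sq]
    ring
  rw [hk, g66_eq, n3_g56]
  have e1 : 1 + √5 / 3 - 2 * ((3 + √5) / √(30 + 6 * √5)) ^ 2 =
      (12 + 4 * √5) / √(30 + 6 * √5) ^ 2 := by
    rw [div_pow, hw, eq_div_iff (by positivity)]
    field_simp
    ring
  have e2 : (1 - (3 + √5) / √(30 + 6 * √5)) ^ 2 =
      (√(30 + 6 * √5) - (3 + √5)) ^ 2 / √(30 + 6 * √5) ^ 2 := by
    rw [← div_pow, sub_div, div_self hw0.ne']
  rw [e1, e2]
  have e3 : 2 * ((√(30 + 6 * √5) - (3 + √5)) ^ 2 / √(30 + 6 * √5) ^ 2) /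
      ((12 + 4 * √5) / √(30 + 6 * √5) ^ 2) =
      2 * (√(30 + 6 * √5) - (3 + √5)) ^ 2 / (12 + 4 * √5) := by
    rw [← mul_div_assoc, div_div_div_cancel_right₀ (by positivity)]
  have hd : (12 + 4 * √5) ≠ 0 := by positivity
  rw [e3, ← sub_eq_zero]
  have e4 : 1 + 2 * (√(30 + 6 * √5) - (3 + √5)) ^ 2 / (12 + 4 * √5) -
      (10 - √5 - √(30 + 6 * √5)) = (2 * (√(30 + 6 * √5) - (3 + √5)) ^ 2 -
      (9 - √5 - √(30 + 6 * √5)) * (12 + 4 * √5)) / (12 + 4 * √5) := by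
    rw [eq_div_iff hd, sub_mul, add_mul, div_mul_cancel₀ _ hd]
    ring
  rw [e4, div_eq_zero_iff]
  left
  linear_combination 2 * hw + 6 * h5

end Pool.Agent.C32
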