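import Pool.Agent.Lib.MP_488b8a_co_W.Vec
import Pool.Agent.Lib.MP_488b8a_co_W.Num3

/-! # Project C32, module IcoC: the explicit configuration -/

set_option autoImplicit false

namespace Pool.Agent.C32

open Real

noncomputable section

/-- an icosahedron vertex and two adjacent dodecahedron vertices -/
def va : E3 := (√(2 + gold))⁻¹ • !₂[0, 1, gold]

def vb : E3 := (√3)⁻¹ • !₂[1 / gold, 0, gold]

def vb' : E3 := (√3)⁻¹ • !₂[-(1 / gold), 0, gold]

end

private theorem sg_sq (s : Bool) : sg s ^ 2 = 1 := by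
  cases s <;> simp [sg]

private theorem sg_ne (s : Bool) : sg s ≠ 0 := by
  cases s <;> simp [sg]

private theorem sg_inj {s t : Bool} (h : sg s = sg t) : s = t := by
  revert h
  cases s <;> cases t <;> simp [sg] <;> norm_num

private theorem inv_gold : 1 / gold = gold - 1 := by
  rw [div_eq_iff gold_pos.ne']
  linear_combination -gold_sq

private theorem gold_ne : gold ≠ 0 := gold_pos.ne'

private theorem cyc_coord (k : Fin 3) (x y z : ℝ) (f : ℝ → ℝ) :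
    f (cyc k x y z 0) + f (cyc k x y z 1) + f (cyc k x y z 2) = f x + f y + f z := by
  fin_cases k
  · simp [cyc]
  · simp [cyc]
    ring
  · simp [cyc]
    ring

private theorem smul_norm (a : ℝ) (ha : a ≠ 0) (k : Fin 3) (x y z : ℝ)
    (h : x ^ 2 + y ^ 2 + z ^ 2 = a ^ 2) : ‖a⁻¹ • cyc k x y z‖ = 1 := by
  rw [norm_one_iff]
  have h1 := cyc_coord k x y z (fun t => (a⁻¹ * t) ^ 2)
  simp only [PiLp.smul_apply, smul_eq_mul]
  rw [h1, mul_pow, mul_pow, mul_pow, ← mul_add, ← mul_add, h, ← mul_pow, inv_mul_cancel₀ ha,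
    one_pow]

private theorem s1_ne : √(2 + gold) ≠ 0 := (Real.sqrt_pos.2 (by linarith [gold_pos])).ne'

private theorem s3_ne : √(3 : ℝ) ≠ 0 := (Real.sqrt_pos.2 (by norm_num)).ne'

private theorem s1_sq : √(2 + gold) ^ 2 = 2 + gold := Real.sq_sqrt (by linarith [gold_pos])

private theorem s3_sq' : √(3 : ℝ) ^ 2 = 3 := Real.sq_sqrt (by norm_num)

theorem pt_norm (s : (Bool × Bool × Fin 3) ⊕ (Bool × Bool × Bool) ⊕ (Bool × Bool × Fin 3)) :
    ‖pt s‖ = 1 := by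
  have hg := gold_sq
  rcases s with ⟨s, t, k⟩ | ⟨s, t, u⟩ | ⟨s, t, k⟩
  · refine smul_norm _ s1_ne k _ _ _ ?_
    rw [s1_sq, mul_pow, sg_sq, sg_sq, hg]
    ring
  · refine smul_norm _ s3_ne 0 _ _ _ ?_
    rw [s3_sq', sg_sq, sg_sq, sg_sq]
    norm_num
  · refine smul_norm _ s3_ne k _ _ _ ?_
    rw [s3_sq', mul_pow, div_pow, sg_sq, sg_sq]
    have h1 : 1 / gold ^ 2 = (gold - 1) ^ 2 := by
      rw [← inv_gold, div_pow, one_pow]
    rw [h1]
    linear_combination 2 * hg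

/-- the sum of the fourth powers of the coordinates -/
private noncomputable def s4 (x : E3) : ℝ := x 0 ^ 4 + x 1 ^ 4 + x 2 ^ 4

private theorem s4_smul (a : ℝ) (k : Fin 3) (x y z : ℝ) :
    s4 (a⁻¹ • cyc k x y z) = (a ^ 4)⁻¹ * (x ^ 4 + y ^ 4 + z ^ 4) := by
  have h1 := cyc_coord k x y z (fun t => (a⁻¹ * t) ^ 4)
  unfold s4
  simp only [PiLp.smul_apply, smul_eq_mul]
  rw [h1, mul_pow, mul_pow, mul_pow, inv_pow]
  ring

private theorem sg4 (s : Bool) : sg s ^ 4 = 1 := by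
  have h := sg_sq s
  have h1 : sg s ^ 4 = (sg s ^ 2) ^ 2 := by ring
  rw [h1, h, one_pow]

private theorem s4_1 (s t : Bool) (k : Fin 3) : s4 (pt (Sum.inl (s, t, k))) = 3 / 5 := by
  have hg := gold_sq
  have h1 : √(2 + gold) ^ 4 = (2 + gold) ^ 2 := by
    have e : √(2 + gold) ^ 4 = (√(2 + gold) ^ 2) ^ 2 := by ring
    rw [e, s1_sq]
  have h2 : (2 + gold) ^ 2 ≠ 0 := by
    have := gold_pos
    positivity
  have h3 : s4 (pt (Sum.inl (s, t, k))) =
      (√(2 + gold) ^ 4)⁻¹ * ((0 : ℝ) ^ 4 + sg s ^ 4 + (sg t * gold) ^ 4) := s4_smul _ k _ _ _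
  rw [h3, h1, mul_pow, sg4, sg4, inv_mul_eq_div, div_eq_div_iff h2 (by norm_num)]
  linear_combination (5 * (gold ^ 2 + gold + 2) - 3) * hg

private theorem s4_2 (s t u : Bool) : s4 (pt (Sum.inr (Sum.inl (s, t, u)))) = 1 / 3 := by
  have h1 : √(3 : ℝ) ^ 4 = 9 := by
    have : √(3 : ℝ) ^ 4 = (√(3 : ℝ) ^ 2) ^ 2 := by ring
    rw [this, s3_sq']
    norm_num
  have h3 : s4 (pt (Sum.inr (Sum.inl (s, t, u)))) =
      (√(3 : ℝ) ^ 4)⁻¹ * (sg s ^ 4 + sg t ^ 4 + sg u ^ 4) := s4_smul _ 0 _ _ _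
  rw [h3, h1, sg4, sg4, sg4]
  norm_num

private theorem s4_3 (s t : Bool) (k : Fin 3) :
    s4 (pt (Sum.inr (Sum.inr (s, t, k)))) = 7 / 9 := by
  have hg := gold_sq
  have h1 : √(3 : ℝ) ^ 4 = 9 := by
    have : √(3 : ℝ) ^ 4 = (√(3 : ℝ) ^ 2) ^ 2 := by ring
    rw [this, s3_sq']
    norm_num
  have h3 : s4 (pt (Sum.inr (Sum.inr (s, t, k)))) =
      (√(3 : ℝ) ^ 4)⁻¹ * ((sg s / gold) ^ 4 + (0 : ℝ) ^ 4 + (sg t * gold) ^ 4) :=
    s4_smul _ k _ _ _
  have h4 : 1 / gold ^ 4 = (gold - 1) ^ 4 := by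
    rw [← inv_gold, div_pow, one_pow]
  have h5 : (gold - 1) ^ 4 + gold ^ 4 = 7 := by
    have e1 : (gold - 1) ^ 2 = 2 - gold := by linear_combination hg
    have e2 : (gold - 1) ^ 4 = ((gold - 1) ^ 2) ^ 2 := by ring
    have e3 : gold ^ 4 = (gold ^ 2) ^ 2 := by ring
    rw [e2, e1, e3, hg]
    linear_combination 2 * hg
  rw [h3, h1, div_pow, mul_pow, sg4, sg4, h4]
  linear_combination (1 / 9 : ℝ) * h5

private theorem cyc_inj1 {k k' : Fin 3} {y z y' z' : ℝ} (hy : y ≠ 0) (hz : z ≠ 0)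
    (h : cyc k 0 y z = cyc k' 0 y' z') : k = k' ∧ y = y' ∧ z = z' := by
  have h0 := congrArg (fun v : E3 => v 0) h
  have h1 := congrArg (fun v : E3 => v 1) h
  have h2 := congrArg (fun v : E3 => v 2) h
  fin_cases k <;> fin_cases k' <;> simp_all [cyc]

private theorem cyc_inj2 {k k' : Fin 3} {x z x' z' : ℝ} (hx : x ≠ 0) (hz : z ≠ 0)
    (h : cyc k x 0 z = cyc k' x' 0 z') : k = k' ∧ x = x' ∧ z = z' := by
  have h0 := congrArg (fun v : E3 => v 0) h
  have h1 := congrArg (fun v : E3 => v 1) h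
  have h2 := congrArg (fun v : E3 => v 2) h
  fin_cases k <;> fin_cases k' <;> simp_all [cyc]

private theorem smul_inj {a : ℝ} (ha : a ≠ 0) {x y : E3} (h : a⁻¹ • x = a⁻¹ • y) : x = y := by
  have h1 := congrArg (fun v => a • v) h
  simpa only [smul_smul, mul_inv_cancel₀ ha, one_smul] using h1

/-- PROOF. Suppose `pt s = pt s'`. The sums of the fourth powers of the coordinates distinguish the
12 icosahedron vertices (`(1 + gold^4)/(2 + gold)^2 = 3/5`), the eight points `(±1,±1,±1)/√3`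
(`1/3`) and the other twelve (`(gold^4 + gold^(-4))/9 = 7/9`); in each class compare coordinates
(which coordinate is zero, and the signs). -/
theorem pt_inj : Function.Injective pt := by
  intro p p' h
  have h4 := congrArg s4 h
  rcases p with ⟨s, t, k⟩ | ⟨s, t, u⟩ | ⟨s, t, k⟩ <;>
    rcases p' with ⟨s', t', k'⟩ | ⟨s', t', u'⟩ | ⟨s', t', k'⟩ <;>
    simp only [s4_1, s4_2, s4_3] at h4
  · have h1 : (√(2 + gold))⁻¹ • cyc k 0 (sg s) (sg t * gold) =
      (√(2 + gold))⁻¹ • cyc k' 0 (sg s') (sg t' * gold) := h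
    obtain ⟨e1, e2, e3⟩ := cyc_inj1 (sg_ne s) (mul_ne_zero (sg_ne t) gold_ne)
      (smul_inj s1_ne h1)
    rw [e1, sg_inj e2, sg_inj (mul_right_cancel₀ gold_ne e3)]
  · norm_num at h4
  · norm_num at h4
  · norm_num at h4
  · have h1 : (√3)⁻¹ • cyc 0 (sg s) (sg t) (sg u) = (√3)⁻¹ • cyc 0 (sg s') (sg t') (sg u') := h
    have h2 := smul_inj s3_ne h1
    have e0 : sg s = sg s' := by simpa [cyc] using congrArg (fun v : E3 => v 0) h2
    have e1 : sg t = sg t' := by simpa [cyc] using congrArg (fun v : E3 => v 1) h2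
    have e2 : sg u = sg u' := by simpa [cyc] using congrArg (fun v : E3 => v 2) h2
    rw [sg_inj e0, sg_inj e1, sg_inj e2]
  · norm_num at h4
  · norm_num at h4
  · norm_num at h4
  · have h1 : (√3)⁻¹ • cyc k (sg s / gold) 0 (sg t * gold) =
      (√3)⁻¹ • cyc k' (sg s' / gold) 0 (sg t' * gold) := h
    obtain ⟨e1, e2, e3⟩ := cyc_inj2 (div_ne_zero (sg_ne s) gold_ne)
      (mul_ne_zero (sg_ne t) gold_ne) (smul_inj s3_ne h1)
    rw [e1, sg_inj ((div_left_inj' gold_ne).1 e2), sg_inj (mul_right_cancel₀ gold_ne e3)]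

theorem card_idx :
    Fintype.card ((Bool × Bool × Fin 3) ⊕ (Bool × Bool × Bool) ⊕ (Bool × Bool × Fin 3)) = 32 := by
  simp

theorem va_norm : ‖va‖ = 1 := by
  refine smul_norm _ s1_ne 0 _ _ _ ?_
  rw [s1_sq, gold_sq]
  ring

private theorem inv_sq : (1 / gold) ^ 2 = 2 - gold := by
  rw [inv_gold]
  linear_combination gold_sq

theorem vb_norm : ‖vb‖ = 1 := by
  refine smul_norm _ s3_ne 0 _ _ _ ?_
  rw [s3_sq', inv_sq, gold_sq]
  ring

theorem vb'_norm : ‖vb'‖ = 1 := by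
  refine smul_norm _ s3_ne 0 _ _ _ ?_
  rw [s3_sq', neg_sq, inv_sq, gold_sq]
  ring

/-- PROOF. `inner va vb = gold^2 / (√(2 + gold) √3)`: `g56_eq`. -/
theorem va_vb : inner ℝ va vb = g56 := by
  rw [inner_eq, g56_eq]
  simp only [va, vb, PiLp.smul_apply, smul_eq_mul]
  simp
  field_simp

theorem va_vb' : inner ℝ va vb' = g56 := by
  rw [inner_eq, g56_eq]
  simp only [va, vb', PiLp.smul_apply, smul_eq_mul]
  simp
  field_simp

/-- PROOF. `(gold^2 - 1/gold^2)/3 = √5/3`: `g66_eq`. -/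
theorem vb_vb' : inner ℝ vb vb' = g66 := by
  rw [inner_eq, g66_eq]
  have h1 : (√3)⁻¹ * (√3)⁻¹ = (1 / 3 : ℝ) := by
    rw [← mul_inv, ← pow_two, s3_sq', one_div]
  have h2 : (√3)⁻¹ * (1 / gold) * ((√3)⁻¹ * (-(1 / gold))) + (√3)⁻¹ * 0 * ((√3)⁻¹ * 0) +
      (√3)⁻¹ * gold * ((√3)⁻¹ * gold) = √5 / 3 := by
    have h3 : 2 * gold - 1 = √5 := by
      unfold gold
      ring
    linear_combination (gold ^ 2 - (1 / gold) ^ 2) * h1 - (1 / 3 : ℝ) * inv_sq +
      (1 / 3 : ℝ) * gold_sq + (1 / 3 : ℝ) * h3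
  rw [← h2]
  simp [vb, vb']

theorem dt_ab : dt va vb vb' ≠ 0 := by
  have h := gram_det va vb vb'
  rw [real_inner_self_eq_norm_sq, real_inner_self_eq_norm_sq, real_inner_self_eq_norm_sq,
    va_norm, vb_norm, vb'_norm, va_vb, va_vb', vb_vb'] at h
  intro h0
  rw [h0] at h
  have h1 := gram_tight_pos
  nlinarith

end Pool.Agent.C32
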