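import Pool.Agent.Lib.MP_488b8a_co_W.Twin
import Pool.Agent.Lib.MP_488b8a_co_W.IcoC

/-! # Project C32, module Word: propagation of the tiling by reflections -/

set_option autoImplicit false

namespace Pool.Agent.C32

open Real

noncomputable section

/-- changes of the signs of the coordinates -/
def Dg (s t u : Bool) (v : E3) : E3 := !₂[sg s * v 0, sg t * v 1, sg u * v 2]

/-- the reflection with the mirror spanned by `va` and `vb`; its normal is
`(gold, 1, -1/gold)` -/
def Rf (v : E3) : E3 :=
  !₂[v 0 - (gold * v 0 + v 1 - v 2 / gold) / 2 * gold, v 1 - (gold * v 0 + v 1 - v 2 / gold) / 2,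
    v 2 + (gold * v 0 + v 1 - v 2 / gold) / 2 / gold]

/-- the cyclic shift -/
def Cy (v : E3) : E3 := !₂[v 2, v 0, v 1]

/-- preservation of inner products -/
def IP (f : E3 → E3) : Prop := ∀ u v, inner ℝ (f u) (f v) = inner ℝ u v

/-- the image of the triangle `va`, `vb`, `vb'` under `f` is a triangle of the tiling -/
def Good (p : Fin 32 → E3) (lb : Fin 32 → Bool) (T : Finset (Fin 32 × Fin 32 × Fin 32))
    (f : E3 → E3) : Prop :=
  IP f ∧ ∃ i j k, (i, j, k) ∈ T ∧ lb i = true ∧ p i = f va ∧ p j = f vb ∧ p k = f vb'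

end

variable {p : Fin 32 → E3} {lb : Fin 32 → Bool} {T : Finset (Fin 32 × Fin 32 × Fin 32)}

private theorem w_sg (s : Bool) : sg s * sg s = 1 := by
  cases s <;> simp [sg]

private theorem w_inv : gold⁻¹ = gold - 1 := by
  have h := gold_sq
  have h0 := gold_pos
  field_simp
  linarith

private theorem w_rf (v : E3) : Rf v = !₂[(1 - gold) / 2 * v 0 - gold / 2 * v 1 + v 2 / 2,
    -(gold / 2) * v 0 + v 1 / 2 + (gold - 1) / 2 * v 2,
    v 0 / 2 + (gold - 1) / 2 * v 1 + gold / 2 * v 2] := by
  have h := gold_sq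
  apply ext3
  · simp only [Rf, div_eq_mul_inv, w_inv]
    simp
    linear_combination (-(v 0) / 2 + v 2 / 2) * h
  · simp only [Rf, div_eq_mul_inv, w_inv]
    simp
    ring
  · simp only [Rf, div_eq_mul_inv, w_inv]
    simp
    linear_combination (v 0 / 2 - v 2 / 2) * h

theorem ip_dg (s t u : Bool) : IP (Dg s t u) := by
  intro x y
  simp only [inner_eq, Dg]
  simp
  linear_combination (x 0 * y 0) * w_sg s + (x 1 * y 1) * w_sg t + (x 2 * y 2) * w_sg u

/-- PROOF. Coordinates, `gold^2 = gold + 1`, `1/gold = gold - 1`; the squared norm of the normal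
`(gold, 1, -1/gold)` is `4`. -/
theorem ip_rf : IP Rf := by
  intro x y
  have h := gold_sq
  simp only [inner_eq, w_rf]
  simp
  linear_combination (x 0 * y 0 / 2 + x 0 * y 1 / 4 - x 0 * y 2 / 4 + x 1 * y 0 / 4 +
    x 1 * y 1 / 2 + x 1 * y 2 / 4 - x 2 * y 0 / 4 + x 2 * y 1 / 4 + x 2 * y 2 / 2) * h

theorem ip_cy : IP Cy := by
  intro x y
  simp only [inner_eq, Cy]
  simp
  ring

private theorem w_comp {f g : E3 → E3} (hf : IP f) (hg : IP g) : IP (f ∘ g) := fun u v => by
  simp only [Function.comp]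
  rw [hf, hg]

private theorem w_inj {f : E3 → E3} (hf : IP f) {u v : E3} (h : f u = f v) : u = v := by
  have h1 : inner ℝ (u - v) (u - v) = (0 : ℝ) := by
    have e1 := hf u u
    have e2 := hf u v
    have e3 := hf v v
    rw [h] at e1 e2
    rw [inner_sub_sub_self, ← e1, ← e2, ← e3]
    rw [real_inner_comm u v, ← e2]
    ring
  have h2 := inner_self_eq_zero.1 h1
  exact sub_eq_zero.1 h2

private theorem w_x_va : Dg false true true va = va := by
  apply ext3 <;> simp [Dg, va, sg]

private theorem w_x_vb : Dg false true true vb = vb' := by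
  apply ext3 <;> simp [Dg, vb, vb', sg]

private theorem w_x_vb' : Dg false true true vb' = vb := by
  apply ext3 <;> simp [Dg, vb, vb', sg]

private theorem w_y_vb : Dg true false true vb = vb := by
  apply ext3 <;> simp [Dg, vb, sg]

private theorem w_y_vb' : Dg true false true vb' = vb' := by
  apply ext3 <;> simp [Dg, vb', sg]

private theorem w_y_va : Dg true false true va ≠ va := by
  intro h
  have h1 := congrArg (fun v : E3 => v 1) h
  have h0 := gold_pos
  have h2 : (0 : ℝ) < (√(2 + gold))⁻¹ := by positivity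
  simp [Dg, va, sg] at h1
  linarith

private theorem w_r_va : Rf va = va := by
  have h := gold_sq
  rw [w_rf]
  apply ext3
  · simp [va]
    ring
  · simp [va]
    linear_combination ((√(2 + gold))⁻¹ / 2) * h
  · simp [va]
    linear_combination ((√(2 + gold))⁻¹ / 2) * h

private theorem w_r_vb : Rf vb = vb := by
  have h := gold_sq
  rw [w_rf]
  apply ext3
  · simp [vb, w_inv]
    linear_combination (-(√3)⁻¹ / 2) * h
  · simp [vb, w_inv]
    ring
  · simp [vb, w_inv]
    linear_combination ((√3)⁻¹ / 2) * h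

private theorem w_r_vb' : Rf vb' = !₂[(√3)⁻¹, (√3)⁻¹, (√3)⁻¹] := by
  have h := gold_sq
  rw [w_rf]
  apply ext3
  · simp [vb', w_inv]
    linear_combination ((√3)⁻¹ / 2) * h
  · simp [vb', w_inv]
    linear_combination ((√3)⁻¹) * h
  · simp [vb', w_inv]
    linear_combination ((√3)⁻¹ / 2) * h

private theorem w_r_ne : Rf vb' ≠ vb' := by
  intro h
  have h1 := congrArg (fun v : E3 => v 1) h
  rw [w_r_vb'] at h1
  have h2 : (0 : ℝ) < (√3)⁻¹ := by positivity
  simp [vb'] at h1

/-- PROOF. `Dg false true true` fixes `va` and exchanges `vb` and `vb'`; `(i, k, j) ∈ T`. -/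
theorem good_x {f : E3 → E3} (h : Tiling p lb T) (hf : Good p lb T f) :
    Good p lb T (f ∘ Dg false true true) := by
  obtain ⟨hi, i, j, k, ht, hl, h1, h2, h3⟩ := hf
  refine ⟨w_comp hi (ip_dg _ _ _), i, k, j, h.perm2 _ _ _ (h.perm1 _ _ _ ht), hl, ?_, ?_, ?_⟩
  · simp only [Function.comp, w_x_va, h1]
  · simp only [Function.comp, w_x_vb, h3]
  · simp only [Function.comp, w_x_vb', h2]

private theorem w_GG (l l' : Bool) : GG l l' ^ 2 < 1 := by
  obtain ⟨h1, h2, h3, h4⟩ := g_bounds
  unfold GG
  split_ifs <;> nlinarith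

/-- PROOF. Let `S = Dg true false true`; it fixes `vb` and `vb'`, and `S va ≠ va`. From
`(j, k, i) ∈ T` (`perm2`) `twin` gives `(j, a, b) ∈ T` with `p a = p k`, `lb a = lb k`,
`lb b = lb i = true`, `p b ≠ p i`. By `mirror_unique` (`x = p j`, `y = p k`, `z = p i`, `z' = p b`,
`z'' = f (S va)`): the inner products of `f (S va)` with `f vb`, `f vb'` are those of `va` with
`vb`, `vb'` (`IP f`, `ip_dg`), those of `p b` come from `dist` (`lb b = lb i`, `lb a = lb k`);
`f (S va) ≠ f va` because `IP f` makes `f` injective; `inner (p j) (p k) ^ 2 < 1` by `dist` and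
`g_bounds`. So `p b = f (S va)`, and the triangle is `(b, j, a) ∈ T`. -/
theorem good_y {f : E3 → E3} (h : Tiling p lb T) (hf : Good p lb T f) :
    Good p lb T (f ∘ Dg true false true) := by
  obtain ⟨hi, i, j, k, ht, hl, h1, h2, h3⟩ := hf
  have ht2 := h.perm2 _ _ _ ht
  obtain ⟨a, b, hab, ha, hla, hlb, hne⟩ := twin h ht2
  have t1 : (a, b, j) ∈ T := h.perm2 _ _ _ hab
  have t2 : (b, j, a) ∈ T := h.perm2 _ _ _ t1
  have t3 : (b, a, j) ∈ T := h.perm1 _ _ _ t1
  have t4 : (i, k, j) ∈ T := h.perm2 _ _ _ (h.perm1 _ _ _ ht)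
  have hS := ip_dg true false true
  have key : p b = f (Dg true false true va) := by
    refine mirror_unique (x := p j) (y := p k) (z := p i) (h.unit _) (h.unit _) (h.unit _)
      (h.unit _) ?_ ?_ ?_ ?_ ?_ ?_ hne ?_
    · have e : ‖f (Dg true false true va)‖ ^ 2 = 1 := by
        rw [← real_inner_self_eq_norm_sq, hi, hS, real_inner_self_eq_norm_sq, va_norm, one_pow]
      nlinarith [norm_nonneg (f (Dg true false true va))]
    · rw [h.dist _ _ _ ht2]
      exact w_GG _ _
    · rw [h.dist _ _ _ t2, h.dist _ _ _ ht, hlb]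
    · rw [← ha, h.dist _ _ _ t3, ha, h.dist _ _ _ t4, hlb, hla]
    · rw [h2, h1, hi, hi]
      conv_lhs => rw [← w_y_vb]
      exact hS _ _
    · rw [h3, h1, hi, hi]
      conv_lhs => rw [← w_y_vb']
      exact hS _ _
    · intro e
      rw [h1] at e
      exact w_y_va (w_inj hi e)
  refine ⟨w_comp hi hS, b, j, a, t2, by rw [hlb, hl], ?_, ?_, ?_⟩
  · simpa only [Function.comp] using key
  · simp only [Function.comp, w_y_vb, h2]
  · simp only [Function.comp, w_y_vb', ha, h3]

/-- PROOF. The same with the side `i`, `j`: `Rf` fixes `va` and `vb`, `Rf vb' ≠ vb'`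
(`Rf vb' = (√3)⁻¹ • (1,1,1)`); `twin` gives `(i, a, b) ∈ T`, `p a = p j`, `lb b = lb k`,
`p b ≠ p k`, so `p b = f (Rf vb')`. -/
theorem good_r {f : E3 → E3} (h : Tiling p lb T) (hf : Good p lb T f) :
    Good p lb T (f ∘ Rf) := by
  obtain ⟨hi, i, j, k, ht, hl, h1, h2, h3⟩ := hf
  obtain ⟨a, b, hab, ha, hla, hlb, hne⟩ := twin h ht
  have t1 : (a, b, i) ∈ T := h.perm2 _ _ _ hab
  have t2 : (b, i, a) ∈ T := h.perm2 _ _ _ t1
  have t3 : (b, a, i) ∈ T := h.perm1 _ _ _ t1
  have s1 : (j, k, i) ∈ T := h.perm2 _ _ _ ht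
  have s2 : (k, i, j) ∈ T := h.perm2 _ _ _ s1
  have s3 : (k, j, i) ∈ T := h.perm1 _ _ _ s1
  have key : p b = f (Rf vb') := by
    refine mirror_unique (x := p i) (y := p j) (z := p k) (h.unit _) (h.unit _) (h.unit _)
      (h.unit _) ?_ ?_ ?_ ?_ ?_ ?_ hne ?_
    · have e : ‖f (Rf vb')‖ ^ 2 = 1 := by
        rw [← real_inner_self_eq_norm_sq, hi, ip_rf, real_inner_self_eq_norm_sq, vb'_norm, one_pow]
      nlinarith [norm_nonneg (f (Rf vb'))]
    · rw [h.dist _ _ _ ht]
      exact w_GG _ _
    · rw [h.dist _ _ _ t2, h.dist _ _ _ s2, hlb]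
    · rw [← ha, h.dist _ _ _ t3, ha, h.dist _ _ _ s3, hlb, hla]
    · rw [h1, h3, hi, hi]
      conv_lhs => rw [← w_r_va]
      exact ip_rf _ _
    · rw [h2, h3, hi, hi]
      conv_lhs => rw [← w_r_vb]
      exact ip_rf _ _
    · intro e
      rw [h3] at e
      exact w_r_ne (w_inj hi e)
  refine ⟨w_comp hi ip_rf, i, a, b, hab, hl, ?_, ?_, ?_⟩
  · simp only [Function.comp, w_r_va, h1]
  · simp only [Function.comp, w_r_vb, ha, h2]
  · simpa only [Function.comp] using key

private theorem w_cy (v : E3) : Dg true false true (Rf (Dg true false true (Dg false true true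
    (Rf (Dg false true true (Rf (Dg false true true v))))))) = Cy v := by
  have h := gold_sq
  simp only [w_rf, Cy]
  apply ext3
  · simp [Dg, sg]
    linear_combination ((-1 / 8 + gold / 8) * v 0 + (-gold / 8) * v 1 + 7 / 8 * v 2) * h
  · simp [Dg, sg]
    linear_combination ((3 / 4 - gold / 8) * v 0 + (-1 / 8) * v 1 + (1 / 8 - gold / 8) * v 2) * h
  · simp [Dg, sg]
    linear_combination ((-1 / 8) * v 0 + (5 / 8 + gold / 8) * v 1 + (gold / 8) * v 2) * h

/-- PROOF. With `X = Dg false true true`, `Y = Dg true false true`: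
`Cy = Y ∘ Rf ∘ Y ∘ X ∘ Rf ∘ X ∘ Rf ∘ X` (coordinates, `1/gold = gold - 1`, `gold^2 = gold + 1`;
checked numerically). -/
theorem good_c {f : E3 → E3} (h : Tiling p lb T) (hf : Good p lb T f) :
    Good p lb T (f ∘ Cy) := by
  have g := good_x h (good_r h (good_x h (good_r h (good_x h (good_y h (good_r h
    (good_y h hf)))))))
  have e : f ∘ Cy = ((((((((f ∘ Dg true false true) ∘ Rf) ∘ Dg true false true) ∘
      Dg false true true) ∘ Rf) ∘ Dg false true true) ∘ Rf) ∘ Dg false true true) := by
    funext v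
    simp only [Function.comp]
    rw [w_cy]
  rw [e]
  exact g

private theorem w_z (v : E3) : Cy (Dg true false true (Cy (Cy v))) = Dg true true false v := by
  apply ext3 <;> simp [Cy, Dg, sg]

private theorem good_z {f : E3 → E3} (h : Tiling p lb T) (hf : Good p lb T f) :
    Good p lb T (f ∘ Dg true true false) := by
  have g := good_c h (good_c h (good_y h (good_c h hf)))
  have e : f ∘ Dg true true false = (((f ∘ Cy) ∘ Dg true false true) ∘ Cy) ∘ Cy := by
    funext v
    simp only [Function.comp]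
    rw [w_z]
  rw [e]
  exact g

private theorem w_dd (s t u s' t' u' : Bool) (v : E3) :
    Dg s t u (Dg s' t' u' v) = Dg (s == s') (t == t') (u == u') v := by
  apply ext3
  · cases s <;> cases s' <;> simp [Dg, sg]
  · cases t <;> cases t' <;> simp [Dg, sg]
  · cases u <;> cases u' <;> simp [Dg, sg]

/-- PROOF. `Dg true true false = Cy ∘ Dg true false true ∘ Cy ∘ Cy`, and every `Dg s t u` is a
composition of the three basic ones (`Dg true true true = id`). -/
theorem good_d {f : E3 → E3} (h : Tiling p lb T) (hf : Good p lb T f) (s t u : Bool) :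
    Good p lb T (f ∘ Dg s t u) := by
  have hs : Good p lb T (f ∘ Dg s true true) := by
    cases s
    · exact good_x h hf
    · have e : f ∘ Dg true true true = f := by
        funext v
        simp only [Function.comp]
        congr 1
        apply ext3 <;> simp [Dg, sg]
      rw [e]
      exact hf
  have hst : Good p lb T (f ∘ Dg s t true) := by
    cases t
    · have e : f ∘ Dg s false true = (f ∘ Dg s true true) ∘ Dg true false true := by
        funext v
        simp only [Function.comp]
        rw [w_dd]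
        cases s <;> rfl
      rw [e]
      exact good_y h hs
    · exact hs
  cases u
  · have e : f ∘ Dg s t false = (f ∘ Dg s t true) ∘ Dg true true false := by
      funext v
      simp only [Function.comp]
      rw [w_dd]
      cases s <;> cases t <;> rfl
    rw [e]
    exact good_z h hst
  · exact hst

/-- PROOF. `pt (inl (s, t, k)) = Cy^k (Dg true s t va)`,
`pt (inr (inr (s, t, k))) = Cy^k (Dg s true t vb)`,
`pt (inr (inl (s, t, u))) = Dg s t u (Rf vb')`. -/
theorem good_all {f : E3 → E3} (h : Tiling p lb T) (hf : Good p lb T f)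
    (s : (Bool × Bool × Fin 3) ⊕ (Bool × Bool × Bool) ⊕ (Bool × Bool × Fin 3)) :
    ∃ i, p i = f (pt s) := by
  have g1 := good_c h hf
  have g2 := good_c h g1
  rcases s with ⟨s, t, k⟩ | ⟨s, t, u⟩ | ⟨s, t, k⟩
  · fin_cases k
    · obtain ⟨-, i, -, -, -, -, hi, -, -⟩ := good_d h hf true s t
      refine ⟨i, hi.trans ?_⟩
      simp only [Function.comp]
      congr 1
      apply ext3 <;> simp [Dg, va, pt, cyc, sg] <;> ring
    · obtain ⟨-, i, -, -, -, -, hi, -, -⟩ := good_d h g1 true s t
      refine ⟨i, hi.trans ?_⟩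
      simp only [Function.comp]
      congr 1
      apply ext3 <;> simp [Dg, va, pt, cyc, sg, Cy] <;> ring
    · obtain ⟨-, i, -, -, -, -, hi, -, -⟩ := good_d h g2 true s t
      refine ⟨i, hi.trans ?_⟩
      simp only [Function.comp]
      congr 1
      apply ext3 <;> simp [Dg, va, pt, cyc, sg, Cy] <;> ring
  · obtain ⟨-, -, -, i, -, -, -, -, hi⟩ := good_r h (good_d h hf s t u)
    refine ⟨i, hi.trans ?_⟩
    simp only [Function.comp]
    congr 1
    rw [w_r_vb']
    apply ext3 <;> simp [Dg, pt, cyc, sg] <;> ring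
  · fin_cases k
    · obtain ⟨-, -, i, -, -, -, -, hi, -⟩ := good_d h hf s true t
      refine ⟨i, hi.trans ?_⟩
      simp only [Function.comp]
      congr 1
      cases s <;> cases t <;> apply ext3 <;> simp [Dg, vb, pt, cyc, sg] <;> ring
    · obtain ⟨-, -, i, -, -, -, -, hi, -⟩ := good_d h g1 s true t
      refine ⟨i, hi.trans ?_⟩
      simp only [Function.comp]
      congr 1
      cases s <;> cases t <;> apply ext3 <;> simp [Dg, vb, pt, cyc, sg, Cy] <;> ring
    · obtain ⟨-, -, i, -, -, -, -, hi, -⟩ := good_d h g2 s true t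
      refine ⟨i, hi.trans ?_⟩
      simp only [Function.comp]
      congr 1
      cases s <;> cases t <;> apply ext3 <;> simp [Dg, vb, pt, cyc, sg, Cy] <;> ring

end Pool.Agent.C32
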