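import Pool.Agent.Lib.MP_488b8a_co_W.Iso
import Pool.Agent.Lib.MP_488b8a_co_W.Word

/-! # Project C32, module Uniq: a tiling is the icosahedral one -/

set_option autoImplicit false

namespace Pool.Agent.C32

open Real

/-- PROOF. By `ne`, `one`, `perm1`, `perm2` there is `(i, j, k) ∈ T` with `lb i = true`,
`lb j = false`, `lb k = false`; by `dist` (and `perm1`, `perm2`) the inner products of `p i`,
`p j`, `p k` are `g56`, `g56`, `g66`, those of `va`, `vb`, `vb'` (`va_vb`, `va_vb'`, `vb_vb'`);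
`exists_iso` gives `g` with `Good p lb T g`, and `good_all` gives `g '' range pt ⊆ range p`. The
set on the left has 32 elements (`pt_inj`, `card_idx`), the set on the right at most 32, so they
are equal (`Set.eq_of_subset_of_ncard_le`). -/
theorem tiling_unique {p : Fin 32 → E3} {lb : Fin 32 → Bool}
    {T : Finset (Fin 32 × Fin 32 × Fin 32)} (h : Tiling p lb T) :
    ∃ g : E3 ≃ₗᵢ[ℝ] E3, Set.range p = g '' Set.range pt := by
  obtain ⟨i, j, k, hT, hi, hj, hk⟩ : ∃ i j k, (i, j, k) ∈ T ∧ lb i = true ∧ lb j = false ∧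
      lb k = false := by
    obtain ⟨⟨i, j, k⟩, hT⟩ := h.ne
    rcases h.one i j k hT with ⟨h1, h2, h3⟩ | ⟨h1, h2, h3⟩ | ⟨h1, h2, h3⟩
    · exact ⟨i, j, k, hT, h1, h2, h3⟩
    · exact ⟨j, i, k, h.perm1 i j k hT, h2, h1, h3⟩
    · exact ⟨k, i, j, h.perm2 j k i (h.perm2 i j k hT), h3, h1, h2⟩
  have dij : inner ℝ (p i) (p j) = g56 := by
    rw [h.dist i j k hT, hi, hj]
    simp [GG]
  have dik : inner ℝ (p i) (p k) = g56 := by
    rw [h.dist i k j (h.perm2 j i k (h.perm1 i j k hT)), hi, hk]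
    simp [GG]
  have djk : inner ℝ (p j) (p k) = g66 := by
    rw [h.dist j k i (h.perm2 i j k hT), hj, hk]
    simp [GG]
  have hself : ∀ x y : E3, ‖x‖ = 1 → ‖y‖ = 1 → inner ℝ x x = inner ℝ y y := by
    intro x y hx hy
    rw [real_inner_self_eq_norm_sq, real_inner_self_eq_norm_sq, hx, hy]
  obtain ⟨g, g1, g2, g3⟩ := exists_iso dt_ab (hself _ _ va_norm (h.unit i))
    (hself _ _ vb_norm (h.unit j)) (hself _ _ vb'_norm (h.unit k)) (va_vb.trans dij.symm)
    (va_vb'.trans dik.symm) (vb_vb'.trans djk.symm)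
  have hg : Good p lb T g :=
    ⟨fun u v => g.inner_map_map u v, i, j, k, hT, hi, g1.symm, g2.symm, g3.symm⟩
  refine ⟨g, ?_⟩
  have hsub : g '' Set.range pt ⊆ Set.range p := by
    rintro x ⟨y, ⟨s, rfl⟩, rfl⟩
    obtain ⟨l, hl⟩ := good_all h hg s
    exact ⟨l, hl⟩
  refine (Set.eq_of_subset_of_ncard_le hsub ?_ (Set.finite_range p)).symm
  have h1 : (Set.range p).ncard ≤ 32 := by
    have h2 := Finite.card_range_le p
    rw [Nat.card_fin] at h2
    exact h2
  have h3 : (g '' Set.range pt).ncard = 32 := by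
    rw [Set.ncard_image_of_injective _ g.injective]
    have h4 := Nat.card_range_of_injective pt_inj
    exact h4.trans (Nat.card_eq_fintype_card.trans card_idx)
  rw [h3]
  exact h1

end Pool.Agent.C32
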