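import Pool.Agent.Lib.MP_488b8a_co_W.LowB
import Pool.Agent.Lib.MP_488b8a_co_W.LimC
import Pool.Agent.Lib.MP_488b8a_co_W.CovI
import Pool.Agent.Lib.MP_488b8a_co_W.Uniq

/-! # Project C32, module Fin32: the final theorem -/

set_option autoImplicit false

namespace Pool.Agent.C32

open Real

/-- caps and inner products -/
private theorem angle_le_iff {x y : E3} (hx : ‖x‖ = 1) (hy : ‖y‖ = 1) {r : ℝ} (h0 : 0 ≤ r)
    (h1 : r ≤ π) : InnerProductGeometry.angle x y ≤ r ↔ cos r ≤ inner ℝ x y := by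
  have h : cos (InnerProductGeometry.angle x y) = inner ℝ x y := by
    rw [InnerProductGeometry.cos_angle, hx, hy]
    ring
  rw [← h]
  constructor
  · intro hr
    exact cos_le_cos_of_nonneg_of_le_pi (InnerProductGeometry.angle_nonneg x y) h1 hr
  · intro hr
    by_contra hc
    push Not at hc
    have := cos_lt_cos_of_nonneg_of_le_pi h0 (InnerProductGeometry.angle_le_pi x y) hc
    linarith

private theorem kap_lt_one : kap < 1 := lt_trans kap_hi (by norm_num)

/-- the covering radius -/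
private theorem cap_arccos : capRadius 32 = arccos kap := by
  have hmem : arccos kap ∈ {r : ℝ | 0 ≤ r ∧ ∃ p : Fin 32 → EuclideanSpace ℝ (Fin 3),
      (∀ i, ‖p i‖ = 1) ∧ ∀ x : EuclideanSpace ℝ (Fin 3), ‖x‖ = 1 →
        ∃ i, InnerProductGeometry.angle x (p i) ≤ r} := by
    refine ⟨arccos_nonneg _, ?_⟩
    have e : Fin 32 ≃ (Bool × Bool × Fin 3) ⊕ (Bool × Bool × Bool) ⊕ (Bool × Bool × Fin 3) :=
      (Fintype.equivFinOfCardEq card_idx).symm
    refine ⟨fun i => pt (e i), fun i => pt_norm _, fun x hx => ?_⟩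
    obtain ⟨s, hs⟩ := ico_covers x hx
    refine ⟨e.symm s, ?_⟩
    simp only [Equiv.apply_symm_apply]
    rw [angle_le_iff hx (pt_norm s) (arccos_nonneg _) (arccos_le_pi _),
      cos_arccos (by linarith [kap_pos]) kap_lt_one.le]
    exact hs
  refine le_antisymm (csInf_le ⟨0, fun r hr => hr.1⟩ hmem) (le_csInf ⟨_, hmem⟩ ?_)
  rintro r ⟨h0, p, hp, hc⟩
  by_contra hlt
  push Not at hlt
  have hr : r ≤ π := hlt.le.trans (arccos_le_pi _)
  have h := covers_le (p := p) (κ := cos r) hp (fun x hx => by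
    obtain ⟨i, hi⟩ := hc x hx
    exact ⟨i, (angle_le_iff hx (hp i) h0 hr).1 hi⟩)
  have h2 : cos (arccos kap) < cos r := cos_lt_cos_of_nonneg_of_le_pi h0 (arccos_le_pi _) hlt
  rw [cos_arccos (by linarith [kap_pos]) kap_lt_one.le] at h2
  linarith

theorem cap_value : capRadius 32 = arctan √(9 - √5 - √(30 + 6 * √5)) := by
  rw [cap_arccos, arccos_eq_arctan kap_pos]
  congr 1
  have h := kap_sq
  have hk := kap_pos
  have hk1 := kap_lt_one
  have hA : 9 - √5 - √(30 + 6 * √5) = (1 - kap ^ 2) / kap ^ 2 := by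
    rw [eq_div_iff (by positivity)]
    linarith
  rw [hA, sqrt_div (by nlinarith), sqrt_sq hk.le]

theorem cap_unique (p : Fin 32 → E3) (hp : ∀ i, ‖p i‖ = 1) :
    (∀ x : E3, ‖x‖ = 1 → ∃ i, InnerProductGeometry.angle x (p i) ≤ capRadius 32) ↔
      ∃ g : E3 ≃ₗᵢ[ℝ] E3, Set.range p = g '' Set.range pt := by
  rw [cap_arccos]
  have hcos : cos (arccos kap) = kap := cos_arccos (by linarith [kap_pos]) kap_lt_one.le
  constructor
  · intro hc
    have hC : Covers p kap := fun x hx => by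
      obtain ⟨i, hi⟩ := hc x hx
      refine ⟨i, ?_⟩
      have := (angle_le_iff hx (hp i) (arccos_nonneg _) (arccos_le_pi _)).1 hi
      rwa [hcos] at this
    obtain ⟨lb, T, hT⟩ := exists_tiling hp hC
    exact tiling_unique hT
  · rintro ⟨g, hg⟩ x hx
    obtain ⟨s, hs⟩ := ico_covers (g.symm x) (by rw [LinearIsometryEquiv.norm_map, hx])
    have h1 : g (pt s) ∈ Set.range p := by
      rw [hg]
      exact ⟨pt s, ⟨s, rfl⟩, rfl⟩
    obtain ⟨i, hi⟩ := h1
    refine ⟨i, ?_⟩
    rw [angle_le_iff hx (hp i) (arccos_nonneg _) (arccos_le_pi _), hcos, hi]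
    have h2 : inner ℝ (g.symm x) (pt s) = inner ℝ x (g (pt s)) := by
      rw [← LinearIsometryEquiv.inner_map_map g, LinearIsometryEquiv.apply_symm_apply]
    rw [← h2]
    exact hs

end Pool.Agent.C32
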