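import Pool.Agent.Lib.MP_488b8a_co_W.Defs

/-! # Project C32, module Fun: the function `φ_c(z) = arg (c sin z + i cos z)` -/

set_option autoImplicit false

namespace Pool.Agent.C32

open Real

/-- PROOF. The real part `c sin z` is positive; the argument of a complex number with positive real
part is `arctan (im / re)` (use `Complex.arg_of_re_nonneg` and `Real.arctan_eq_arcsin`, or
`Complex.tan_arg` with `|arg| < π/2`). -/
theorem ph_eq {c z : ℝ} (hc : 0 < c) (h0 : 0 < z) (h1 : z < π) :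
    ph c z = arctan (cos z / (c * sin z)) := by
  have h2 : 0 < sin z := sin_pos_of_pos_of_lt_pi h0 h1
  have h3 : |Complex.arg ⟨c * sin z, cos z⟩| < π / 2 :=
    Complex.abs_arg_lt_pi_div_two_iff.2 (Or.inl (mul_pos hc h2))
  rw [abs_lt] at h3
  have h4 := Complex.tan_arg ⟨c * sin z, cos z⟩
  unfold ph
  rw [← Real.arctan_tan h3.1 h3.2, h4]

/-- PROOF. `ph c 0 = arg i = π/2`. -/
theorem ph_zero (c : ℝ) : ph c 0 = π / 2 := by
  unfold ph
  rw [sin_zero, cos_zero, mul_zero]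
  exact Complex.arg_I

/-- PROOF. `arg (-i) = -π/2`. -/
theorem ph_pi (c : ℝ) : ph c π = -(π / 2) := by
  unfold ph
  rw [sin_pi, cos_pi, mul_zero]
  have h1 : (⟨0, -1⟩ : ℂ) = -Complex.I := by
    apply Complex.ext <;> simp
  rw [h1]
  exact Complex.arg_neg_I

/-- PROOF. The argument of a positive real number is `0`. -/
theorem ph_half {c : ℝ} (hc : 0 < c) : ph c (π / 2) = 0 := by
  unfold ph
  rw [sin_pi_div_two, cos_pi_div_two, mul_one]
  exact Complex.arg_ofReal_of_nonneg hc.le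

/-- PROOF. `sin (π - z) = sin z`, `cos (π - z) = - cos z`; `arg` of the conjugate (the number is not
a negative real number); or from `ph_eq`, `ph_zero`, `ph_pi`. -/
theorem ph_pi_sub {c z : ℝ} (hc : 0 < c) (h0 : 0 ≤ z) (h1 : z ≤ π) :
    ph c (π - z) = -ph c z := by
  have h2 : (⟨c * sin (π - z), cos (π - z)⟩ : ℂ) =
      (starRingEnd ℂ) ⟨c * sin z, cos z⟩ := by
    rw [sin_pi_sub, cos_pi_sub]
    apply Complex.ext <;> simp
  unfold ph
  rw [h2, Complex.arg_conj, if_neg]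
  intro h3
  have h4 : |Complex.arg ⟨c * sin z, cos z⟩| ≤ π / 2 :=
    Complex.abs_arg_le_pi_div_two_iff.2 (mul_nonneg hc.le (sin_nonneg_of_nonneg_of_le_pi h0 h1))
  rw [h3, abs_of_pos pi_pos] at h4
  linarith [pi_pos]

/-- PROOF. `Complex.arg` is continuous on the slit plane; `c sin z + i cos z` lies in it: if
`0 < z < π` the real part is positive, at `z = 0, π` the imaginary part is not zero. -/
theorem ph_cont : ContinuousOn (fun x : ℝ × ℝ => ph x.1 x.2)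
    {x : ℝ × ℝ | 0 < x.1 ∧ 0 ≤ x.2 ∧ x.2 ≤ π} := by
  intro x hx
  have h1 : (⟨x.1 * sin x.2, cos x.2⟩ : ℂ) ∈ Complex.slitPlane := by
    rw [Complex.mem_slitPlane_iff]
    rcases eq_or_lt_of_le hx.2.1 with h2 | h2
    · right
      show cos x.2 ≠ 0
      rw [← h2, cos_zero]
      exact one_ne_zero
    · rcases eq_or_lt_of_le hx.2.2 with h3 | h3
      · right
        show cos x.2 ≠ 0
        rw [h3, cos_pi]
        norm_num
      · left
        exact mul_pos hx.1 (sin_pos_of_pos_of_lt_pi h2 h3)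
  have h4 : Continuous fun x : ℝ × ℝ => (⟨x.1 * sin x.2, cos x.2⟩ : ℂ) := by
    have h5 : (fun x : ℝ × ℝ => (⟨x.1 * sin x.2, cos x.2⟩ : ℂ)) =
        fun x => ((x.1 * sin x.2 : ℝ) : ℂ) + ((cos x.2 : ℝ) : ℂ) * Complex.I := by
      funext x
      exact Complex.mk_eq_add_mul_I _ _
    rw [h5]
    fun_prop
  have h6 : ContinuousAt (fun x : ℝ × ℝ => Complex.arg ⟨x.1 * sin x.2, cos x.2⟩) x :=
    ContinuousAt.comp (f := fun x : ℝ × ℝ => (⟨x.1 * sin x.2, cos x.2⟩ : ℂ))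
      (g := Complex.arg) (Complex.continuousAt_arg h1) h4.continuousAt
  exact h6.continuousWithinAt

theorem ph_cont1 {c : ℝ} (hc : 0 < c) : ContinuousOn (ph c) (Set.Icc 0 π) := by
  exact ph_cont.comp (f := fun z : ℝ => ((c, z) : ℝ × ℝ)) (t := {x : ℝ × ℝ | 0 < x.1 ∧
    0 ≤ x.2 ∧ x.2 ≤ π}) (by fun_prop) fun z hz => ⟨hc, hz.1, hz.2⟩

private theorem fun_den {c : ℝ} (hc : 0 < c) (z : ℝ) : 0 < cos z ^ 2 + c ^ 2 * sin z ^ 2 := by
  have h7 := sin_sq_add_cos_sq z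
  rcases eq_or_ne (sin z) 0 with h | h
  · rw [h] at h7 ⊢
    nlinarith
  · have h2 : 0 < sin z ^ 2 := by positivity
    have h3 : 0 < c ^ 2 * sin z ^ 2 := by positivity
    have h4 := sq_nonneg (cos z)
    linarith

/-- PROOF. Near `z` use `ph_eq`; the derivative of `arctan (cos z / (c sin z))` is
`(-1 / (c sin^2 z)) / (1 + cos^2 z / (c^2 sin^2 z)) = - c / (c^2 sin^2 z + cos^2 z)`. -/
theorem ph_deriv {c z : ℝ} (hc : 0 < c) (h0 : 0 < z) (h1 : z < π) :
    HasDerivAt (ph c) (-dph c z) z := by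
  have h2 : 0 < sin z := sin_pos_of_pos_of_lt_pi h0 h1
  have h3 : c * sin z ≠ 0 := (mul_pos hc h2).ne'
  have h4 : HasDerivAt (fun z => cos z / (c * sin z))
      ((-sin z * (c * sin z) - cos z * (c * cos z)) / (c * sin z) ^ 2) z :=
    (hasDerivAt_cos z).div ((hasDerivAt_sin z).const_mul c) h3
  have h5 := h4.arctan
  have h6 : ph c =ᶠ[nhds z] fun z => arctan (cos z / (c * sin z)) := by
    filter_upwards [Ioo_mem_nhds h0 h1] with y hy
    exact ph_eq hc hy.1 hy.2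
  refine (h5.congr_of_eventuallyEq h6).congr_deriv ?_
  have h7 := sin_sq_add_cos_sq z
  have h8 : 0 < cos z ^ 2 + c ^ 2 * sin z ^ 2 := fun_den hc z
  unfold dph
  have h9 : 1 + (cos z / (c * sin z)) ^ 2 = (cos z ^ 2 + c ^ 2 * sin z ^ 2) /
      (c * sin z) ^ 2 := by
    field_simp
    ring
  have h10 : -sin z * (c * sin z) - cos z * (c * cos z) = -c := by
    linear_combination (-c) * h7
  rw [h9, h10]
  field_simp

theorem dph_pos {c : ℝ} (hc : 0 < c) (z : ℝ) : 0 < dph c z := by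
  exact div_pos hc (fun_den hc z)

/-- PROOF. `ph_cont1`, negative derivative in the interior (`strictAntiOn_of_deriv_neg`). -/
theorem ph_anti {c : ℝ} (hc : 0 < c) : StrictAntiOn (ph c) (Set.Icc 0 π) := by
  refine strictAntiOn_of_deriv_neg (convex_Icc 0 π) (ph_cont1 hc) fun z hz => ?_
  rw [interior_Icc] at hz
  rw [(ph_deriv hc hz.1 hz.2).deriv]
  exact neg_neg_of_pos (dph_pos hc z)

private theorem ph_mono_c_lt' {c c' z : ℝ} (hc : 0 < c) (hcc : c < c') (h0 : 0 < z)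
    (h1 : z < π / 2) : ph c' z < ph c z := by
  have hp := pi_pos
  have h2 : 0 < sin z := sin_pos_of_pos_of_lt_pi h0 (by linarith)
  have h3 : 0 < cos z := cos_pos_of_mem_Ioo ⟨by linarith, h1⟩
  rw [ph_eq hc h0 (by linarith), ph_eq (hc.trans hcc) h0 (by linarith)]
  refine arctan_strictMono ?_
  exact div_lt_div_of_pos_left h3 (mul_pos hc h2) (mul_lt_mul_of_pos_right hcc h2)

/-- PROOF. For `0 < z < π/2` use `ph_eq` and monotonicity of `arctan`; the end points are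
`ph_zero`, `ph_half`. -/
theorem ph_mono_c {c c' z : ℝ} (hc : 0 < c) (hcc : c ≤ c') (h0 : 0 ≤ z) (h1 : z ≤ π / 2) :
    ph c' z ≤ ph c z := by
  rcases eq_or_lt_of_le h0 with h2 | h2
  · rw [← h2, ph_zero, ph_zero]
  rcases eq_or_lt_of_le h1 with h3 | h3
  · rw [h3, ph_half hc, ph_half (hc.trans_le hcc)]
  rcases eq_or_lt_of_le hcc with h4 | h4
  · rw [h4]
  · exact (ph_mono_c_lt' hc h4 h2 h3).le

theorem ph_mono_c_lt {c c' z : ℝ} (hc : 0 < c) (hcc : c < c') (h0 : 0 < z) (h1 : z < π / 2) :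
    ph c' z < ph c z := by
  exact ph_mono_c_lt' hc hcc h0 h1

theorem ph_nonneg {c z : ℝ} (hc : 0 < c) (h0 : 0 ≤ z) (h1 : z ≤ π / 2) : 0 ≤ ph c z := by
  have hp := pi_pos
  rw [← ph_half hc]
  rcases eq_or_lt_of_le h1 with h2 | h2
  · rw [h2]
  · exact (ph_anti hc ⟨h0, by linarith⟩ ⟨by linarith, by linarith⟩ h2).le

theorem ph_le {c z : ℝ} (hc : 0 < c) (h0 : 0 ≤ z) (h1 : z ≤ π) : ph c z ≤ π / 2 := by
  have hp := pi_pos
  rw [← ph_zero c]
  rcases eq_or_lt_of_le h0 with h2 | h2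
  · rw [← h2]
  · exact (ph_anti hc ⟨le_rfl, hp.le⟩ ⟨h0, h1⟩ h2).le

theorem ph_lt {c z : ℝ} (hc : 0 < c) (h0 : 0 < z) (h1 : z ≤ π) : ph c z < π / 2 := by
  have hp := pi_pos
  rw [← ph_zero c]
  exact ph_anti hc ⟨le_rfl, hp.le⟩ ⟨h0.le, h1⟩ h0

theorem ph_gt {c z : ℝ} (hc : 0 < c) (h0 : 0 ≤ z) (h1 : z < π) : -(π / 2) < ph c z := by
  have hp := pi_pos
  rw [← ph_pi c]
  exact ph_anti hc ⟨h0, h1.le⟩ ⟨hp.le, le_rfl⟩ h1

private theorem fun_ne {c : ℝ} (hc : 0 < c) (z : ℝ) : (⟨c * sin z, cos z⟩ : ℂ) ≠ 0 := by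
  intro h
  have h1 : c * sin z = 0 := congrArg Complex.re h
  have h2 : cos z = 0 := congrArg Complex.im h
  have h3 := fun_den hc z
  have h4 : c ^ 2 * sin z ^ 2 = (c * sin z) ^ 2 := by ring
  rw [h4, h1, h2] at h3
  norm_num at h3

private theorem fun_norm (c z : ℝ) :
    ‖(⟨c * sin z, cos z⟩ : ℂ)‖ = √(cos z ^ 2 + c ^ 2 * sin z ^ 2) := by
  rw [Complex.norm_eq_sqrt_sq_add_sq]
  congr 1
  ring

/-- PROOF. `Complex.cos_arg`; the absolute value of `c sin z + i cos z` is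
`sqrt (cos^2 z + c^2 sin^2 z)`, which is not zero. -/
theorem cos_ph {c z : ℝ} (hc : 0 < c) :
    cos (ph c z) = c * sin z / √(cos z ^ 2 + c ^ 2 * sin z ^ 2) := by
  unfold ph
  rw [Complex.cos_arg (fun_ne hc z), fun_norm]

/-- PROOF. `Complex.sin_arg`. -/
theorem sin_ph {c z : ℝ} (hc : 0 < c) :
    sin (ph c z) = cos z / √(cos z ^ 2 + c ^ 2 * sin z ^ 2) := by
  unfold ph
  rw [Complex.sin_arg, fun_norm]

end Pool.Agent.C32
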