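import Pool.Agent.Lib.MP_488b8a_co_W.Vec

/-! # Project C32, module Iso: an isometry from equal Gram matrices -/

set_option autoImplicit false

namespace Pool.Agent.C32

open Real

/-- The linear map which sends `a`, `b`, `c` to `x`, `y`, `z`. -/
private noncomputable def isoMap (a b c x y z : E3) : E3 →ₗ[ℝ] E3 where
  toFun u := (dt u b c / dt a b c) • x + (dt a u c / dt a b c) • y + (dt a b u / dt a b c) • z
  map_add' u v := by
    have e1 : dt (u + v) b c = dt u b c + dt v b c := by
      simp only [dt, PiLp.add_apply]; ring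
    have e2 : dt a (u + v) c = dt a u c + dt a v c := by
      simp only [dt, PiLp.add_apply]; ring
    have e3 : dt a b (u + v) = dt a b u + dt a b v := by
      simp only [dt, PiLp.add_apply]; ring
    rw [e1, e2, e3, add_div, add_div, add_div, add_smul, add_smul, add_smul]
    abel
  map_smul' r u := by
    have e1 : dt (r • u) b c = r * dt u b c := by
      simp only [dt, PiLp.smul_apply, smul_eq_mul]; ring
    have e2 : dt a (r • u) c = r * dt a u c := by
      simp only [dt, PiLp.smul_apply, smul_eq_mul]; ring
    have e3 : dt a b (r • u) = r * dt a b u := by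
      simp only [dt, PiLp.smul_apply, smul_eq_mul]; ring
    rw [e1, e2, e3, mul_div_assoc, mul_div_assoc, mul_div_assoc, mul_smul, mul_smul, mul_smul,
      RingHom.id_apply, smul_add, smul_add]

private theorem inner_comb (a b c : E3) (α β γ α' β' γ' : ℝ) :
    inner ℝ (α • a + β • b + γ • c) (α' • a + β' • b + γ' • c) =
      α * α' * inner ℝ a a + β * β' * inner ℝ b b + γ * γ' * inner ℝ c c +
      (α * β' + β * α') * inner ℝ a b + (α * γ' + γ * α') * inner ℝ a c +
      (β * γ' + γ * β') * inner ℝ b c := by
  simp only [inner_eq, PiLp.add_apply, PiLp.smul_apply, smul_eq_mul]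
  ring

/-- PROOF. Let `D = dt a b c` and
`L u = (dt u b c / D) • x + (dt a u c / D) • y + (dt a b u / D) • z`, a linear map. By `cramer` for
`u` and `v` in the basis `a`, `b`, `c` and the equality of the Gram matrices
`inner (L u) (L v) = inner u v`, so `L` is a linear isometry of `E3`
(`LinearMap.isometryOfInner`), hence a linear isometry equivalence
(`LinearIsometry.toLinearIsometryEquiv`, equal finite dimension). `L a = x` because
`dt a b c / D = 1`, `dt a a c = 0`, `dt a b a = 0`, and so on. -/
theorem exists_iso {a b c x y z : E3} (hd : dt a b c ≠ 0) (h11 : inner ℝ a a = inner ℝ x x)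
    (h22 : inner ℝ b b = inner ℝ y y) (h33 : inner ℝ c c = inner ℝ z z)
    (h12 : inner ℝ a b = inner ℝ x y) (h13 : inner ℝ a c = inner ℝ x z)
    (h23 : inner ℝ b c = inner ℝ y z) :
    ∃ g : E3 ≃ₗᵢ[ℝ] E3, g a = x ∧ g b = y ∧ g c = z := by
  have hL : ∀ u v, inner ℝ (isoMap a b c x y z u) (isoMap a b c x y z v) = inner ℝ u v := by
    intro u v
    have hu := cramer a b c u hd
    have hv := cramer a b c v hd
    have e : inner ℝ u v = inner ℝ ((dt u b c / dt a b c) • a + (dt a u c / dt a b c) • b +
        (dt a b u / dt a b c) • c) ((dt v b c / dt a b c) • a + (dt a v c / dt a b c) • b +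
        (dt a b v / dt a b c) • c) := by rw [← hu, ← hv]
    rw [e, inner_comb, h11, h22, h33, h12, h13, h23, ← inner_comb]
    rfl
  set L : E3 →ₗᵢ[ℝ] E3 := (isoMap a b c x y z).isometryOfInner hL with hLd
  have hLv : ∀ u, L u = (dt u b c / dt a b c) • x + (dt a u c / dt a b c) • y +
      (dt a b u / dt a b c) • z := fun u => rfl
  refine ⟨L.toLinearIsometryEquiv rfl, ?_, ?_, ?_⟩
  · rw [LinearIsometry.toLinearIsometryEquiv_apply, hLv, div_self hd, dt_self12, dt_self13]
    simp
  · rw [LinearIsometry.toLinearIsometryEquiv_apply, hLv, div_self hd, dt_self12, dt_self23]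
    simp
  · rw [LinearIsometry.toLinearIsometryEquiv_apply, hLv, div_self hd, dt_self13, dt_self23]
    simp

end Pool.Agent.C32
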