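import Pool.Agent.Lib.MP_488b8a_co_W.Low
import Pool.Agent.Lib.MP_488b8a_co_W.Apx

/-! # Project C32, module Lim: a sequence of generic perturbations with constant combinatorics -/

set_option autoImplicit false

namespace Pool.Agent.C32

open Real Filter Topology

/-- generic configurations converging to `p`, with constant set `T` of facets and labels `lb` -/
structure LimData (p : Fin 32 → E3) (lb : Fin 32 → Bool) (T : Finset (Fin 32 × Fin 32 × Fin 32))
    (q : ℕ → Fin 32 → E3) (κ : ℕ → ℝ) : Prop where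
  gen : ∀ m, Gen (q m)
  fac : ∀ m, facets (q m) = T
  labs : ∀ m i, lab (q m) i = lb i
  lim : ∀ i, Tendsto (fun m => q m i) atTop (𝓝 (p i))
  klim : Tendsto κ atTop (𝓝 kap)
  kpos : ∀ m, 9 / 10 < κ m
  cov : ∀ m, Covers (q m) (κ m)

/-- PROOF. For `m ∈ ℕ` let `ε m = 1/(100 (m+1))` and `q' m` generic with `‖q' m i - p i‖ < ε m`
(`gen_approx`), `κ' m = kap - ε m > 9/10` (`kap_lo`), `covers_approx`. The pair
`(facets (q' m), lab (q' m))` takes values in a finite type, so it is constant `(T, lb)` on an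
infinite set of `m`, i.e. along a subsequence (`Nat.orderEmbeddingOfSet` or
`Filter.extraction_of_frequently_atTop`). -/
theorem exists_limdata {p : Fin 32 → E3} (hp : ∀ i, ‖p i‖ = 1) (hC : Covers p kap) :
    ∃ lb T q κ, LimData p lb T q κ := by
  obtain ⟨ε, hε⟩ : ∃ ε : ℕ → ℝ, ε = fun m : ℕ => 1 / 100 * (1 / ((m : ℝ) + 1)) := ⟨_, rfl⟩
  have hpos : ∀ m, 0 < ε m := fun m => by
    rw [hε]
    positivity
  have hle : ∀ m, ε m ≤ 1 / 100 := fun m => by
    rw [hε]
    have h1 : 1 / ((m : ℝ) + 1) ≤ 1 := by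
      rw [div_le_one (by positivity)]
      have : (0 : ℝ) ≤ m := Nat.cast_nonneg m
      linarith
    simp only
    linarith
  have hlim : Tendsto ε atTop (𝓝 0) := by
    have h1 := (tendsto_one_div_add_atTop_nhds_zero_nat (𝕜 := ℝ)).const_mul (1 / 100)
    rw [mul_zero] at h1
    rw [hε]
    exact h1
  choose q hq hqp using fun m => gen_approx p hp (hpos m)
  obtain ⟨⟨T, lb⟩, hy⟩ := Finite.exists_infinite_fiber
    (fun m => ((facets (q m), lab (q m)) :
      Finset (Fin 32 × Fin 32 × Fin 32) × (Fin 32 → Bool)))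
  have hfr : ∃ᶠ m in atTop, (facets (q m), lab (q m)) = (T, lb) :=
    Nat.frequently_atTop_iff_infinite.2 (Set.infinite_coe_iff.1 hy)
  obtain ⟨φ, hφ, h⟩ := extraction_of_frequently_atTop hfr
  have hφt : Tendsto φ atTop atTop := hφ.tendsto_atTop
  refine ⟨lb, T, fun m => q (φ m), fun m => kap - ε (φ m), ?_⟩
  have hk := kap_lo
  refine ⟨fun m => hq _, fun m => congrArg Prod.fst (h m),
    fun m i => congrFun (congrArg Prod.snd (h m)) i, fun i => ?_, ?_, fun m => ?_, fun m => ?_⟩
  · rw [tendsto_iff_norm_sub_tendsto_zero]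
    exact squeeze_zero (fun m => norm_nonneg _) (fun m => (hqp (φ m) i).le) (hlim.comp hφt)
  · have h1 := (hlim.comp hφt).const_sub kap
    rw [sub_zero] at h1
    exact h1
  · have := hle (φ m)
    linarith
  · exact covers_approx hC fun i => (hqp (φ m) i).le

end Pool.Agent.C32
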