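import Pool.Agent.Lib.MP_488b8a_co_W.Num2

/-! # Project C32, module LocO: the local inequality for obtuse triangles

`d = π - (x + y)` is the half gap of the long side, `x`, `y` are the other half gaps,
`x + y ≤ π/2`; the angles are `C = ph c x + ph c y` (opposite the long side),
`A = ph c y - ph c (x + y)`, `B = ph c x - ph c (x + y)`. -/

set_option autoImplicit false

namespace Pool.Agent.C32

open Real

/-- PROOF. `ph_sub_mono` (`c ≥ kap ≥ 3/5`), `ph_mid`, `two_half_mono` up to `π/2`,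
`ph_half`, `ph_quarter`, `num_a`. -/
theorem obt_sum {c x y : ℝ} (hc : kap ≤ c) (hc1 : c ≤ 1) (hx : 0 ≤ x) (hy : 0 ≤ y)
    (hxy : x + y ≤ π / 2) : 2 * (ph c x + ph c y - ph c (x + y)) ≤ 3.3027 := by
  have hk : (3 : ℝ) / 5 ≤ kap := by have := kap_lo; linarith
  have hk1 : kap < 1 := by have := kap_hi; linarith
  have hpi := pi_pos
  have h1 := ph_sub_mono hk hc hc1 hx hy hxy
  have h2 := ph_mid kap_pos hk1.le hx (by linarith) hy (by linarith)
  have h3 : 2 * ph kap ((x + y) / 2) - ph kap (x + y) ≤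
      2 * ph kap ((π / 2) / 2) - ph kap (π / 2) :=
    two_half_mono kap_pos hk1 ⟨by linarith, hxy⟩ ⟨by linarith, le_rfl⟩ hxy
  rw [ph_half kap_pos, show π / 2 / 2 = π / 4 by ring, ph_quarter] at h3
  have h4 := num_a
  linarith

/-- PROOF. As before, with `two_half_mono` up to `s_1 = 2 arctan (2/3)`:
`2 (2 ph kap (s_1/2) - ph kap s_1) ≤ 2 (2.04 - 0.424)`. -/
theorem obt_sum_small {c x y : ℝ} (hc : kap ≤ c) (hc1 : c ≤ 1) (hx : 0 ≤ x) (hy : 0 ≤ y)
    (hxy : x + y ≤ 2 * arctan (2 / 3)) :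
    2 * (ph c x + ph c y - ph c (x + y)) ≤ 3.232 := by
  have hk : (3 : ℝ) / 5 ≤ kap := by have := kap_lo; linarith
  have hk1 : kap < 1 := by have := kap_hi; linarith
  have hpi := pi_pos
  obtain ⟨hs0, hs1⟩ := s1_bounds
  have h1 := ph_sub_mono hk hc hc1 hx hy (hxy.trans hs1.le)
  have h2 := ph_mid kap_pos hk1.le hx (by linarith) hy (by linarith)
  have h3 : 2 * ph kap ((x + y) / 2) - ph kap (x + y) ≤
      2 * ph kap ((2 * arctan (2 / 3)) / 2) - ph kap (2 * arctan (2 / 3)) :=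
    two_half_mono kap_pos hk1 ⟨by linarith, by linarith⟩ ⟨by linarith, hs1.le⟩ hxy
  rw [ph_s1, show 2 * arctan (2 / 3) / 2 = arctan (2 / 3) by ring, ph_s1_half] at h3
  have h4 := num_e
  have h5 := num_f
  linarith

/-- PROOF. `ph_mono_c`, `ph_mid`, `ph_anti`, `ph_s1_half`, `num_e`. -/
theorem obt_C {c x y : ℝ} (hc : kap ≤ c) (hc1 : c ≤ 1) (hx : 0 ≤ x) (hy : 0 ≤ y)
    (hxy : x + y ≤ π / 2) (hs : 2 * arctan (2 / 3) ≤ x + y) : ph c x + ph c y < 2.04 := by
  have hk1 : kap < 1 := by have := kap_hi; linarith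
  have hpi := pi_pos
  obtain ⟨hs0, hs1⟩ := s1_bounds
  have h1 := ph_mono_c kap_pos hc hx (by linarith)
  have h1' := ph_mono_c kap_pos hc hy (by linarith)
  have h2 := ph_mid kap_pos hk1.le hx (by linarith) hy (by linarith)
  have h3 : ph kap ((x + y) / 2) ≤ ph kap (arctan (2 / 3)) :=
    (ph_anti kap_pos).antitoneOn ⟨by linarith, by linarith⟩ ⟨by linarith, by linarith⟩
      (by linarith)
  rw [ph_s1_half] at h3
  have h4 := num_e
  linarith

/-- prices `u` (vertex opposite the long side), `v`, `w` in `{1, P5}`. PROOF. The left side is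
`u C + v A + w B` with `A, B, C ≥ 0`, `A, B ≤ π/2`, `C ≤ π`, `S = A + B + C ≤ 3.3027`.
`(1,1,1)`: `S`, and `π + bb/30 > 3.3569`.
`(P5,P5,P5)`: `P5 S < 1.0565 * 3.3027 < 3.4894`, and `-bb/15 + 6π P5/5 > 3.552`.
Two prices `P5`: `P5 S - (P5 - 1) X`, `X` the angle with price `1`; the bound is `> 3.4871`. If
`X ≥ 0.07` it is `≤ 3.4894 - 0.05649 * 0.07 < 3.4855`. If `X < 0.07`, then `X ≠ C` would be needed:
if `X = C` then `C = ph c x + ph c y ≥ S/2`, `S ≤ 0.14` (because `S = 2 (C - ph c (x+y)) ≤ 2 C`),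
fine; if `X = A` then `S = 2 (A + ph c x) ≤ 0.14 + π` and `P5 S < 3.4671`; the same for `B`.
One price `P5`: `S + (P5 - 1) X`, `X` the angle with price `P5`, the bound is `> 3.42201`: if
`X = A` or `B`, `X ≤ π/2`: `3.3027 + 0.0565 * 1.5708 < 3.3915`; if `X = C` and
`x + y ≥ s_1`: `3.3027 + 0.0565 * 2.04 < 3.41797`; if `x + y ≤ s_1`:
`3.232 + 0.0565 * π < 3.4096`. -/
theorem locO {c x y : ℝ} (l₁ l₂ l₃ : Bool) (hc : kap ≤ c) (hc1 : c ≤ 1) (hx : 0 ≤ x) (hy : 0 ≤ y)
    (hxy : x + y ≤ π / 2) :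
    PP l₁ * (ph c x + ph c y) + PP l₂ * (ph c y - ph c (x + y)) +
      PP l₃ * (ph c x - ph c (x + y)) < RR l₁ l₂ l₃ := by
  have hpi := pi_pos
  have hpi1 := pi_gt_d6
  have hpi2 := pi_lt_d6
  have hc0 : 0 < c := kap_pos.trans_le hc
  have hS := obt_sum hc hc1 hx hy hxy
  have hS' : 2 * arctan (2 / 3) ≤ x + y ∧ ph c x + ph c y < 2.04 ∨
      2 * (ph c x + ph c y - ph c (x + y)) ≤ 3.232 := by
    rcases le_total (2 * arctan (2 / 3)) (x + y) with h | h
    · exact Or.inl ⟨h, obt_C hc hc1 hx hy hxy h⟩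
    · exact Or.inr (obt_sum_small hc hc1 hx hy h)
  have hp0 := ph_nonneg hc0 hx (by linarith)
  have hq0 := ph_nonneg hc0 hy (by linarith)
  have hr0 := ph_nonneg hc0 (add_nonneg hx hy) hxy
  have hp1 := ph_le hc0 hx (by linarith)
  have hq1 := ph_le hc0 hy (by linarith)
  have hA : ph c (x + y) ≤ ph c y :=
    (ph_anti hc0).antitoneOn ⟨hy, by linarith⟩ ⟨by linarith, by linarith⟩ (by linarith)
  have hB : ph c (x + y) ≤ ph c x :=
    (ph_anti hc0).antitoneOn ⟨hx, by linarith⟩ ⟨by linarith, by linarith⟩ (by linarith)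
  have e1 := P5_lo
  have e2 := P5_hi
  generalize ph c x = p at *
  generalize ph c y = q at *
  generalize ph c (x + y) = r at *
  have k1 : P5 * (p + q) ≤ 1.0565 * (p + q) :=
    mul_le_mul_of_nonneg_right e2.le (by linarith)
  have k2 : P5 * (q - r) ≤ 1.0565 * (q - r) :=
    mul_le_mul_of_nonneg_right e2.le (by linarith)
  have k3 : P5 * (p - r) ≤ 1.0565 * (p - r) :=
    mul_le_mul_of_nonneg_right e2.le (by linarith)
  have k4 : 1.05649 * π ≤ P5 * π := mul_le_mul_of_nonneg_right e1.le hpi.le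
  cases l₁ <;> cases l₂ <;> cases l₃ <;>
    simp only [PP, RR, LL, bb, if_true, if_false, Bool.false_eq_true]
  · linarith
  · linarith
  · linarith
  · -- `C` has the price `1`
    rcases le_total 0.07 (p + q) with h | h <;> linarith
  · rcases hS' with ⟨-, h⟩ | h <;> linarith
  · -- `A` has the price `1`
    rcases le_total 0.07 (q - r) with h | h <;> linarith
  · rcases le_total 0.07 (p - r) with h | h <;> linarith
  · linarith

end Pool.Agent.C32
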