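import Pool.Agent.Lib.MP_488b8a_co_W.LocA
import Pool.Agent.Lib.MP_488b8a_co_W.LocO

/-! # Project C32, module Loc: the local inequality -/

set_option autoImplicit false

namespace Pool.Agent.C32

open Real

private theorem loc_obt {c a b d : ℝ} (l₁ l₂ l₃ : Bool) (hc : kap ≤ c) (hc1 : c ≤ 1) (ha : 0 ≤ a)
    (hb : 0 ≤ b) (hs : a + b + d = π) (hd : π / 2 ≤ d) :
    (PP l₁ + PP l₂) * ph c a + (PP l₂ + PP l₃) * ph c b + (PP l₃ + PP l₁) * ph c d <
      RR l₂ l₃ l₁ := by
  have hpi := pi_pos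
  have hc0 : 0 < c := kap_pos.trans_le hc
  have h1 : ph c d = -ph c (a + b) := by
    have h2 : d = π - (a + b) := by linarith
    rw [h2]
    exact ph_pi_sub hc0 (by linarith) (by linarith)
  have h3 := locO l₂ l₃ l₁ hc hc1 ha hb (by linarith)
  rw [h1]
  linarith

private theorem rr_cyc (l₁ l₂ l₃ : Bool) : RR l₂ l₃ l₁ = RR l₁ l₂ l₃ := by
  unfold RR
  ring

private theorem loc_aux {c a b d : ℝ} (l₁ l₂ l₃ : Bool) (hc : kap ≤ c) (hc1 : c ≤ 1) (ha : 0 ≤ a)
    (hb : 0 ≤ b) (hd : 0 ≤ d) (hs : a + b + d = π) :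
    FF c a b d l₁ l₂ l₃ < RR l₁ l₂ l₃ ∨ (FF c a b d l₁ l₂ l₃ ≤ RR l₁ l₂ l₃ ∧
      (FF c a b d l₁ l₂ l₃ = RR l₁ l₂ l₃ → Tight c a b d l₁ l₂ l₃)) := by
  have hpi := pi_pos
  have hpi1 := pi_gt_d6
  have hpi2 := pi_lt_d6
  rcases le_total (π / 2) d with h | hd'
  · left
    have h1 := loc_obt l₁ l₂ l₃ hc hc1 ha hb hs h
    rw [rr_cyc] at h1
    exact h1
  rcases le_total (π / 2) a with h | ha'
  · left
    have h1 := loc_obt l₂ l₃ l₁ hc hc1 hb hd (by linarith) h
    have h2 : RR l₃ l₁ l₂ = RR l₁ l₂ l₃ := by rw [rr_cyc, rr_cyc]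
    rw [h2] at h1
    unfold FF
    linarith
  rcases le_total (π / 2) b with h | hb'
  · left
    have h1 := loc_obt l₃ l₁ l₂ hc hc1 hd ha (by linarith) h
    unfold FF
    linarith
  have e1 := P5_lo
  have e2 := P5_hi
  have hsum := loc_sum hc hc1 ha ha' hb hb' hd hd' hs
  have k1 : P5 * (ph c a + ph c b + ph c d) ≤ P5 * 1.6779 :=
    mul_le_mul_of_nonneg_left hsum (by linarith)
  have k2 : 1.05649 * π ≤ P5 * π := mul_le_mul_of_nonneg_right e1.le hpi.le
  cases l₁ <;> cases l₂ <;> cases l₃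
  · left
    simp only [FF, PP, RR, LL, bb, if_false, Bool.false_eq_true]
    linarith
  · right
    have h1 := loc566 hc hc1 hb hb' ha ha' hd hd' (by linarith)
    have h2 := loc566_eq hc hc1 hb hb' ha ha' hd hd' (by linarith)
    have h3 : FF c a b d false false true = (1 + P5) * (ph c b + ph c d) + 2 * ph c a := by
      simp only [FF, PP, if_true, if_false, Bool.false_eq_true]
      ring
    have h4 : RR false false true = 2 * π * P5 / 5 + 2 * π / 3 := by
      simp only [RR, PP, LL, if_true, if_false, Bool.false_eq_true]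
      ring
    rw [h3, h4]
    refine ⟨h1, fun he => ?_⟩
    obtain ⟨g1, g2, g3, g4⟩ := h2 he
    exact ⟨g1, Or.inr (Or.inr ⟨rfl, rfl, rfl, g3, g2, g4⟩)⟩
  · right
    have h1 := loc566 hc hc1 ha ha' hd hd' hb hb' (by linarith)
    have h2 := loc566_eq hc hc1 ha ha' hd hd' hb hb' (by linarith)
    have h3 : FF c a b d false true false = (1 + P5) * (ph c a + ph c b) + 2 * ph c d := by
      simp only [FF, PP, if_true, if_false, Bool.false_eq_true]
      ring
    have h4 : RR false true false = 2 * π * P5 / 5 + 2 * π / 3 := by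
      simp only [RR, PP, LL, if_true, if_false, Bool.false_eq_true]
      ring
    rw [h3, h4]
    refine ⟨h1, fun he => ?_⟩
    obtain ⟨g1, g2, g3, g4⟩ := h2 he
    exact ⟨g1, Or.inr (Or.inl ⟨rfl, rfl, rfl, g2, g4, g3⟩)⟩
  · left
    have h1 := loc556 hc hc1 hb hb' ha ha' hd hd' (by linarith)
    simp only [FF, PP, RR, LL, if_true, if_false, Bool.false_eq_true]
    linarith
  · right
    have h1 := loc566 hc hc1 ha ha' hb hb' hd hd' hs
    have h2 := loc566_eq hc hc1 ha ha' hb hb' hd hd' hs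
    have h3 : FF c a b d true false false = (1 + P5) * (ph c a + ph c d) + 2 * ph c b := by
      simp only [FF, PP, if_true, if_false, Bool.false_eq_true]
      ring
    have h4 : RR true false false = 2 * π * P5 / 5 + 2 * π / 3 := by
      simp only [RR, PP, LL, if_true, if_false, Bool.false_eq_true]
      ring
    rw [h3, h4]
    refine ⟨h1, fun he => ?_⟩
    obtain ⟨g1, g2, g3, g4⟩ := h2 he
    exact ⟨g1, Or.inl ⟨rfl, rfl, rfl, g2, g3, g4⟩⟩
  · left
    have h1 := loc556 hc hc1 hd hd' ha ha' hb hb' (by linarith)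
    simp only [FF, PP, RR, LL, if_true, if_false, Bool.false_eq_true]
    linarith
  · left
    have h1 := loc556 hc hc1 ha ha' hb hb' hd hd' hs
    simp only [FF, PP, RR, LL, if_true, if_false, Bool.false_eq_true]
    linarith
  · left
    simp only [FF, PP, RR, LL, bb, if_true]
    linarith

/-- PROOF. If all half gaps are at most `π/2`: the eight label triples, up to the order of the
variables, are `loc566` (`RR = 2π P5/5 + 2π/3`, `bb` drops out), `loc556`, and for equal labels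
`loc_sum` (`6·... : 2 * 1.6779 = 3.3558 < π + bb/30`, `2 P5 1.6779 < 3.5454 < -bb/15 + 6π P5/5`).
If one half gap, say `d` (side `31`, opposite the vertex `2`), is larger than `π/2`, put
`s = π - d = a + b`; `ph c d = - ph c s` (`ph_pi_sub`), and the left side is
`P₂ (ph a + ph b) + P₁ (ph a - ph s) + P₃ (ph b - ph s)`: `locO` (strict). -/
theorem loc {c a b d : ℝ} (l₁ l₂ l₃ : Bool) (hc : kap ≤ c) (hc1 : c ≤ 1) (ha : 0 ≤ a)
    (hb : 0 ≤ b) (hd : 0 ≤ d) (hs : a + b + d = π) :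
    FF c a b d l₁ l₂ l₃ ≤ RR l₁ l₂ l₃ := by
  rcases loc_aux l₁ l₂ l₃ hc hc1 ha hb hd hs with h | h
  · exact h.le
  · exact h.1

/-- PROOF. In all cases except acute `(5,6,6)` the inequality is strict; then `loc566_eq`. -/
theorem loc_eq {c a b d : ℝ} (l₁ l₂ l₃ : Bool) (hc : kap ≤ c) (hc1 : c ≤ 1) (ha : 0 ≤ a)
    (hb : 0 ≤ b) (hd : 0 ≤ d) (hs : a + b + d = π)
    (he : FF c a b d l₁ l₂ l₃ = RR l₁ l₂ l₃) : Tight c a b d l₁ l₂ l₃ := by
  rcases loc_aux l₁ l₂ l₃ hc hc1 ha hb hd hs with h | h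
  · exact absurd he h.ne
  · exact h.2 he

end Pool.Agent.C32
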