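import Pool.Agent.Lib.MP_488b8a_co_W.Lim
import Pool.Agent.Lib.MP_488b8a_co_W.Loc

/-! # Project C32, module LimT: in the limit all triangles are tight -/

set_option autoImplicit false

namespace Pool.Agent.C32

open Real Filter Topology

private theorem limt_mem {p : Fin 32 → E3} {t : Fin 32 × Fin 32 × Fin 32} :
    t ∈ facets p ↔ Facet p t := by
  classical
  unfold facets
  rw [Finset.mem_filter]
  exact ⟨fun h => h.2, fun h => ⟨Finset.mem_univ _, h⟩⟩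

private theorem limt_ph {u v : ℕ → ℝ} {c z : ℝ} (hu : Tendsto u atTop (𝓝 c))
    (hv : Tendsto v atTop (𝓝 z)) (hc : 0 < c) (hz : 0 ≤ z ∧ z ≤ π)
    (h : ∀ m, 0 < u m ∧ 0 ≤ v m ∧ v m ≤ π) :
    Tendsto (fun m => ph (u m) (v m)) atTop (𝓝 (ph c z)) := by
  have h1 : ContinuousWithinAt (fun x : ℝ × ℝ => ph x.1 x.2)
      {x : ℝ × ℝ | 0 < x.1 ∧ 0 ≤ x.2 ∧ x.2 ≤ π} (c, z) := ph_cont (c, z) ⟨hc, hz.1, hz.2⟩
  have h2 : Tendsto (fun m => (u m, v m)) atTop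
      (𝓝[{x : ℝ × ℝ | 0 < x.1 ∧ 0 ≤ x.2 ∧ x.2 ≤ π}] (c, z)) :=
    tendsto_nhdsWithin_iff.2 ⟨hu.prodMk_nhds hv, Eventually.of_forall h⟩
  exact h1.tendsto.comp h2

private theorem limt_gram {u v : ℕ → ℝ} {c z : ℝ} (hu : Tendsto u atTop (𝓝 c))
    (hv : Tendsto v atTop (𝓝 z)) :
    Tendsto (fun m => gram (u m) (v m)) atTop (𝓝 (gram c z)) := by
  have h1 : Tendsto (fun m => sin (v m)) atTop (𝓝 (sin z)) := (continuous_sin.tendsto z).comp hv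
  unfold gram
  exact tendsto_const_nhds.sub ((tendsto_const_nhds.mul
    (tendsto_const_nhds.sub (hu.pow 2))).mul (h1.pow 2))

private theorem limt_choose {p : Fin 32 → E3} {lb : Fin 32 → Bool}
    {T : Finset (Fin 32 × Fin 32 × Fin 32)} {q : ℕ → Fin 32 → E3} {κ : ℕ → ℝ}
    (h : LimData p lb T q κ) (m : ℕ) (t : Fin 32 × Fin 32 × Fin 32) :
    ∃ y : ℝ × ℝ × ℝ × ℝ, y ∈ Set.Icc (9 / 10 : ℝ) 1 ×ˢ Set.Icc 0 π ×ˢ Set.Icc 0 π ×ˢ
      Set.Icc 0 π ∧ (t ∈ T → κ m ≤ y.1 ∧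
        Par (q m t.1) (q m t.2.1) (q m t.2.2) y.1 y.2.1 y.2.2.1 y.2.2.2) := by
  have hpi := pi_pos
  by_cases ht : t ∈ T
  · have h1 : Facet (q m) (t.1, t.2.1, t.2.2) := limt_mem.1 (by rw [h.fac m]; exact ht)
    obtain ⟨c, a, b, d, h2, h3⟩ := facet_par (h.gen m).1 (h.cov m) h1
    have h5 := h3
    obtain ⟨c0, c1, a0, b0, d0, hs, -⟩ := h5
    have h4 := h.kpos m
    refine ⟨(c, a, b, d), ?_, fun _ => ⟨h2, h3⟩⟩
    exact Set.mk_mem_prod ⟨by linarith, c1.le⟩ (Set.mk_mem_prod ⟨a0.le, by linarith⟩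
      (Set.mk_mem_prod ⟨b0.le, by linarith⟩ ⟨d0.le, by linarith⟩))
  · refine ⟨(1, 0, 0, 0), ?_, fun h' => absurd h' ht⟩
    exact Set.mk_mem_prod ⟨by norm_num, le_rfl⟩ (Set.mk_mem_prod ⟨le_rfl, hpi.le⟩
      (Set.mk_mem_prod ⟨le_rfl, hpi.le⟩ ⟨le_rfl, hpi.le⟩))

/-- PROOF. For every `m` and every `t ∈ T` choose parameters `x m t = (c, a, b, d)` by `facet_par`
(for `t ∉ T` put `(1, π, 0, 0)`); they lie in the compact set
`K = [9/10, 1] × [0, π] × [0, π] × [0, π]`; the space of functions `t ↦ x t ∈ K` is compact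
(`isCompact_univ_pi`, finite index set), so a subsequence converges to `x' t = (c', a', b', d')`
(`IsCompact.tendsto_subseq`). In the limit `kap ≤ c' ≤ 1` (`κ m ≤ c m t`, `klim`), `a', b', d' ≥ 0`,
`a' + b' + d' = π`, and the inner products of `p` are `gram c' a'`, etc. (continuity). By
`sum_defect` for `q m` and `ph_cont` (`FF` is continuous where `c > 0` and `0 ≤ z ≤ π`),
`∑_{t ∈ T} (RR - FF (x' t)) ≤ 0`; all terms are `≥ 0` by `loc`, so all are zero, and `loc_eq` gives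
`Tight`. -/
theorem lim_tight {p : Fin 32 → E3} {lb : Fin 32 → Bool} {T : Finset (Fin 32 × Fin 32 × Fin 32)}
    {q : ℕ → Fin 32 → E3} {κ : ℕ → ℝ} (h : LimData p lb T q κ) {i j k : Fin 32}
    (ht : (i, j, k) ∈ T) : ∃ c a b d : ℝ, Tight c a b d (lb i) (lb j) (lb k) ∧
      inner ℝ (p i) (p j) = gram c a ∧ inner ℝ (p j) (p k) = gram c b ∧
      inner ℝ (p k) (p i) = gram c d := by
  have hpi := pi_pos
  choose x hx1 hx2 using limt_choose h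
  have hK : IsCompact (Set.Icc (9 / 10 : ℝ) 1 ×ˢ Set.Icc (0 : ℝ) π ×ˢ Set.Icc (0 : ℝ) π ×ˢ
      Set.Icc (0 : ℝ) π) :=
    isCompact_Icc.prod (isCompact_Icc.prod (isCompact_Icc.prod isCompact_Icc))
  obtain ⟨x', hx', φ, hφ, hlim⟩ := (isCompact_univ_pi
    (fun _ : Fin 32 × Fin 32 × Fin 32 => hK)).tendsto_subseq (x := x)
    (fun m t _ => hx1 m t)
  rw [tendsto_pi_nhds] at hlim
  have hφ' := hφ.tendsto_atTop
  have l1 : ∀ t, Tendsto (fun m => (x (φ m) t).1) atTop (𝓝 (x' t).1) := fun t =>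
    (continuous_fst.tendsto _).comp (hlim t)
  have l2 : ∀ t, Tendsto (fun m => (x (φ m) t).2.1) atTop (𝓝 (x' t).2.1) := fun t =>
    ((continuous_fst.comp continuous_snd).tendsto _).comp (hlim t)
  have l3 : ∀ t, Tendsto (fun m => (x (φ m) t).2.2.1) atTop (𝓝 (x' t).2.2.1) := fun t =>
    ((continuous_fst.comp (continuous_snd.comp continuous_snd)).tendsto _).comp (hlim t)
  have l4 : ∀ t, Tendsto (fun m => (x (φ m) t).2.2.2) atTop (𝓝 (x' t).2.2.2) := fun t =>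
    ((continuous_snd.comp (continuous_snd.comp continuous_snd)).tendsto _).comp (hlim t)
  have hq : ∀ i, Tendsto (fun m => q (φ m) i) atTop (𝓝 (p i)) := fun i => (h.lim i).comp hφ'
  have hm : ∀ t, (9 / 10 ≤ (x' t).1 ∧ (x' t).1 ≤ 1) ∧ (0 ≤ (x' t).2.1 ∧ (x' t).2.1 ≤ π) ∧
      (0 ≤ (x' t).2.2.1 ∧ (x' t).2.2.1 ≤ π) ∧ (0 ≤ (x' t).2.2.2 ∧ (x' t).2.2.2 ≤ π) :=
    fun t => hx' t (Set.mem_univ t)
  have hmm : ∀ m t, (9 / 10 ≤ (x m t).1 ∧ (x m t).1 ≤ 1) ∧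
      (0 ≤ (x m t).2.1 ∧ (x m t).2.1 ≤ π) ∧ (0 ≤ (x m t).2.2.1 ∧ (x m t).2.2.1 ≤ π) ∧
      (0 ≤ (x m t).2.2.2 ∧ (x m t).2.2.2 ≤ π) := fun m t => hx1 m t
  have hk : ∀ t ∈ T, kap ≤ (x' t).1 := fun t ht =>
    le_of_tendsto_of_tendsto' (h.klim.comp hφ') (l1 t) fun m => (hx2 (φ m) t ht).1
  have hs : ∀ t ∈ T, (x' t).2.1 + (x' t).2.2.1 + (x' t).2.2.2 = π := by
    intro t ht
    refine tendsto_nhds_unique (((l2 t).add (l3 t)).add (l4 t)) ?_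
    refine tendsto_const_nhds.congr fun m => ?_
    obtain ⟨-, -, -, -, -, h1, -⟩ := (hx2 (φ m) t ht).2
    exact h1.symm
  have hF : ∀ t, Tendsto (fun m => FF (x (φ m) t).1 (x (φ m) t).2.1 (x (φ m) t).2.2.1
      (x (φ m) t).2.2.2 (lb t.1) (lb t.2.1) (lb t.2.2)) atTop
      (𝓝 (FF (x' t).1 (x' t).2.1 (x' t).2.2.1 (x' t).2.2.2 (lb t.1) (lb t.2.1)
        (lb t.2.2))) := by
    intro t
    have c0 : 0 < (x' t).1 := by linarith [(hm t).1.1]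
    have cm : ∀ m, 0 < (x (φ m) t).1 := fun m => by linarith [(hmm (φ m) t).1.1]
    exact (((limt_ph (l1 t) (l2 t) c0 (hm t).2.1
      fun m => ⟨cm m, (hmm (φ m) t).2.1⟩).const_mul _).add
      ((limt_ph (l1 t) (l3 t) c0 (hm t).2.2.1
      fun m => ⟨cm m, (hmm (φ m) t).2.2.1⟩).const_mul _)).add
      ((limt_ph (l1 t) (l4 t) c0 (hm t).2.2.2
      fun m => ⟨cm m, (hmm (φ m) t).2.2.2⟩).const_mul _)
  have hsum : ∑ t ∈ T, (RR (lb t.1) (lb t.2.1) (lb t.2.2) -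
      FF (x' t).1 (x' t).2.1 (x' t).2.2.1 (x' t).2.2.2 (lb t.1) (lb t.2.1) (lb t.2.2)) ≤ 0 := by
    refine le_of_tendsto' (tendsto_finsetSum T fun t _ => (hF t).const_sub _) fun m => ?_
    have h1 := sum_defect (κ := κ (φ m)) (by linarith [h.kpos (φ m)]) (h.gen _) (h.cov _)
      (fun t => (x (φ m) t).1) (fun t => (x (φ m) t).2.1) (fun t => (x (φ m) t).2.2.1)
      (fun t => (x (φ m) t).2.2.2) (fun t ht => (hx2 (φ m) t (by rwa [h.fac] at ht)).2)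
    rw [h.fac] at h1
    simp only [h.labs] at h1
    exact h1
  have hnn : ∀ t ∈ T, 0 ≤ RR (lb t.1) (lb t.2.1) (lb t.2.2) -
      FF (x' t).1 (x' t).2.1 (x' t).2.2.1 (x' t).2.2.2 (lb t.1) (lb t.2.1) (lb t.2.2) := by
    intro t ht
    exact sub_nonneg.2 (loc _ _ _ (hk t ht) (hm t).1.2 (hm t).2.1.1 (hm t).2.2.1.1
      (hm t).2.2.2.1 (hs t ht))
  have hz := (Finset.sum_eq_zero_iff_of_nonneg hnn).1
    (le_antisymm hsum (Finset.sum_nonneg hnn)) (i, j, k) ht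
  have hT := loc_eq (lb i) (lb j) (lb k) (hk _ ht) (hm (i, j, k)).1.2 (hm (i, j, k)).2.1.1
    (hm (i, j, k)).2.2.1.1 (hm (i, j, k)).2.2.2.1 (hs _ ht) (sub_eq_zero.1 hz).symm
  refine ⟨_, _, _, _, hT, ?_, ?_, ?_⟩
  · refine tendsto_nhds_unique ((hq i).inner (hq j)) ?_
    refine (limt_gram (l1 (i, j, k)) (l2 (i, j, k))).congr fun m => ?_
    obtain ⟨-, -, -, -, -, -, h1, -, -⟩ := (hx2 (φ m) _ ht).2
    exact h1.symm
  · refine tendsto_nhds_unique ((hq j).inner (hq k)) ?_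
    refine (limt_gram (l1 (i, j, k)) (l3 (i, j, k))).congr fun m => ?_
    obtain ⟨-, -, -, -, -, -, -, h1, -⟩ := (hx2 (φ m) _ ht).2
    exact h1.symm
  · refine tendsto_nhds_unique ((hq k).inner (hq i)) ?_
    refine (limt_gram (l1 (i, j, k)) (l4 (i, j, k))).congr fun m => ?_
    obtain ⟨-, -, -, -, -, -, -, -, h1⟩ := (hx2 (φ m) _ ht).2
    exact h1.symm

end Pool.Agent.C32
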