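import Pool.Agent.Lib.MP_488b8a_co_W.Num2

/-! # Project C32, module LocA: the local inequality for acute triangles -/

set_option autoImplicit false

namespace Pool.Agent.C32

open Real

private theorem locA_tan {c z0 z : ℝ} (hc : kap ≤ c) (h0 : 0 < z0) (h0' : z0 < π / 2)
    (hz : 0 ≤ z) (hz' : z ≤ π / 2) : ph c z ≤ ph kap z0 - dph kap z0 * (z - z0) :=
  (ph_mono_c kap_pos hc hz hz').trans
    (ph_tan kap_pos (kap_hi.trans (by norm_num)) h0 h0' hz hz')

/-- type `(5,6,6)`. PROOF. `ph c ≤ ph kap` (`ph_mono_c`); tangent lines (`ph_tan` at `z1` for `a`,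
`d` and at `z2` for `b`); the linear terms are
`(1 + P5) dph z1 (a + d - 2 z1) + 2 dph z2 (b - z2) = 2 dph z2 (a + b + d - π) = 0` by `slopes`,
and the constant is `(1 + P5) 2 (π/5) + 2 (2π/15) = 2π P5/5 + 2π/3`. -/
theorem loc566 {c a b d : ℝ} (hc : kap ≤ c) (hc1 : c ≤ 1) (ha : 0 ≤ a) (ha' : a ≤ π / 2)
    (hb : 0 ≤ b) (hb' : b ≤ π / 2) (hd : 0 ≤ d) (hd' : d ≤ π / 2) (hs : a + b + d = π) :
    (1 + P5) * (ph c a + ph c d) + 2 * ph c b ≤ 2 * π * P5 / 5 + 2 * π / 3 := by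
  obtain ⟨z1p, -, z1q⟩ := z1_bounds
  obtain ⟨z2p, z2q⟩ := z2_bounds
  have ta := locA_tan hc z1p z1q ha ha'
  have tb := locA_tan hc z2p z2q hb hb'
  have td := locA_tan hc z1p z1q hd hd'
  rw [ph_z1] at ta td
  rw [ph_z2] at tb
  have hp : 0 < 1 + P5 := by linarith [P5_lo]
  have h1 := mul_le_mul_of_nonneg_left (add_le_add ta td) hp.le
  have hsl := slopes
  have hz : z2 = π - 2 * z1 := rfl
  have e : (1 + P5) * (π / 5 - dph kap z1 * (a - z1) + (π / 5 - dph kap z1 * (d - z1))) +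
      2 * (2 * π / 15 - dph kap z2 * (b - z2)) = 2 * π * P5 / 5 + 2 * π / 3 := by
    rw [show b = π - a - d by linarith]
    linear_combination (2 * z1 - a - d) * hsl + 2 * dph kap z2 * hz
  linarith

/-- equality. PROOF. If one of `a = z1`, `d = z1`, `b = z2` fails then `ph_tan_lt` makes the
inequality strict; if all hold and `c > kap`, then `ph_mono_c_lt` at `z1` does. -/
theorem loc566_eq {c a b d : ℝ} (hc : kap ≤ c) (hc1 : c ≤ 1) (ha : 0 ≤ a) (ha' : a ≤ π / 2)
    (hb : 0 ≤ b) (hb' : b ≤ π / 2) (hd : 0 ≤ d) (hd' : d ≤ π / 2) (hs : a + b + d = π)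
    (he : (1 + P5) * (ph c a + ph c d) + 2 * ph c b = 2 * π * P5 / 5 + 2 * π / 3) :
    c = kap ∧ a = z1 ∧ b = z2 ∧ d = z1 := by
  obtain ⟨z1p, -, z1q⟩ := z1_bounds
  obtain ⟨z2p, z2q⟩ := z2_bounds
  have hk1 : kap < 1 := kap_hi.trans (by norm_num)
  have ta := locA_tan hc z1p z1q ha ha'
  have tb := locA_tan hc z2p z2q hb hb'
  have td := locA_tan hc z1p z1q hd hd'
  have hp : 0 < 1 + P5 := by linarith [P5_lo]
  have hsl := slopes
  have hz : z2 = π - 2 * z1 := rfl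
  have e : (1 + P5) * (ph kap z1 - dph kap z1 * (a - z1) +
      (ph kap z1 - dph kap z1 * (d - z1))) +
      2 * (ph kap z2 - dph kap z2 * (b - z2)) = 2 * π * P5 / 5 + 2 * π / 3 := by
    rw [ph_z1, ph_z2, show b = π - a - d by linarith]
    linear_combination (2 * z1 - a - d) * hsl + 2 * dph kap z2 * hz
  have hsa : ph c a = ph kap z1 - dph kap z1 * (a - z1) := by
    by_contra hne
    have h1 := mul_lt_mul_of_pos_left (add_lt_add_of_lt_of_le (lt_of_le_of_ne ta hne) td) hp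
    linarith
  have hsd : ph c d = ph kap z1 - dph kap z1 * (d - z1) := by
    by_contra hne
    have h1 := mul_lt_mul_of_pos_left (add_lt_add_of_le_of_lt ta (lt_of_le_of_ne td hne)) hp
    linarith
  have hsb : ph c b = ph kap z2 - dph kap z2 * (b - z2) := by
    by_contra hne
    have h1 := mul_le_mul_of_nonneg_left (add_le_add ta td) hp.le
    have h2 := lt_of_le_of_ne tb hne
    linarith
  have hA : a = z1 := by
    by_contra hne
    have h1 := ph_tan_lt kap_pos hk1 z1p z1q ha ha' hne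
    have h2 := ph_mono_c kap_pos hc ha ha'
    linarith
  have hD : d = z1 := by
    by_contra hne
    have h1 := ph_tan_lt kap_pos hk1 z1p z1q hd hd' hne
    have h2 := ph_mono_c kap_pos hc hd hd'
    linarith
  have hB : b = z2 := by
    by_contra hne
    have h1 := ph_tan_lt kap_pos hk1 z2p z2q hb hb' hne
    have h2 := ph_mono_c kap_pos hc hb hb'
    linarith
  refine ⟨?_, hA, hB, hD⟩
  by_contra hne
  have h1 := ph_mono_c_lt kap_pos (lt_of_le_of_ne hc (Ne.symm hne)) z1p z1q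
  rw [hA, sub_self, mul_zero, sub_zero] at hsa
  linarith

/-- PROOF. `ph c ≤ ph kap`, tangent line at `π/3` (the linear terms cancel), `ph_third`,
`num_b`: `3 * 0.5593 = 1.6779`. -/
theorem loc_sum {c a b d : ℝ} (hc : kap ≤ c) (hc1 : c ≤ 1) (ha : 0 ≤ a) (ha' : a ≤ π / 2)
    (hb : 0 ≤ b) (hb' : b ≤ π / 2) (hd : 0 ≤ d) (hd' : d ≤ π / 2) (hs : a + b + d = π) :
    ph c a + ph c b + ph c d ≤ 1.6779 := by
  have hp := pi_pos
  have ta := locA_tan hc (z0 := π / 3) (by linarith) (by linarith) ha ha'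
  have tb := locA_tan hc (z0 := π / 3) (by linarith) (by linarith) hb hb'
  have td := locA_tan hc (z0 := π / 3) (by linarith) (by linarith) hd hd'
  have h3 := num_b
  rw [← ph_third] at h3
  have e : dph kap (π / 3) * (a - π / 3) + dph kap (π / 3) * (b - π / 3) +
      dph kap (π / 3) * (d - π / 3) = 0 := by
    linear_combination dph kap (π / 3) * hs
  linarith

/-- type `(5,5,6)`; `a` is the side `55`. PROOF. `ph c ≤ ph kap`; tangent lines at
`ζ_a = π - 2 arctan 2` (for `a`) and `ζ_b = arctan 2` (for `b`, `d`); since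
`b + d - 2 ζ_b = -(a - ζ_a)` the linear terms are `-(a - ζ_a) δ` with
`δ = 2 P5 dph ζ_a - (1 + P5) dph ζ_b`, `0 ≤ δ ≤ 0.001` (`slope556`), so at most
`δ ζ_a ≤ 0.00093`. The constants: `ph_za`, `ph_zb`, `num_d`, `num_c`:
`2 P5 0.6826 + 2 (1 + P5) 0.4967`; and `-bb/30 + 4π P5/5 + π/3` is larger by at least
`-0.215334 + 1.047197 - 0.9934 + 1.05649 * 0.15467 - 0.00093 > 0` (`π > 3.14159`). -/
theorem loc556 {c a b d : ℝ} (hc : kap ≤ c) (hc1 : c ≤ 1) (ha : 0 ≤ a) (ha' : a ≤ π / 2)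
    (hb : 0 ≤ b) (hb' : b ≤ π / 2) (hd : 0 ≤ d) (hd' : d ≤ π / 2) (hs : a + b + d = π) :
    2 * P5 * ph c a + (1 + P5) * (ph c b + ph c d) < -bb / 30 + 4 * π * P5 / 5 + π / 3 := by
  have hP := P5_lo
  have hpi := pi_gt_d6
  obtain ⟨hza, hza'⟩ := za_bounds
  have hzb : 0 < arctan 2 := arctan_pos.2 (by norm_num)
  have ta := locA_tan hc hza (by linarith) ha ha'
  have tb := locA_tan hc hzb (arctan_lt_pi_div_two 2) hb hb'
  have td := locA_tan hc hzb (arctan_lt_pi_div_two 2) hd hd'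
  have hA := num_d
  have hB := num_c
  rw [← ph_za] at hA
  rw [← ph_zb] at hB
  obtain ⟨hs1, hs2⟩ := slope556
  generalize hu : π - 2 * arctan 2 = u at *
  generalize arctan 2 = v at *
  generalize dph kap u = Du at *
  generalize dph kap v = Dv at *
  generalize ph kap u = Pu at *
  generalize ph kap v = Pv at *
  have h1 : 2 * P5 * ph c a ≤ 2 * P5 * (Pu - Du * (a - u)) :=
    mul_le_mul_of_nonneg_left ta (by linarith)
  have h2 : (1 + P5) * (ph c b + ph c d) ≤
      (1 + P5) * (Pv - Dv * (b - v) + (Pv - Dv * (d - v))) :=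
    mul_le_mul_of_nonneg_left (add_le_add tb td) (by linarith)
  have e : 2 * P5 * (Pu - Du * (a - u)) + (1 + P5) * (Pv - Dv * (b - v) + (Pv - Dv * (d - v))) =
      2 * P5 * Pu + 2 * (1 + P5) * Pv + (2 * P5 * Du - (1 + P5) * Dv) * (u - a) := by
    rw [show b = π - a - d by linarith]
    linear_combination (-(1 + P5) * Dv) * hu
  have h3 : (2 * P5 * Du - (1 + P5) * Dv) * (u - a) ≤ 0.001 * 0.93 := by
    calc (2 * P5 * Du - (1 + P5) * Dv) * (u - a) ≤ (2 * P5 * Du - (1 + P5) * Dv) * 0.93 :=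
          mul_le_mul_of_nonneg_left (by linarith) hs1
      _ ≤ 0.001 * 0.93 := mul_le_mul_of_nonneg_right hs2 (by norm_num)
  have h4 : 2 * P5 * Pu ≤ 2 * P5 * 0.6826 := mul_le_mul_of_nonneg_left hA.le (by linarith)
  have h5 : 2 * (1 + P5) * Pv ≤ 2 * (1 + P5) * 0.4967 :=
    mul_le_mul_of_nonneg_left hB.le (by linarith)
  have h6 : 1.05649 * (4 * π / 5 - 2.3586) ≤ P5 * (4 * π / 5 - 2.3586) :=
    mul_le_mul_of_nonneg_right hP.le (by linarith)
  unfold bb
  linarith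

end Pool.Agent.C32
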