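import Pool.Agent.Lib.MP_488b8a_co_W.Conc

/-! # Project C32, module Num1: the constants `kap`, `z1`, `z2`, `P5` -/

set_option autoImplicit false

namespace Pool.Agent.C32

open Real

private lemma s5_sq : √5 ^ 2 = 5 := Real.sq_sqrt (by norm_num)

private lemma s3_sq : √3 ^ 2 = 3 := Real.sq_sqrt (by norm_num)

private lemma s5_lo : 2.236067977 < √5 := by
  apply Real.lt_sqrt_of_sq_lt
  norm_num

private lemma s5_hi : √5 < 2.236067978 := by
  rw [Real.sqrt_lt' (by norm_num)]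
  norm_num

private lemma s3_lo : 1.732050807 < √3 := by
  apply Real.lt_sqrt_of_sq_lt
  norm_num

private lemma s3_hi : √3 < 1.732050808 := by
  rw [Real.sqrt_lt' (by norm_num)]
  norm_num

private lemma w_sq : √(30 + 6 * √5) ^ 2 = 30 + 6 * √5 := Real.sq_sqrt (by positivity)

private lemma w_lo : 6.58911282 < √(30 + 6 * √5) := by
  apply Real.lt_sqrt_of_sq_lt
  have := s5_lo
  norm_num
  linarith

private lemma w_hi : √(30 + 6 * √5) < 6.58911284 := by
  rw [Real.sqrt_lt' (by norm_num)]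
  have := s5_hi
  norm_num
  linarith

private lemma c5_pos : 0 < cos (π / 5) := by
  rw [Real.cos_pi_div_five]
  positivity

private lemma sin5_sq : sin (π / 5) ^ 2 = (5 - √5) / 8 := by
  have h := Real.sin_sq_add_cos_sq (π / 5)
  rw [Real.cos_pi_div_five] at h
  have h5 := s5_sq
  nlinarith

private lemma cos5_sq : cos (π / 5) ^ 2 = (3 + √5) / 8 := by
  rw [Real.cos_pi_div_five]
  have h5 := s5_sq
  nlinarith

/-- PROOF. `cos (π/5) = (1 + √5)/4` (Mathlib: `Real.cos_pi_div_five`), so `cos^2 = (3 + √5)/8`,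
`tan^2 = 1/cos^2 - 1 = 5 - 2 √5`. -/
theorem tan_sq : tan (π / 5) ^ 2 = 5 - 2 * √5 := by
  rw [Real.tan_eq_sin_div_cos, div_pow, sin5_sq, cos5_sq]
  have h5 := s5_sq
  have : (3 + √5) / 8 ≠ 0 := by positivity
  rw [div_eq_iff this]
  nlinarith

theorem tan_pos' : 0 < tan (π / 5) := by
  apply Real.tan_pos_of_pos_of_lt_pi_div_two
  · positivity
  · linarith [Real.pi_pos]

/-- PROOF. `(√3 (3 + √5) tan (π/5))^2 = 3 (14 + 6 √5)(5 - 2 √5) = 30 + 6 √5`. -/
theorem sqrt_eq : √(30 + 6 * √5) = √3 * (3 + √5) * tan (π / 5) := by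
  have h5 := s5_sq
  have h3 := s3_sq
  have ht := tan_sq
  have hp := tan_pos'
  have : (√3 * (3 + √5) * tan (π / 5)) ^ 2 = √3 ^ 2 * (3 + √5) ^ 2 * tan (π / 5) ^ 2 := by ring
  have h : 30 + 6 * √5 = (√3 * (3 + √5) * tan (π / 5)) ^ 2 := by
    rw [this, h3, ht]
    linear_combination (6 * √5 + 21) * h5
  rw [h, Real.sqrt_sq (by positivity)]

private lemma D_pos : 0 < 10 - √5 - √(30 + 6 * √5) := by
  have := s5_hi
  have := w_hi
  linarith

theorem kap_pos : 0 < kap := by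
  have := D_pos
  unfold kap
  positivity

/-- PROOF. Numerical: `10 - √5 - √(30 + 6 √5) = 1.17482 > 0`. -/
theorem kap_sq : kap ^ 2 * (10 - √5 - √(30 + 6 * √5)) = 1 := by
  have h := D_pos
  unfold kap
  rw [div_pow, Real.sq_sqrt h.le, one_pow, one_div, inv_mul_cancel₀ h.ne']

/-- the true value is `0.922602194...` -/
theorem kap_lo : 0.9226 < kap := by
  have h := kap_sq
  have hp := kap_pos
  have h1 := s5_lo
  have h2 := w_lo
  have hD := D_pos
  by_contra hc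
  push Not at hc
  have h3 : kap ^ 2 ≤ 0.9226 ^ 2 := by gcongr
  have h4 : kap ^ 2 * (10 - √5 - √(30 + 6 * √5)) ≤
    0.9226 ^ 2 * (10 - √5 - √(30 + 6 * √5)) := by gcongr
  norm_num at h4
  linarith

theorem kap_hi : kap < 0.92261 := by
  have h := kap_sq
  have hp := kap_pos
  have h1 := s5_hi
  have h2 := w_hi
  have hD := D_pos
  by_contra hc
  push Not at hc
  have h3 : 0.92261 ^ 2 ≤ kap ^ 2 := by gcongr
  have h4 : 0.92261 ^ 2 * (10 - √5 - √(30 + 6 * √5)) ≤
    kap ^ 2 * (10 - √5 - √(30 + 6 * √5)) := by gcongr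
  norm_num at h4
  linarith

private lemma cos215_pos : 0 < cos (2 * π / 15) :=
  Real.cos_pos_of_mem_Ioo ⟨by linarith [Real.pi_pos], by linarith [Real.pi_pos]⟩

private lemma T_mul : tan (2 * π / 15) * (1 + √3 * tan (π / 5)) = √3 - tan (π / 5) := by
  have hc := cos215_pos
  have hc5 := c5_pos
  have e1 : sin (2 * π / 15) = √3 / 2 * cos (π / 5) - 1 / 2 * sin (π / 5) := by
    rw [show 2 * π / 15 = π / 3 - π / 5 by ring, Real.sin_sub, Real.sin_pi_div_three,
      Real.cos_pi_div_three]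
  have e2 : cos (2 * π / 15) = 1 / 2 * cos (π / 5) + √3 / 2 * sin (π / 5) := by
    rw [show 2 * π / 15 = π / 3 - π / 5 by ring, Real.cos_sub, Real.sin_pi_div_three,
      Real.cos_pi_div_three]
  rw [Real.tan_eq_sin_div_cos, Real.tan_eq_sin_div_cos]
  rw [div_mul_eq_mul_div, div_eq_iff hc.ne']
  have hh : sin (π / 5) = sin (π / 5) / cos (π / 5) * cos (π / 5) := by field_simp
  set t := sin (π / 5) / cos (π / 5) with htd
  rw [e1, e2, hh]
  ring

/-- PROOF. `2π/15 = π/3 - π/5`, `tan (π/3 - π/5) = (√3 - t)/(1 + √3 t)` with `t = tan (π/5)`;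
`2 t (√3 - t)/(1 + √3 t) = 5 + √5 - √3 (3 + √5) t` (multiply out, use `t^2 = 5 - 2 √5`), so the left
side is `5 - 2 √5 + 5 + √5 - √3 (3 + √5) t = 10 - √5 - √(30 + 6 √5)`. -/
theorem tan_ident :
    tan (π / 5) ^ 2 + 2 * tan (2 * π / 15) * tan (π / 5) = 10 - √5 - √(30 + 6 * √5) := by
  have h1 := T_mul
  have h2 := tan_sq
  have h5 := s5_sq
  have h3 := s3_sq
  have hp := tan_pos'
  rw [sqrt_eq]
  set t := tan (π / 5)
  set T := tan (2 * π / 15)
  have hpos : (1 + √3 * t) ≠ 0 := by positivity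
  apply mul_right_cancel₀ hpos
  have e1 : (t ^ 2 + 2 * T * t) * (1 + √3 * t) = t ^ 2 * (1 + √3 * t) + 2 * t * (√3 - t) := by
    rw [← h1]; ring
  rw [e1]
  linear_combination (-1 + √3 * t + √3 ^ 2 * (3 + √5)) * h2 + (15 - √5 - 2 * √5 ^ 2) * h3 - 6 * h5

private lemma kt_pos : 0 < kap * tan (π / 5) := mul_pos kap_pos tan_pos'

private lemma kt_lt : kap * tan (π / 5) < 1 := by
  have h1 := kap_hi
  have h2 := kap_pos
  have h3 := tan_sq
  have h4 := tan_pos'
  have h5 := s5_lo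
  have : tan (π / 5) < 1 := by nlinarith
  nlinarith

private lemma tan_z1 : tan z1 = 1 / (kap * tan (π / 5)) := by
  unfold z1
  rw [Real.tan_arctan]

/-- `z1 = 0.98027..` -/
theorem z1_bounds : 0 < z1 ∧ π / 4 < z1 ∧ z1 < π / 2 := by
  have h1 := kt_pos
  have h2 := kt_lt
  have h3 : π / 4 < z1 := by
    unfold z1
    rw [← Real.arctan_one]
    apply Real.arctan_strictMono
    rw [lt_div_iff₀ h1]
    linarith
  refine ⟨by linarith [Real.pi_pos], h3, Real.arctan_lt_pi_div_two _⟩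

/-- `z2 = 1.18104..`. PROOF. `π/4 < z1 < π/2`. -/
theorem z2_bounds : 0 < z2 ∧ z2 < π / 2 := by
  obtain ⟨h1, h2, h3⟩ := z1_bounds
  unfold z2
  constructor <;> linarith

private lemma cos_z1 : cos z1 = sin z1 * (kap * tan (π / 5)) := by
  obtain ⟨h1, h2, h3⟩ := z1_bounds
  have hk := kap_pos
  have ht := tan_pos'
  have hc : 0 < cos z1 := Real.cos_pos_of_mem_Ioo ⟨by linarith [Real.pi_pos], h3⟩
  have h := tan_z1
  rw [Real.tan_eq_sin_div_cos z1, div_eq_div_iff hc.ne' (by positivity)] at h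
  linarith

private lemma sin_z1_pos : 0 < sin z1 := by
  obtain ⟨h1, h2, h3⟩ := z1_bounds
  exact Real.sin_pos_of_pos_of_lt_pi h1 (by linarith [Real.pi_pos])

private lemma sin_z2_pos : 0 < sin z2 := by
  obtain ⟨h1, h2⟩ := z2_bounds
  exact Real.sin_pos_of_pos_of_lt_pi h1 (by linarith [Real.pi_pos])

private lemma cos_z2 : cos z2 = sin z2 * (kap * tan (2 * π / 15)) := by
  have ez : cos z2 = sin z1 ^ 2 - cos z1 ^ 2 := by
    unfold z2
    rw [Real.cos_pi_sub, Real.cos_two_mul]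
    linarith [Real.sin_sq_add_cos_sq z1]
  have es : sin z2 = 2 * sin z1 * cos z1 := by
    unfold z2
    rw [Real.sin_pi_sub, Real.sin_two_mul]
  have hcz := cos_z1
  have hi := tan_ident
  have hq := kap_sq
  rw [ez, es, hcz]
  have : kap ^ 2 * (tan (π / 5) ^ 2 + 2 * tan (2 * π / 15) * tan (π / 5)) = 1 := by
    rw [hi, hq]
  linear_combination (-(sin z1 ^ 2)) * this

/-- PROOF. `ph_eq`: `cot z1 / kap = kap tan (π/5) / kap = tan (π/5)`. -/
theorem ph_z1 : ph kap z1 = π / 5 := by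
  obtain ⟨h1, h2, h3⟩ := z1_bounds
  have hk := kap_pos
  have hs := sin_z1_pos
  rw [ph_eq hk h1 (by linarith [Real.pi_pos])]
  have e : cos z1 / (kap * sin z1) = tan (π / 5) := by
    rw [div_eq_iff (by positivity), cos_z1]
    ring
  rw [e, Real.arctan_tan] <;> linarith [Real.pi_pos]

/-- PROOF. With `T = tan z1 = 1/(kap tan (π/5))`: `cot z2 = - cot (2 z1) = (T^2 - 1)/(2 T)`; that
this is `kap tan (2π/15)` is `T^2 = 1 + 2 T kap tan (2π/15)`, that is
`1 / kap^2 = tan^2 (π/5) + 2 tan (2π/15) tan (π/5)`: `tan_ident` and `kap_sq`. -/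
theorem ph_z2 : ph kap z2 = 2 * π / 15 := by
  obtain ⟨h4, h5⟩ := z2_bounds
  have hk := kap_pos
  have hs := sin_z2_pos
  rw [ph_eq hk h4 (by linarith [Real.pi_pos])]
  have e : cos z2 / (kap * sin z2) = tan (2 * π / 15) := by
    rw [div_eq_iff (by positivity), cos_z2]
    ring
  rw [e, Real.arctan_tan] <;> linarith [Real.pi_pos]

private lemma den_eq {z θ : ℝ} (h : sin z * (kap * sin θ) = cos z * cos θ) :
    sin z ^ 2 * (kap ^ 2 * sin θ ^ 2 + cos θ ^ 2) = cos θ ^ 2 ∧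
    (cos z ^ 2 + kap ^ 2 * sin z ^ 2) * (kap ^ 2 * sin θ ^ 2 + cos θ ^ 2) = kap ^ 2 := by
  have hk := kap_pos
  have e1 := Real.sin_sq_add_cos_sq z
  have e2 := Real.sin_sq_add_cos_sq θ
  have h2 : sin z ^ 2 * (kap ^ 2 * sin θ ^ 2) = cos z ^ 2 * cos θ ^ 2 := by
    have : (sin z * (kap * sin θ)) ^ 2 = (cos z * cos θ) ^ 2 := by rw [h]
    linear_combination this
  have h3 : sin z ^ 2 * (kap ^ 2 * sin θ ^ 2 + cos θ ^ 2) = cos θ ^ 2 := by
    linear_combination h2 + cos θ ^ 2 * e1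
  refine ⟨h3, ?_⟩
  have h4 : cos z ^ 2 * (kap ^ 2 * sin θ ^ 2 + cos θ ^ 2) = kap ^ 2 * sin θ ^ 2 := by
    linear_combination -h2 + kap ^ 2 * sin θ ^ 2 * e1
  linear_combination h4 + kap ^ 2 * h3 + kap ^ 2 * e2

private lemma hz1 : sin z1 * (kap * sin (π / 5)) = cos z1 * cos (π / 5) := by
  rw [cos_z1, Real.tan_eq_sin_div_cos]
  have := c5_pos
  field_simp

private lemma hz2 : sin z2 * (kap * sin (2 * π / 15)) = cos z2 * cos (2 * π / 15) := by
  rw [cos_z2, Real.tan_eq_sin_div_cos]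
  have := cos215_pos
  field_simp

private lemma dph_eq {z θ : ℝ} (h : sin z * (kap * sin θ) = cos z * cos θ) :
    dph kap z = (1 - (1 - kap ^ 2) * sin θ ^ 2) / kap := by
  obtain ⟨-, h2⟩ := den_eq h
  have hk := kap_pos
  have e2 := Real.sin_sq_add_cos_sq θ
  have hB : kap ^ 2 * sin θ ^ 2 + cos θ ^ 2 = 1 - (1 - kap ^ 2) * sin θ ^ 2 := by
    linear_combination e2
  rw [hB] at h2
  have h3 : (cos z ^ 2 + kap ^ 2 * sin z ^ 2) ≠ 0 := by
    intro h4
    rw [h4, zero_mul] at h2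
    have : 0 < kap ^ 2 := by positivity
    linarith
  unfold dph
  rw [div_eq_div_iff h3 hk.ne']
  linear_combination -h2

private lemma B_pos (θ : ℝ) : 0 < 1 - (1 - kap ^ 2) * sin θ ^ 2 := by
  have h := Real.sin_sq_le_one θ
  have hk := kap_pos
  have hk2 : 0 < kap ^ 2 := by positivity
  have h1 := kap_hi
  have : kap ^ 2 < 1 := by nlinarith
  nlinarith [sq_nonneg (sin θ)]

/-- PROOF. `dph kap z1 = kap / (cos^2 z1 (1 + kap^2 tan^2 z1))`, and
`1 - (1 - kap^2) sin^2 z1 = cos^2 z1 + kap^2 sin^2 z1`. From `ph kap z1 = π/5`, that is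
`tan z1 = cot (π/5) / kap`: `cos^2 z1 + kap^2 sin^2 z1 = kap^2 / (1 - (1 - kap^2) sin^2 (π/5))`
(check: `cos^2 z1 = kap^2 sin^2 (π/5) / (kap^2 sin^2 (π/5) + cos^2 (π/5))`), the same for `z2` and
`2π/15`. So `dph kap z1 = (1 - (1 - kap^2) sin^2 (π/5)) / kap` and
`dph kap z2 = (1 - (1 - kap^2) sin^2 (2π/15)) / kap`, and the claim is the definition of `P5`. -/
theorem slopes : (1 + P5) * dph kap z1 = 2 * dph kap z2 := by
  have hk := kap_pos
  have hB := B_pos (π / 5)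
  rw [dph_eq hz1, dph_eq hz2]
  unfold P5
  field_simp
  ring

private lemma sin215_sq : sin (2 * π / 15) ^ 2 = (7 + √5 - √(30 + 6 * √5)) / 16 := by
  have e1 : sin (2 * π / 15) = √3 / 2 * cos (π / 5) - 1 / 2 * sin (π / 5) := by
    rw [show 2 * π / 15 = π / 3 - π / 5 by ring, Real.sin_sub, Real.sin_pi_div_three,
      Real.cos_pi_div_three]
  have hc := c5_pos
  have h3 := s3_sq
  have hsc : sin (π / 5) * cos (π / 5) = tan (π / 5) * ((3 + √5) / 8) := by
    rw [← cos5_sq, Real.tan_eq_sin_div_cos]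
    field_simp
  have hs := sin5_sq
  have hcs := cos5_sq
  rw [e1, sqrt_eq]
  linear_combination (1 / 4) * cos (π / 5) ^ 2 * h3 + (3 / 4) * hcs + (1 / 4) * hs -
    (√3 / 2) * hsc

private lemma P5_eq : P5 + 1 = (72 - 24 * √5) / (30 + 6 * √5 - (3 + √5) * √(30 + 6 * √5)) := by
  have hD := D_pos
  have hk := kap_sq
  have h5 := s5_sq
  have hw := w_sq
  have hB := B_pos (π / 5)
  have hk2 : kap ^ 2 = 1 / (10 - √5 - √(30 + 6 * √5)) := by
    rw [eq_div_iff hD.ne']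
    exact hk
  have hden : 0 < 30 + 6 * √5 - (3 + √5) * √(30 + 6 * √5) := by
    have h1 := s5_lo
    have h2 := s5_hi
    have h3 := w_lo
    have h4 := w_hi
    nlinarith
  have e1 : (1 - (1 - kap ^ 2) * sin (π / 5) ^ 2) * (8 * (10 - √5 - √(30 + 6 * √5))) =
      30 + 6 * √5 - (3 + √5) * √(30 + 6 * √5) := by
    rw [sin5_sq]
    linear_combination (5 - √5) * hk - h5
  have e2 : 2 * (1 - (1 - kap ^ 2) * sin (2 * π / 15) ^ 2) *
      (8 * (10 - √5 - √(30 + 6 * √5))) = 72 - 24 * √5 := by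
    rw [sin215_sq]
    linear_combination (7 + √5 - √(30 + 6 * √5)) * hk - hw + h5
  unfold P5
  rw [sub_add_cancel, div_eq_div_iff hB.ne' hden.ne', ← e1, ← e2]
  ring

private lemma den_pos : 0 < 30 + 6 * √5 - (3 + √5) * √(30 + 6 * √5) := by
  have h1 := s5_lo
  have h2 := s5_hi
  have h3 := w_lo
  have h4 := w_hi
  nlinarith

private lemma sw_lo : 5.236067977 * 6.58911282 < (3 + √5) * √(30 + 6 * √5) := by
  have h1 := s5_lo
  have h3 := w_lo
  apply mul_lt_mul'' (by linarith) h3 (by norm_num) (by norm_num)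

private lemma sw_hi : (3 + √5) * √(30 + 6 * √5) < 5.236067978 * 6.58911284 := by
  have h1 := s5_hi
  have h3 := w_hi
  apply mul_lt_mul'' (by linarith) h3 (by positivity) (by positivity)

/-- the true value is `1.0564910...`. PROOF. `sin^2 (π/5) = (5 - √5)/8`,
`sin^2 (2π/15) = tan^2/(1 + tan^2)` with `tan (2π/15) = (√3 - t)/(1 + √3 t)`, `t = tan (π/5)`,
`t = 0.7265425..`; numerical bounds. -/
theorem P5_lo : 1.05649 < P5 := by
  have h := P5_eq
  have hd := den_pos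
  have h1 := sw_lo
  have h2 := s5_lo
  have h3 := s5_hi
  have : 2.05649 < P5 + 1 := by
    rw [h, lt_div_iff₀ hd]
    norm_num at h1 h2 h3 ⊢
    linarith
  linarith

theorem P5_hi : P5 < 1.0565 := by
  have h := P5_eq
  have hd := den_pos
  have h1 := sw_hi
  have h2 := s5_lo
  have h3 := s5_hi
  have : P5 + 1 < 2.0565 := by
    rw [h, div_lt_iff₀ hd]
    norm_num at h1 h2 h3 ⊢
    linarith
  linarith

private lemma target_eq : gold ^ 2 / (√(2 + gold) * √3) = (3 + √5) / √(30 + 6 * √5) := by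
  have h5 := s5_sq
  have hg : 0 < gold := by
    unfold gold
    positivity
  have hw : 0 < √(30 + 6 * √5) := by positivity
  have e1 : √(2 + gold) * √3 = √(30 + 6 * √5) / 2 := by
    rw [← Real.sqrt_mul (by positivity)]
    have : (2 + gold) * 3 = (√(30 + 6 * √5) / 2) ^ 2 := by
      rw [div_pow, w_sq]
      unfold gold
      ring
    rw [this, Real.sqrt_sq (by positivity)]
  rw [e1]
  unfold gold
  field_simp
  linear_combination h5

/-- `0.79465..` and `0.74535..`. PROOF. `gram kap z1 = 1 - 2 (1 - kap^2) sin^2 z1` with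
`sin^2 z1 = cos^2 (π/5) / (kap^2 sin^2 (π/5) + cos^2 (π/5))`. The closed forms are
`g56 = gold^2 / (√(2 + gold) √3)`, `g66 = √5 / 3`. -/
theorem g56_eq : g56 = gold ^ 2 / (√(2 + gold) * √3) := by
  have hD := D_pos
  have hk := kap_sq
  have h5 := s5_sq
  have hw := w_sq
  have hwp : 0 < √(30 + 6 * √5) := by positivity
  have hd := den_pos
  obtain ⟨h1, -⟩ := den_eq hz1
  rw [sin5_sq, cos5_sq] at h1
  rw [target_eq]
  unfold g56 gram
  rw [eq_div_iff hwp.ne']
  -- multiply by the denominator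
  have e1 : sin z1 ^ 2 * (30 + 6 * √5 - (3 + √5) * √(30 + 6 * √5)) =
      (10 - √5 - √(30 + 6 * √5)) * (3 + √5) := by
    linear_combination 8 * (10 - √5 - √(30 + 6 * √5)) * h1 -
      sin z1 ^ 2 * (5 - √5) * hk + sin z1 ^ 2 * h5
  apply mul_right_cancel₀ hd.ne'
  have e2 : (1 - 2 * (1 - kap ^ 2) * sin z1 ^ 2) * √(30 + 6 * √5) *
      (30 + 6 * √5 - (3 + √5) * √(30 + 6 * √5)) =
      √(30 + 6 * √5) * ((30 + 6 * √5 - (3 + √5) * √(30 + 6 * √5)) -
        2 * (1 - kap ^ 2) * (sin z1 ^ 2 * (30 + 6 * √5 - (3 + √5) * √(30 + 6 * √5)))) := by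
    ring
  rw [e2, e1]
  linear_combination 2 * √(30 + 6 * √5) * (3 + √5) * hk + (3 + √5) * hw + 3 * √(30 + 6 * √5) * h5

theorem g66_eq : g66 = √5 / 3 := by
  have hD := D_pos
  have hk := kap_sq
  have h5 := s5_sq
  have hw := w_sq
  obtain ⟨h1, -⟩ := den_eq hz2
  have hc : cos (2 * π / 15) ^ 2 = (9 - √5 + √(30 + 6 * √5)) / 16 := by
    have := Real.sin_sq_add_cos_sq (2 * π / 15)
    rw [sin215_sq] at this
    linarith
  rw [sin215_sq, hc] at h1
  unfold g66 gram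
  have e1 : sin z2 ^ 2 * (72 - 24 * √5) =
      (10 - √5 - √(30 + 6 * √5)) * (9 - √5 + √(30 + 6 * √5)) := by
    linear_combination 16 * (10 - √5 - √(30 + 6 * √5)) * h1 -
      sin z2 ^ 2 * (7 + √5 - √(30 + 6 * √5)) * hk - sin z2 ^ 2 * h5 + sin z2 ^ 2 * hw
  have hd : (72 - 24 * √5) ≠ 0 := by
    have := s5_hi
    intro h
    linarith
  apply mul_right_cancel₀ hd
  have e2 : (1 - 2 * (1 - kap ^ 2) * sin z2 ^ 2) * (72 - 24 * √5) =
      (72 - 24 * √5) - 2 * (1 - kap ^ 2) * (sin z2 ^ 2 * (72 - 24 * √5)) := by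
    ring
  rw [e2, e1]
  linear_combination 2 * (9 - √5 + √(30 + 6 * √5)) * hk + 2 * hw + 6 * h5

theorem g66_lt : g66 < g56 := by
  rw [g66_eq, g56_eq, target_eq]
  have hwp : 0 < √(30 + 6 * √5) := by positivity
  have h2 := s5_hi
  have h1 := s5_lo
  have h3 := w_hi
  rw [lt_div_iff₀ hwp]
  nlinarith

end Pool.Agent.C32
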