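import Pool.Agent.Lib.MP_488b8a_co_W.SumA
import Pool.Agent.Lib.MP_488b8a_co_W.Cnt
import Pool.Agent.Lib.MP_488b8a_co_W.Num1

/-! # Project C32, module Low: the sum of the defects is at most zero -/

set_option autoImplicit false

namespace Pool.Agent.C32

open Real

/-- PROOF. `angle_sum` and `π > 0`. -/
theorem facets_nonempty {n : ℕ} {p : Fin n → E3} {κ : ℝ} (hκ : 0 < κ) (hG : Gen p)
    (hC : Covers p κ) (i : Fin n) : (facets p).Nonempty := by
  by_contra h
  rw [Finset.not_nonempty_iff_eq_empty] at h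
  have h1 := angle_sum hκ hG hC i
  rw [h, Finset.filter_empty, Finset.sum_empty] at h1
  linarith [Real.pi_pos]

/-- the rotation of ordered triples -/
private def low_rt : (Fin 32 × Fin 32 × Fin 32) ≃ (Fin 32 × Fin 32 × Fin 32) where
  toFun t := (t.2.1, t.2.2, t.1)
  invFun t := (t.2.2, t.1, t.2.1)
  left_inv _ := rfl
  right_inv _ := rfl

private theorem low_mem (p : Fin 32 → E3) (t : Fin 32 × Fin 32 × Fin 32) :
    t ∈ facets p ↔ low_rt t ∈ facets p := by
  rw [mem_facets, mem_facets]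
  obtain ⟨i, j, k⟩ := t
  exact ⟨fun h => facet_perm2 h, fun h => facet_perm2 (facet_perm2 h)⟩

private theorem low_sum (p : Fin 32 → E3) (g : Fin 32 × Fin 32 × Fin 32 → ℝ) :
    ∑ t ∈ facets p, g (low_rt t) = ∑ t ∈ facets p, g t :=
  Finset.sum_equiv low_rt (low_mem p) (fun _ _ => rfl)

private theorem low_three (p : Fin 32 → E3) (g : Fin 32 × Fin 32 × Fin 32 → ℝ) :
    ∑ t ∈ facets p, (g t + g (low_rt t) + g (low_rt (low_rt t))) =
      3 * ∑ t ∈ facets p, g t := by
  rw [Finset.sum_add_distrib, Finset.sum_add_distrib, low_sum p g,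
    low_sum p (fun t => g (low_rt t)), low_sum p g]
  ring

private theorem low_PP_pos (l : Bool) : 0 < PP l := by
  unfold PP
  split_ifs
  · linarith [P5_lo]
  · exact one_pos

private theorem low_deg (p : Fin 32 → E3) (i : Fin 32) :
    (deg2 p i : ℝ) * ((2 * π * PP (lab p i) - bb) / LL (lab p i)) ≤
      2 * (2 * π * PP (lab p i) - bb) := by
  by_cases h : deg2 p i ≤ 10
  · have hl : lab p i = true := by
      unfold lab
      exact decide_eq_true h
    have hd : (deg2 p i : ℝ) ≤ 10 := by exact_mod_cast h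
    have hX : 0 < 2 * π * P5 - bb := by
      have h1 := P5_lo
      have h2 := Real.pi_gt_d4
      unfold bb
      nlinarith
    rw [hl]
    have e1 : PP true = P5 := rfl
    have e2 : LL true = 5 := rfl
    rw [e1, e2, ← mul_div_assoc, div_le_iff₀ (by norm_num)]
    nlinarith
  · have hl : lab p i = false := by
      unfold lab
      exact decide_eq_false h
    have hd : 12 ≤ deg2 p i := by
      obtain ⟨m, hm⟩ := deg2_even p i
      omega
    have hd' : (12 : ℝ) ≤ (deg2 p i : ℝ) := by exact_mod_cast hd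
    have hX : 2 * π * 1 - bb < 0 := by
      have h2 := Real.pi_lt_d4
      unfold bb
      linarith
    rw [hl]
    have e1 : PP false = 1 := rfl
    have e2 : LL false = 6 := rfl
    rw [e1, e2, ← mul_div_assoc, div_le_iff₀ (by norm_num)]
    nlinarith

private theorem low_fib (p : Fin 32 → E3) (g : Fin 32 × Fin 32 × Fin 32 → ℝ) :
    ∑ t ∈ facets p, g t = ∑ i, ∑ t ∈ (facets p).filter (fun t => t.1 = i), g t :=
  (Finset.sum_fiberwise (facets p) (fun t => t.1) g).symm

/-- PROOF. For `t = (i, j, k)` and labels `l`, by `ang_par` (for `t` and its two rotations,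
`par_rot`) `FF = PP l_i ang(i,j,k) + PP l_j ang(j,k,i) + PP l_k ang(k,i,j)`; the rotation
`(i,j,k) ↦ (j,k,i)` is a bijection of `facets p` (`facet_perm2`), so
`∑ FF = 3 ∑_t PP (lab t.1) ang t = 3 ∑_i PP (lab i) ∑_{t.1 = i} ang t ≥ 12 π ∑_i PP (lab i)` by
`angle_sum` (`PP > 0`: `P5_lo`). In the same way
`∑ RR = card (8/15) bb + 3 ∑_i deg2 i (2π PP (lab i) - bb) / LL (lab i)`, `card ≤ 360`
(`facets_card`), and
`deg2 i (2π PP (lab i) - bb) / LL (lab i) ≤ 2 (2π PP (lab i) - bb)`: if `lab i = true` then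
`deg2 i ≤ 10` and `2π P5 - bb > 0` (`P5_lo`, `π > 3.1415`); if `lab i = false` then
`deg2 i ≥ 11`, so `deg2 i ≥ 12` (`deg2_even`) and `2π - bb < 0`. So
`∑ RR ≤ 192 bb + 3 ∑_i (4π PP (lab i) - 2 bb) = 12 π ∑_i PP (lab i)`. -/
theorem sum_defect {p : Fin 32 → E3} {κ : ℝ} (hκ : 0 < κ) (hG : Gen p) (hC : Covers p κ)
    (c a b d : Fin 32 × Fin 32 × Fin 32 → ℝ)
    (h : ∀ t ∈ facets p, Par (p t.1) (p t.2.1) (p t.2.2) (c t) (a t) (b t) (d t)) :
    ∑ t ∈ facets p, (RR (lab p t.1) (lab p t.2.1) (lab p t.2.2) -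
      FF (c t) (a t) (b t) (d t) (lab p t.1) (lab p t.2.1) (lab p t.2.2)) ≤ 0 := by
  obtain ⟨A, hA⟩ : ∃ A : Fin 32 × Fin 32 × Fin 32 → ℝ,
    A = fun t => PP (lab p t.1) * ang (p t.1) (p t.2.1) (p t.2.2) := ⟨_, rfl⟩
  obtain ⟨H, hH⟩ : ∃ H : Fin 32 × Fin 32 × Fin 32 → ℝ,
    H = fun t => (2 * π * PP (lab p t.1) - bb) / LL (lab p t.1) := ⟨_, rfl⟩
  have hu := hG.1
  have hFF : ∑ t ∈ facets p, FF (c t) (a t) (b t) (d t) (lab p t.1) (lab p t.2.1)
      (lab p t.2.2) = 3 * ∑ t ∈ facets p, A t := by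
    rw [← low_three p A]
    refine Finset.sum_congr rfl fun t ht => ?_
    have k0 := h t ht
    have k1 := par_rot k0
    have k2 := par_rot k1
    have a0 := ang_par (hu _) (hu _) (hu _) k0
    have a1 := ang_par (hu _) (hu _) (hu _) k1
    have a2 := ang_par (hu _) (hu _) (hu _) k2
    have e0 : A t = PP (lab p t.1) * ang (p t.1) (p t.2.1) (p t.2.2) := by rw [hA]
    have e1 : A (low_rt t) = PP (lab p t.2.1) * ang (p t.2.1) (p t.2.2) (p t.1) := by
      rw [hA]
      rfl
    have e2 : A (low_rt (low_rt t)) = PP (lab p t.2.2) * ang (p t.2.2) (p t.1) (p t.2.1) := by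
      rw [hA]
      rfl
    rw [e0, e1, e2, a0, a1, a2]
    unfold FF
    ring
  have hRR : ∑ t ∈ facets p, RR (lab p t.1) (lab p t.2.1) (lab p t.2.2) =
      (facets p).card * (8 / 15 * bb) + 3 * ∑ t ∈ facets p, H t := by
    rw [← low_three p H, ← nsmul_eq_mul, ← Finset.sum_const, ← Finset.sum_add_distrib]
    refine Finset.sum_congr rfl fun t _ => ?_
    have e0 : H t = (2 * π * PP (lab p t.1) - bb) / LL (lab p t.1) := by rw [hH]
    have e1 : H (low_rt t) = (2 * π * PP (lab p t.2.1) - bb) / LL (lab p t.2.1) := by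
      rw [hH]
      rfl
    have e2 : H (low_rt (low_rt t)) = (2 * π * PP (lab p t.2.2) - bb) / LL (lab p t.2.2) := by
      rw [hH]
      rfl
    rw [e0, e1, e2]
    unfold RR
    ring
  have hS1 : 4 * π * ∑ i, PP (lab p i) ≤ ∑ t ∈ facets p, A t := by
    rw [low_fib, Finset.mul_sum]
    refine Finset.sum_le_sum fun i _ => ?_
    have e1 : ∑ t ∈ (facets p).filter (fun t => t.1 = i), A t =
        PP (lab p i) * ∑ t ∈ (facets p).filter (fun t => t.1 = i),
          ang (p t.1) (p t.2.1) (p t.2.2) := by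
      rw [Finset.mul_sum]
      refine Finset.sum_congr rfl fun t ht => ?_
      have ht1 : t.1 = i := (Finset.mem_filter.1 ht).2
      rw [hA]
      show PP (lab p t.1) * ang (p t.1) (p t.2.1) (p t.2.2) = _
      rw [ht1]
    rw [e1, mul_comm]
    exact mul_le_mul_of_nonneg_left (angle_sum hκ hG hC i) (low_PP_pos _).le
  have hS2 : ∑ t ∈ facets p, H t ≤ 2 * (2 * π * (∑ i, PP (lab p i)) - 32 * bb) := by
    have e0 : 2 * (2 * π * (∑ i, PP (lab p i)) - 32 * bb) =
        ∑ i : Fin 32, 2 * (2 * π * PP (lab p i) - bb) := by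
      rw [← Finset.mul_sum, Finset.sum_sub_distrib, ← Finset.mul_sum, Finset.sum_const,
        Finset.card_univ, Fintype.card_fin, nsmul_eq_mul]
      norm_num
    rw [low_fib, e0]
    refine Finset.sum_le_sum fun i _ => ?_
    have e1 : ∑ t ∈ (facets p).filter (fun t => t.1 = i), H t =
        (deg2 p i : ℝ) * ((2 * π * PP (lab p i) - bb) / LL (lab p i)) := by
      have e2 : ∀ t ∈ (facets p).filter (fun t => t.1 = i), H t =
          (2 * π * PP (lab p i) - bb) / LL (lab p i) := by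
        intro t ht
        have ht1 : t.1 = i := (Finset.mem_filter.1 ht).2
        rw [hH]
        show (2 * π * PP (lab p t.1) - bb) / LL (lab p t.1) = _
        rw [ht1]
      rw [Finset.sum_congr rfl e2, Finset.sum_const, nsmul_eq_mul]
      rfl
    rw [e1]
    exact low_deg p i
  have hcard : ((facets p).card : ℝ) ≤ 360 := by
    have := facets_card hG (by norm_num)
    have h1 : (facets p).card ≤ 360 := by omega
    exact_mod_cast h1
  have hb : (0 : ℝ) < bb := by
    unfold bb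
    norm_num
  have hc1 : ((facets p).card : ℝ) * (8 / 15 * bb) ≤ 192 * bb := by
    have := mul_le_mul_of_nonneg_right hcard (show (0 : ℝ) ≤ 8 / 15 * bb by positivity)
    linarith
  rw [Finset.sum_sub_distrib, hFF, hRR]
  linarith

end Pool.Agent.C32
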