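import Pool.Agent.Lib.MP_488b8a_co_W.Low
import Pool.Agent.Lib.MP_488b8a_co_W.Apx
import Pool.Agent.Lib.MP_488b8a_co_W.Loc

/-! # Project C32, module LowB: the lower bound for the covering radius -/

set_option autoImplicit false

namespace Pool.Agent.C32

open Real

/-- PROOF. Suppose `kap < κ`. Let `ε = (κ - kap)/2`, `q` generic with `‖q i - p i‖ < ε`
(`gen_approx`), so `Covers q κ'` with `κ' = κ - ε > kap`. For every facet `t` of `q` choose
parameters (`facet_par`) `c t ≥ κ' > kap`, `c t < 1`. By `loc` all terms in `sum_defect` are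
nonnegative, so, the sum being `≤ 0`, they are all zero; there is a facet (`facets_nonempty`), and
`loc_eq` gives `Tight`, in particular `c t = kap`, a contradiction. -/
theorem covers_le {p : Fin 32 → E3} {κ : ℝ} (hp : ∀ i, ‖p i‖ = 1) (hC : Covers p κ) :
    κ ≤ kap := by
  by_contra hlt
  have hlt : kap < κ := not_le.1 hlt
  have hk := kap_pos
  obtain ⟨q, hG, hq⟩ := gen_approx p hp (ε := (κ - kap) / 2) (by linarith)
  have hC' : Covers q (κ - (κ - kap) / 2) := covers_approx hC fun i => (hq i).le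
  have hk' : kap < κ - (κ - kap) / 2 := by linarith
  have hκ' : 0 < κ - (κ - kap) / 2 := hk.trans hk'
  have hpar : ∀ t : Fin 32 × Fin 32 × Fin 32, ∃ c a b d : ℝ, t ∈ facets q →
      κ - (κ - kap) / 2 ≤ c ∧ Par (q t.1) (q t.2.1) (q t.2.2) c a b d := by
    intro t
    by_cases ht : t ∈ facets q
    · obtain ⟨c, a, b, d, h⟩ := facet_par hG.1 hC' ((mem_facets q t).1 ht)
      exact ⟨c, a, b, d, fun _ => h⟩
    · exact ⟨0, 0, 0, 0, fun h => absurd h ht⟩
  choose c a b d h using hpar
  have hsum := sum_defect hκ' hG hC' c a b d fun t ht => (h t ht).2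
  have hnn : ∀ t ∈ facets q, 0 ≤ RR (lab q t.1) (lab q t.2.1) (lab q t.2.2) -
      FF (c t) (a t) (b t) (d t) (lab q t.1) (lab q t.2.1) (lab q t.2.2) := by
    intro t ht
    obtain ⟨h1, _, h3, h4, h5, h6, h7, _⟩ := h t ht
    have := loc (lab q t.1) (lab q t.2.1) (lab q t.2.2) (hk'.le.trans h1) h3.le h4.le h5.le
      h6.le h7
    linarith
  have hz := (Finset.sum_eq_zero_iff_of_nonneg hnn).1 (le_antisymm hsum (Finset.sum_nonneg hnn))
  obtain ⟨t, ht⟩ := facets_nonempty hκ' hG hC' 0
  obtain ⟨h1, _, h3, h4, h5, h6, h7, _⟩ := h t ht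
  have he := hz t ht
  have hT := loc_eq (lab q t.1) (lab q t.2.1) (lab q t.2.2) (hk'.le.trans h1) h3.le h4.le h5.le
    h6.le h7 (by linarith)
  have h8 : c t = kap := hT.1
  linarith

end Pool.Agent.C32
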