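import Pool.Agent.Lib.MP_488b8a_co_W.Num1

/-! # Project C32, module Num2: numerical bounds for `arctan`

All proofs: `kap > 0.9226`, monotonicity of `arctan`, and a bound of `tan` of a rational number (for
example through `Real.arctan_lt...`/`sin`, `cos` bounds, or addition formulas such as
`arctan x = π/4 - arctan ((1-x)/(1+x))` and series bounds), with `Real.pi_gt_d6`,
`Real.pi_lt_d6`. -/

set_option autoImplicit false

namespace Pool.Agent.C32

open Real

private theorem at_mono (f g : ℝ → ℝ) (hd : ∀ x, HasDerivAt f (g x) x) (hg : ∀ x, 0 ≤ g x)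
    (h0 : f 0 = 0) {x : ℝ} (hx : 0 ≤ x) : 0 ≤ f x := by
  have h1 : Monotone f := monotone_of_deriv_nonneg (fun y => (hd y).differentiableAt)
    (fun y => by rw [(hd y).deriv]; exact hg y)
  have h2 := h1 hx
  rw [h0] at h2
  exact h2

private theorem at_le_self {x : ℝ} (hx : 0 ≤ x) : arctan x ≤ x := by
  have h1 : 0 ≤ (fun y : ℝ => y - arctan y) x := by
    refine at_mono (fun y : ℝ => y - arctan y) (fun y => 1 - 1 / (1 + y ^ 2)) ?_ ?_ ?_ hx
    · intro y
      exact (hasDerivAt_id y).sub (hasDerivAt_arctan y)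
    · intro y
      have h2 : (0 : ℝ) < 1 + y ^ 2 := by positivity
      have h3 : 1 - 1 / (1 + y ^ 2) = y ^ 2 / (1 + y ^ 2) := by
        field_simp
        ring
      rw [h3]
      positivity
    · simp
  simp only at h1
  linarith

private theorem at_ge7 {x : ℝ} (hx : 0 ≤ x) :
    x - x ^ 3 / 3 + x ^ 5 / 5 - x ^ 7 / 7 ≤ arctan x := by
  have h1 : 0 ≤ (fun y : ℝ => arctan y - (y - y ^ 3 / 3 + y ^ 5 / 5 - y ^ 7 / 7)) x := by
    refine at_mono (fun y : ℝ => arctan y - (y - y ^ 3 / 3 + y ^ 5 / 5 - y ^ 7 / 7))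
      (fun y => y ^ 8 / (1 + y ^ 2)) ?_ ?_ ?_ hx
    · intro y
      have h2 : (0 : ℝ) < 1 + y ^ 2 := by positivity
      have h3 := (hasDerivAt_arctan y).sub ((((hasDerivAt_id y).sub
        ((hasDerivAt_pow 3 y).div_const 3)).add ((hasDerivAt_pow 5 y).div_const 5)).sub
        ((hasDerivAt_pow 7 y).div_const 7))
      have h4 : 1 / (1 + y ^ 2) - (1 - ((3 : ℕ) : ℝ) * y ^ (3 - 1) / 3 +
          ((5 : ℕ) : ℝ) * y ^ (5 - 1) / 5 - ((7 : ℕ) : ℝ) * y ^ (7 - 1) / 7) =
          y ^ 8 / (1 + y ^ 2) := by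
        push_cast
        norm_num
        field_simp
        ring
      rw [h4] at h3
      exact h3
    · intro y
      positivity
    · simp
  simp only at h1
  linarith

private theorem at_le9 {x : ℝ} (hx : 0 ≤ x) :
    arctan x ≤ x - x ^ 3 / 3 + x ^ 5 / 5 - x ^ 7 / 7 + x ^ 9 / 9 := by
  have h1 : 0 ≤ (fun y : ℝ => (y - y ^ 3 / 3 + y ^ 5 / 5 - y ^ 7 / 7 + y ^ 9 / 9) -
      arctan y) x := by
    refine at_mono (fun y : ℝ => (y - y ^ 3 / 3 + y ^ 5 / 5 - y ^ 7 / 7 + y ^ 9 / 9) - arctan y)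
      (fun y => y ^ 10 / (1 + y ^ 2)) ?_ ?_ ?_ hx
    · intro y
      have h2 : (0 : ℝ) < 1 + y ^ 2 := by positivity
      have h3 := (((((hasDerivAt_id y).sub
        ((hasDerivAt_pow 3 y).div_const 3)).add ((hasDerivAt_pow 5 y).div_const 5)).sub
        ((hasDerivAt_pow 7 y).div_const 7)).add ((hasDerivAt_pow 9 y).div_const 9)).sub
        (hasDerivAt_arctan y)
      have h4 : 1 - ((3 : ℕ) : ℝ) * y ^ (3 - 1) / 3 + ((5 : ℕ) : ℝ) * y ^ (5 - 1) / 5 -
          ((7 : ℕ) : ℝ) * y ^ (7 - 1) / 7 + ((9 : ℕ) : ℝ) * y ^ (9 - 1) / 9 -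
          1 / (1 + y ^ 2) = y ^ 10 / (1 + y ^ 2) := by
        push_cast
        norm_num
        field_simp
        ring
      rw [h4] at h3
      exact h3
    · intro y
      positivity
    · simp
  simp only at h1
  linarith

private theorem third_lo : 0.321745 < arctan (1 / 3) := by
  have h1 := at_ge7 (x := 1 / 3) (by norm_num)
  norm_num at h1 ⊢
  linarith

private theorem third_hi : arctan (1 / 3) < 0.3217512 := by
  have h1 := at_le9 (x := 1 / 3) (by norm_num)
  norm_num at h1 ⊢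
  linarith

private theorem half_eq : arctan (1 / 2) = π / 4 - arctan (1 / 3) := by
  have h1 := arctan_inv_2_add_arctan_inv_3
  norm_num at h1 ⊢
  linarith

private theorem three_quarter : arctan (3 / 4) = 2 * arctan (1 / 3) := by
  rw [two_mul_arctan (by norm_num) (by norm_num)]
  norm_num

/-- true value `3.302533` -/
theorem num_a : 4 * arctan (1 / kap) < 3.3027 := by
  have hk := kap_lo
  have h1 : arctan (1 / kap) < arctan (5000 / 4613) := by
    apply arctan_strictMono
    rw [div_lt_div_iff₀ (by linarith) (by norm_num)]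
    linarith
  have h2 : arctan 1 + arctan (387 / 9613) = arctan (5000 / 4613) := by
    rw [arctan_add (by norm_num)]
    norm_num
  have h3 := at_le_self (x := 387 / 9613) (by norm_num)
  have h4 := Real.pi_lt_d6
  rw [arctan_one] at h2
  norm_num at h3 h4
  linarith

/-- true value `0.559163` -/
theorem num_b : arctan (1 / (√3 * kap)) < 0.5593 := by
  have hk := kap_lo
  have h3 : √3 * √3 = 3 := Real.mul_self_sqrt (by norm_num)
  have h3p : 0 < √3 := Real.sqrt_pos.mpr (by norm_num)
  have h3u : √3 < 1.7321 := by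
    rw [Real.sqrt_lt' (by norm_num)]
    norm_num
  have h1 : arctan (1 / (√3 * kap)) < arctan (1 / (√3 * 0.9226)) := by
    apply arctan_strictMono
    apply one_div_lt_one_div_of_lt
    · positivity
    · exact mul_lt_mul_of_pos_left hk h3p
  have h2 : arctan (√3)⁻¹ + arctan (√3 * (387 / 18839)) = arctan (1 / (√3 * 0.9226)) := by
    have hxy : (√3)⁻¹ * (√3 * (387 / 18839)) = 387 / 18839 := by
      rw [← mul_assoc, inv_mul_cancel₀ h3p.ne', one_mul]
    rw [arctan_add (by rw [hxy]; norm_num), hxy]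
    congr 1
    rw [div_eq_div_iff (by norm_num) (by positivity)]
    have h4 : (√3)⁻¹ * √3 = 1 := inv_mul_cancel₀ h3p.ne'
    linear_combination (0.9226 : ℝ) * h4 + (387 / 18839 * 0.9226 : ℝ) * h3
  have h4 := at_le_self (x := √3 * (387 / 18839)) (by positivity)
  have h5 := Real.pi_lt_d6
  rw [arctan_inv_sqrt_three] at h2
  norm_num at h5 h3u
  linarith

/-- true value `0.496638` -/
theorem num_c : arctan (1 / (2 * kap)) < 0.4967 := by
  have hk := kap_lo
  have h1 : arctan (1 / (2 * kap)) < arctan (2500 / 4613) := by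
    apply arctan_strictMono
    rw [div_lt_div_iff₀ (by linarith) (by norm_num)]
    linarith
  have h2 : arctan (1 / 2) + arctan (387 / 11726) = arctan (2500 / 4613) := by
    rw [arctan_add (by norm_num)]
    norm_num
  have h3 := at_le_self (x := 387 / 11726) (by norm_num)
  have h4 := Real.pi_lt_d6
  have h5 := third_lo
  rw [half_eq] at h2
  norm_num at h3 h4 h5
  linarith

/-- true value `0.682568` -/
theorem num_d : arctan (3 / (4 * kap)) < 0.6826 := by
  have hk := kap_lo
  have h1 : arctan (3 / (4 * kap)) < arctan (3750 / 4613) := by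
    apply arctan_strictMono
    rw [div_lt_div_iff₀ (by linarith) (by norm_num)]
    linarith
  have h2 : arctan (3 / 4) + arctan (1161 / 29702) = arctan (3750 / 4613) := by
    rw [arctan_add (by norm_num)]
    norm_num
  have h3 := at_le_self (x := 1161 / 29702) (by norm_num)
  have h5 := third_hi
  rw [three_quarter] at h2
  norm_num at h3 h5
  linarith

/-- true value `2.038742` -/
theorem num_e : 2 * arctan (3 / (2 * kap)) < 2.04 := by
  have hk := kap_lo
  have h1 : arctan (3 / (2 * kap)) < arctan (4613 / 7500)⁻¹ := by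
    apply arctan_strictMono
    rw [inv_div, div_lt_div_iff₀ (by linarith) (by norm_num)]
    linarith
  have h2 : arctan (1 / 2) + arctan (1726 / 19613) = arctan (4613 / 7500) := by
    rw [arctan_add (by norm_num)]
    norm_num
  rw [arctan_inv_of_pos (by norm_num), ← h2, half_eq] at h1
  have h3 := at_ge7 (x := 1726 / 19613) (by norm_num)
  have h4 := Real.pi_lt_d6
  have h5 := third_hi
  norm_num at h3 h4 h5
  linarith

/-- true value `0.424201` -/
theorem num_f : 0.424 < arctan (5 / (12 * kap)) := by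
  have hk := kap_lo
  have hk2 := kap_hi
  have h1 : arctan (1129 / 2500) < arctan (5 / (12 * kap)) := by
    apply arctan_strictMono
    rw [div_lt_div_iff₀ (by norm_num) (by linarith)]
    norm_num at hk2
    linarith
  have h2 : arctan (1129 / 2500) + arctan (242 / 6129) = arctan (1 / 2) := by
    rw [arctan_add (by norm_num)]
    norm_num
  rw [half_eq] at h2
  have h3 := at_le_self (x := 242 / 6129) (by norm_num)
  have h4 := Real.pi_gt_d6
  have h5 := third_hi
  norm_num at h3 h4 h5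
  linarith

private theorem ph_arctan {x : ℝ} (hx : 0 < x) : ph kap (arctan x) = arctan (1 / (x * kap)) := by
  have h1 : 0 < arctan x := arctan_pos.mpr hx
  have h2 : arctan x < π := (arctan_lt_pi_div_two x).trans (by linarith [Real.pi_pos])
  have hk := kap_pos
  rw [ph_eq kap_pos h1 h2, cos_arctan, sin_arctan]
  congr 1
  have h3 : 0 < √(1 + x ^ 2) := Real.sqrt_pos.mpr (by positivity)
  field_simp

private theorem dph_arctan {c : ℝ} (x : ℝ) :
    dph c (arctan x) = c * (1 + x ^ 2) / (1 + c ^ 2 * x ^ 2) := by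
  have h1 : (0 : ℝ) < 1 + x ^ 2 := by positivity
  have h2 : (0 : ℝ) < 1 + c ^ 2 * x ^ 2 := by positivity
  unfold dph
  rw [cos_sq_arctan, sin_sq_arctan]
  have h3 : 1 / (1 + x ^ 2) + c ^ 2 * (x ^ 2 / (1 + x ^ 2)) =
      (1 + c ^ 2 * x ^ 2) / (1 + x ^ 2) := by
    field_simp
  rw [h3, div_div_eq_mul_div]

private theorem za_eq : π - 2 * arctan 2 = arctan (4 / 3) := by
  have h1 := two_mul_arctan_add_pi (x := 2) (by norm_num)
  have h2 : (2 * 2 / (1 - 2 ^ 2) : ℝ) = -(4 / 3) := by norm_num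
  rw [h2, arctan_neg] at h1
  linarith

private theorem s1_eq : 2 * arctan (2 / 3) = arctan (12 / 5) := by
  rw [two_mul_arctan (by norm_num) (by norm_num)]
  norm_num

/-- `ζ_b = arctan 2`. PROOF. `ph_eq`. -/
theorem ph_zb : ph kap (arctan 2) = arctan (1 / (2 * kap)) :=
  ph_arctan (by norm_num)

/-- `ζ_a = π - 2 arctan 2 = arctan (4/3)`. -/
theorem ph_za : ph kap (π - 2 * arctan 2) = arctan (3 / (4 * kap)) := by
  rw [za_eq, ph_arctan (by norm_num)]
  congr 1
  have hk := kap_pos
  field_simp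

theorem za_bounds : 0 < π - 2 * arctan 2 ∧ π - 2 * arctan 2 < 0.93 := by
  rw [za_eq]
  refine ⟨arctan_pos.mpr (by norm_num), ?_⟩
  have h1 : arctan (4 / 3) = π / 2 - arctan (3 / 4) := by
    have h2 := arctan_inv_of_pos (x := 3 / 4) (by norm_num)
    rw [inv_div] at h2
    exact h2
  rw [h1, three_quarter]
  have h4 := Real.pi_lt_d6
  have h5 := third_lo
  norm_num at h4 h5
  linarith

/-- `dph kap (arctan 2) = 5 kap / (1 + 4 kap^2)`,
`dph kap (arctan (4/3)) = 25 kap / (9 + 16 kap^2)`; the true value of the difference is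
`0.00093`. -/
theorem slope556 : 0 ≤ 2 * P5 * dph kap (π - 2 * arctan 2) - (1 + P5) * dph kap (arctan 2) ∧
    2 * P5 * dph kap (π - 2 * arctan 2) - (1 + P5) * dph kap (arctan 2) ≤ 0.001 := by
  rw [za_eq, dph_arctan, dph_arctan]
  have hk := kap_lo
  have hk2 := kap_hi
  have hP := P5_lo
  have hP2 := P5_hi
  set A := kap * (1 + (4 / 3) ^ 2) / (1 + kap ^ 2 * (4 / 3) ^ 2) with hA
  set B := kap * (1 + 2 ^ 2) / (1 + kap ^ 2 * 2 ^ 2) with hB
  norm_num at hk hk2 hP hP2
  have hk3 : 0 < kap := by linarith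
  have h1 : (4613 / 5000 : ℝ) ^ 2 < kap ^ 2 := by
    apply pow_lt_pow_left₀ hk (by norm_num) (by norm_num)
  have h2 : kap ^ 2 < (92261 / 100000 : ℝ) ^ 2 := by
    apply pow_lt_pow_left₀ hk2 hk3.le (by norm_num)
  have hD1 : 0 < 1 + kap ^ 2 * (4 / 3) ^ 2 := by positivity
  have hD2 : 0 < 1 + kap ^ 2 * 2 ^ 2 := by positivity
  have hA1 : 1.019713 < A := by
    rw [hA, lt_div_iff₀ hD1]
    nlinarith [mul_pos (sub_pos.mpr hk) (sub_pos.mpr hk2)]
  have hA2 : A < 1.019716 := by
    rw [hA, div_lt_iff₀ hD1]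
    nlinarith [mul_pos (sub_pos.mpr hk) (sub_pos.mpr hk2)]
  have hB1 : 1.047269 < B := by
    rw [hB, lt_div_iff₀ hD2]
    nlinarith [mul_pos (sub_pos.mpr hk) (sub_pos.mpr hk2)]
  have hB2 : B < 1.047276 := by
    rw [hB, div_lt_iff₀ hD2]
    nlinarith [mul_pos (sub_pos.mpr hk) (sub_pos.mpr hk2)]
  norm_num at hA1 hA2 hB1 hB2
  have hAB : 0 < 2 * A - B := by linarith
  constructor
  · have h5 := mul_pos (sub_pos.mpr hP) hAB
    nlinarith
  · have h5 := mul_pos (sub_pos.mpr hP2) hAB
    norm_num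
    nlinarith

theorem ph_third : ph kap (π / 3) = arctan (1 / (√3 * kap)) := by
  rw [← arctan_sqrt_three]
  exact ph_arctan (Real.sqrt_pos.mpr (by norm_num))

/-- `s_1 = 2 arctan (2/3)`, `tan s_1 = 12/5` -/
theorem ph_s1_half : ph kap (arctan (2 / 3)) = arctan (3 / (2 * kap)) := by
  rw [ph_arctan (by norm_num)]
  congr 1
  have hk := kap_pos
  field_simp

theorem ph_s1 : ph kap (2 * arctan (2 / 3)) = arctan (5 / (12 * kap)) := by
  rw [s1_eq, ph_arctan (by norm_num)]
  congr 1
  have hk := kap_pos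
  field_simp

theorem s1_bounds : 0 < 2 * arctan (2 / 3) ∧ 2 * arctan (2 / 3) < π / 2 := by
  rw [s1_eq]
  exact ⟨arctan_pos.mpr (by norm_num), arctan_lt_pi_div_two _⟩

theorem ph_quarter : ph kap (π / 4) = arctan (1 / kap) := by
  rw [← arctan_one, ph_arctan one_pos, one_mul]

end Pool.Agent.C32
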