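import Pool.Agent.Lib.MP_488b8a_co_W.Vec

/-! # Project C32, module Pln: parameters of a triangle on its circumcircle -/

set_option autoImplicit false

namespace Pool.Agent.C32

open Real

private lemma onb {m e : E3} (hm : ‖m‖ = 1) (he : ‖e‖ = 1) (hme : inner ℝ m e = 0) :
    ∃ f : E3, ∀ x y : E3, inner ℝ x y = inner ℝ x m * inner ℝ m y + inner ℝ x e * inner ℝ e y +
      inner ℝ x f * inner ℝ f y := by
  have hem : inner ℝ e m = 0 := by rw [real_inner_comm]; exact hme
  have hv : Orthonormal ℝ (({0, 1} : Set (Fin 3)).domRestrict ![m, e, (0 : E3)]) := by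
    constructor
    · rintro ⟨i, hi⟩
      rcases hi with rfl | hi
      · exact hm
      · rw [Set.mem_singleton_iff] at hi
        subst hi
        exact he
    · rintro ⟨i, hi⟩ ⟨j, hj⟩ hij
      rcases hi with rfl | hi
      · rcases hj with rfl | hj
        · exact absurd rfl hij
        · rw [Set.mem_singleton_iff] at hj
          subst hj
          exact hme
      · rw [Set.mem_singleton_iff] at hi
        subst hi
        rcases hj with rfl | hj
        · exact hem
        · rw [Set.mem_singleton_iff] at hj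
          subst hj
          exact absurd rfl hij
  obtain ⟨b, hb⟩ := hv.exists_orthonormalBasis_extension_of_card_eq (by simp)
  have h0 : b 0 = m := hb 0 (by simp)
  have h1 : b 1 = e := hb 1 (by simp)
  refine ⟨b 2, fun x y => ?_⟩
  rw [← b.sum_inner_mul_inner x y, Fin.sum_univ_three, h0, h1]

private lemma circ {X Y : ℝ} (h : X ^ 2 + Y ^ 2 = 1) :
    ∃ θ : ℝ, 0 ≤ θ ∧ θ < 2 * π ∧ X = cos θ ∧ Y = sin θ := by
  have hz : ‖(⟨X, Y⟩ : ℂ)‖ = 1 := by
    rw [Complex.norm_eq_sqrt_sq_add_sq]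
    simp [h]
  have hz0 : (⟨X, Y⟩ : ℂ) ≠ 0 := by
    intro h0
    rw [h0] at hz
    simp at hz
  have hc : cos (Complex.arg ⟨X, Y⟩) = X := by
    rw [Complex.cos_arg hz0, hz]
    simp
  have hs : sin (Complex.arg ⟨X, Y⟩) = Y := by
    rw [Complex.sin_arg, hz]
    simp
  have h1 := Complex.neg_pi_lt_arg (⟨X, Y⟩ : ℂ)
  have h2 := Complex.arg_le_pi (⟨X, Y⟩ : ℂ)
  have hpi := Real.pi_pos
  by_cases h3 : 0 ≤ Complex.arg ⟨X, Y⟩
  · exact ⟨_, h3, by linarith, hc.symm, hs.symm⟩
  · push Not at h3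
    refine ⟨Complex.arg ⟨X, Y⟩ + 2 * π, by linarith, by linarith, ?_, ?_⟩
    · rw [Real.cos_add_two_pi, hc]
    · rw [Real.sin_add_two_pi, hs]

private lemma eq_of_inner {x y : E3} (hx : ‖x‖ = 1) (hy : ‖y‖ = 1) (h : inner ℝ x y = 1) :
    x = y := by
  have h1 : ‖x - y‖ ^ 2 = 0 := by
    rw [norm_sub_sq_real, hx, hy, h]
    norm_num
  have h2 : ‖x - y‖ = 0 := by
    simpa using h1
  exact sub_eq_zero.1 (norm_eq_zero.1 h2)

private lemma gram_half (c θ : ℝ) : gram c (θ / 2) = c ^ 2 + (1 - c ^ 2) * cos θ := by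
  have h : cos θ = 1 - 2 * sin (θ / 2) ^ 2 := by
    have h1 := Real.cos_two_mul (θ / 2)
    have h2 := Real.sin_sq_add_cos_sq (θ / 2)
    rw [show 2 * (θ / 2) = θ by ring] at h1
    rw [h1]
    linarith
  unfold gram
  rw [h]
  ring

private lemma gram_pi_sub (c z : ℝ) : gram c (π - z) = gram c z := by
  unfold gram
  rw [Real.sin_pi_sub]

/-- PROOF. Let `c = 1 / ‖N‖`, `m = c • N` (a unit vector), so that `inner m p = c`, etc. (`N ≠ 0`
because `inner N p = 1`), and `0 < c ≤ 1` by Cauchy-Schwarz; if `c = 1` then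
`‖p - m‖^2 = 2 - 2 c = 0`, `p = m = q`, contradiction with `dt p q w ≠ 0` (`dt_self12`). Let
`s = √(1 - c^2) > 0`, `e = s⁻¹ • (p - c • m)` (a unit vector orthogonal to `m`) and `f = vx m e`
(so `m`, `e`, `f` is an orthonormal basis; every `x` is
`inner x m • m + inner x e • e + inner x f • f`, from `cramer` or by coordinates). For a unit
vector `x` with `inner m x = c` the pair
`(inner x e / s, inner x f / s)` has sum of squares `1`, so it is `(cos θ, sin θ)` with
`0 ≤ θ < 2π` (use `Complex.arg` shifted, or `exists_mem_Ico...`). For `q` and `w` we get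
`θ, θ'`, both in `(0, 2π)` because `q ≠ p`, `w ≠ p`, and `θ ≠ θ'` because `q ≠ w`. Then
`inner p q = c^2 + s^2 cos θ = 1 - 2 s^2 sin^2 (θ/2)`, `inner w p = 1 - 2 s^2 sin^2 (θ'/2)`,
`inner q w = c^2 + s^2 cos (θ - θ') = 1 - 2 s^2 sin^2 ((θ - θ')/2)`. If `θ < θ'` take
`a = θ/2`, `b = (θ' - θ)/2`, `d = π - θ'/2`; if `θ > θ'` take `a = π - θ/2`, `b = (θ - θ')/2`,
`d = θ'/2`. -/
theorem exists_par {p q w N : E3} (hp : ‖p‖ = 1) (hq : ‖q‖ = 1) (hw : ‖w‖ = 1)
    (hd : dt p q w ≠ 0) (h1 : inner ℝ N p = 1) (h2 : inner ℝ N q = 1) (h3 : inner ℝ N w = 1) :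
    ∃ a b d : ℝ, Par p q w (1 / ‖N‖) a b d := by
  have hpq : p ≠ q := by
    rintro rfl
    exact hd (dt_self12 _ _)
  have hpw : p ≠ w := by
    rintro rfl
    exact hd (dt_self13 _ _)
  have hqw : q ≠ w := by
    rintro rfl
    exact hd (dt_self23 _ _)
  have hN : N ≠ 0 := by
    rintro rfl
    simp at h1
  have hn : 0 < ‖N‖ := norm_pos_iff.2 hN
  set c : ℝ := 1 / ‖N‖ with hc
  have hc0 : 0 < c := by positivity
  obtain ⟨m, hm⟩ : ∃ m : E3, m = c • N := ⟨_, rfl⟩
  have hmn : ‖m‖ = 1 := by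
    rw [hm, norm_smul, Real.norm_of_nonneg hc0.le, hc]
    field_simp
  have hmp : inner ℝ m p = c := by rw [hm, real_inner_smul_left, h1, mul_one]
  have hmq : inner ℝ m q = c := by rw [hm, real_inner_smul_left, h2, mul_one]
  have hmw : inner ℝ m w = c := by rw [hm, real_inner_smul_left, h3, mul_one]
  have hc1 : c < 1 := by
    have hle : c ≤ 1 := by
      have := real_inner_le_norm m p
      rw [hmp, hmn, hp] at this
      linarith
    rcases hle.lt_or_eq with h | h
    · exact h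
    · exfalso
      rw [h] at hmp hmq
      exact hpq ((eq_of_inner hmn hp hmp).symm.trans (eq_of_inner hmn hq hmq))
  have hs2 : 0 < 1 - c ^ 2 := by nlinarith
  set s : ℝ := √(1 - c ^ 2) with hs
  have hs0 : 0 < s := Real.sqrt_pos.2 hs2
  have hss : s ^ 2 = 1 - c ^ 2 := Real.sq_sqrt hs2.le
  obtain ⟨e, he⟩ : ∃ e : E3, e = s⁻¹ • (p - c • m) := ⟨_, rfl⟩
  have hnpm : ‖p - c • m‖ ^ 2 = s ^ 2 := by
    rw [norm_sub_sq_real, hp, norm_smul, hmn, real_inner_smul_right, real_inner_comm, hmp, hss,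
      Real.norm_of_nonneg hc0.le]
    ring
  have hnpm' : ‖p - c • m‖ = s := by
    have := norm_nonneg (p - c • m)
    nlinarith
  have hen : ‖e‖ = 1 := by
    rw [he, norm_smul, hnpm', norm_inv, Real.norm_of_nonneg hs0.le]
    field_simp
  have hme : inner ℝ m e = 0 := by
    rw [he, real_inner_smul_right, inner_sub_right, real_inner_smul_right, hmp,
      real_inner_self_eq_norm_sq, hmn]
    ring
  obtain ⟨f, hf⟩ := onb hmn hen hme
  have hpx : p = c • m + s • e := by
    rw [he, smul_smul, mul_inv_cancel₀ hs0.ne', one_smul]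
    abel
  -- parameters of a point
  have key : ∀ x : E3, ‖x‖ = 1 → inner ℝ m x = c → x ≠ p → ∃ θ : ℝ, 0 < θ ∧ θ < 2 * π ∧
      inner ℝ x e = s * cos θ ∧ inner ℝ x f = s * sin θ := by
    intro x hx hmx hxp
    have hxx := hf x x
    rw [real_inner_self_eq_norm_sq, hx, real_inner_comm m x, hmx, real_inner_comm x e,
      real_inner_comm x f] at hxx
    obtain ⟨θ, h0, hlt, hX, hY⟩ := circ (X := inner ℝ x e / s) (Y := inner ℝ x f / s) (by
      rw [div_pow, div_pow, ← add_div, div_eq_one_iff_eq (by positivity), hss]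
      linarith)
    rw [div_eq_iff hs0.ne'] at hX hY
    refine ⟨θ, ?_, hlt, by rw [hX]; ring, by rw [hY]; ring⟩
    rcases h0.lt_or_eq with h | h
    · exact h
    · exfalso
      rw [← h] at hX
      apply hxp
      apply eq_of_inner hx hp
      rw [hpx, inner_add_right, real_inner_smul_right, real_inner_smul_right,
        real_inner_comm m x, hmx, hX, Real.cos_zero]
      linarith [hss]
  obtain ⟨θ, hθ0, hθ2, hqe, hqf⟩ := key q hq hmq hpq.symm
  obtain ⟨θ', hθ0', hθ2', hwe, hwf⟩ := key w hw hmw hpw.symm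
  have ipq : inner ℝ p q = c ^ 2 + (1 - c ^ 2) * cos θ := by
    rw [hpx, inner_add_left, real_inner_smul_left, real_inner_smul_left, hmq,
      real_inner_comm q e, hqe, ← hss]
    ring
  have iwp : inner ℝ w p = c ^ 2 + (1 - c ^ 2) * cos θ' := by
    rw [hpx, inner_add_right, real_inner_smul_right, real_inner_smul_right,
      real_inner_comm m w, hmw, hwe, ← hss]
    ring
  have iqw : inner ℝ q w = c ^ 2 + (1 - c ^ 2) * cos (θ - θ') := by
    rw [hf q w, real_inner_comm m q, hmq, hmw, real_inner_comm w e, hwe, hqe,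
      real_inner_comm w f, hwf, hqf, Real.cos_sub, ← hss]
    ring
  have hne : θ ≠ θ' := by
    intro h
    apply hqw
    apply eq_of_inner hq hw
    rw [iqw, h, sub_self, Real.cos_zero]
    ring
  rcases lt_or_gt_of_ne hne with h | h
  · refine ⟨θ / 2, (θ' - θ) / 2, π - θ' / 2, hc0, hc1, by linarith, by linarith, by linarith,
      by ring, ?_, ?_, ?_⟩
    · rw [gram_half, ipq]
    · rw [gram_half, iqw, ← Real.cos_neg, neg_sub]
    · rw [gram_pi_sub, gram_half, iwp]
  · refine ⟨π - θ / 2, (θ - θ') / 2, θ' / 2, hc0, hc1, by linarith, by linarith, by linarith,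
      by ring, ?_, ?_, ?_⟩
    · rw [gram_pi_sub, gram_half, ipq]
    · rw [gram_half, iqw]
    · rw [gram_half, iwp]

end Pool.Agent.C32
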