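import Pool.Agent.Lib.MP_488b8a_co_W.Fac
import Pool.Agent.Lib.MP_488b8a_co.LP3

/-! # Project C32, module Sec: the cones over the facets cover the space, and the sectors at a
vertex cover all directions -/

set_option autoImplicit false

namespace Pool.Agent.C32

open Real MeasureTheory

variable {n : ℕ}

private theorem sec_span (p : Fin n → E3) :
    ∀ᵐ x : E3, ∀ i j, x ∉ Submodule.span ℝ {p i, p j} := by
  rw [ae_all_iff]
  intro i
  rw [ae_all_iff]
  intro j
  have h : Submodule.span ℝ {p i, p j} ≠ ⊤ := by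
    intro htop
    have h1 : Module.finrank ℝ (Submodule.span ℝ ({p i, p j} : Set E3)) ≤ 2 := by
      classical
      have := finrank_span_finset_le_card (R := ℝ) (({p i, p j} : Finset E3))
      simp only [Finset.coe_insert, Finset.coe_singleton] at this
      refine this.trans ?_
      exact Finset.card_le_two
    rw [htop, finrank_top, finrank_euclideanSpace_fin] at h1
    omega
  exact measure_eq_zero_iff_ae_notMem.mp (Measure.addHaar_submodule volume _ h)

private theorem sec_closed (p q w : E3) : IsClosed {x : E3 | InC p q w x} := by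
  have c1 : Continuous fun x : E3 => dt p q w * dt x q w := by
    unfold dt
    fun_prop
  have c2 : Continuous fun x : E3 => dt p q w * dt p x w := by
    unfold dt
    fun_prop
  have c3 : Continuous fun x : E3 => dt p q w * dt p q x := by
    unfold dt
    fun_prop
  exact (isClosed_le continuous_const c1).inter
    ((isClosed_le continuous_const c2).inter (isClosed_le continuous_const c3))

/-- PROOF. For almost every `x` (in particular for a dense set of `x`) `x` lies in no plane spanned
by two of the points (see the private lemma `facet3_span` of `Lib/MP_488b8a_co/Facet3.lean`: a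
proper subspace has measure zero; copy it), and then `Pool.Agent.CAPS.lp3` gives a
facet (`dt_ne_iff`, `Facet`, `mem_facets`) whose cone contains `x` (`inC_of_coeff`). The set of all
`x` which lie in the closed cone of some facet is closed (finite union of sets given by inequalities
between continuous functions), and it contains a dense set. -/
theorem cone_cover {p : Fin n → E3} {κ : ℝ} (hκ : 0 < κ) (hG : Gen p) (hC : Covers p κ) (x : E3) :
    ∃ i j k, Facet p (i, j, k) ∧ InC (p i) (p j) (p k) x := by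
  have hS : IsClosed {x : E3 | ∃ t : Fin n × Fin n × Fin n, Facet p t ∧
      InC (p t.1) (p t.2.1) (p t.2.2) x} := by
    have e : {x : E3 | ∃ t : Fin n × Fin n × Fin n, Facet p t ∧
        InC (p t.1) (p t.2.1) (p t.2.2) x} =
        ⋃ t ∈ {t : Fin n × Fin n × Fin n | Facet p t},
          {x : E3 | InC (p t.1) (p t.2.1) (p t.2.2) x} := by
      ext x
      simp only [Set.mem_ofPred_eq, Set.mem_iUnion, exists_prop]
    rw [e]
    exact (Set.toFinite _).isClosed_biUnion fun t _ => sec_closed _ _ _
  have hD : Dense {x : E3 | ∃ t : Fin n × Fin n × Fin n, Facet p t ∧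
      InC (p t.1) (p t.2.1) (p t.2.2) x} := by
    refine (Measure.dense_of_ae (sec_span p)).mono fun x hx => ?_
    obtain ⟨N, i, j, k, α, β, γ, -, hli, hi, hj, hk, hlt, hα, hβ, hγ, hxe⟩ :=
      Pool.Agent.CAPS.lp3 p hκ hC hG.2.2 hx
    refine ⟨(i, j, k), ⟨(dt_ne_iff _ _ _).2 hli, N, hi, hj, hk, hlt⟩, ?_⟩
    rw [hxe]
    exact inC_of_coeff hα hβ hγ
  have h1 : x ∈ {x : E3 | ∃ t : Fin n × Fin n × Fin n, Facet p t ∧
      InC (p t.1) (p t.2.1) (p t.2.2) x} := by
    have h2 := hD.closure_eq
    rw [hS.closure_eq] at h2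
    rw [h2]
    exact Set.mem_univ x
  obtain ⟨⟨i, j, k⟩, h3, h4⟩ := h1
  exact ⟨i, j, k, h3, h4⟩

/-- PROOF. Let `x m = p i + (1/(m+1)) • u → p i`. By `cone_cover` each `x m` lies in the cone of a
facet `t m`; since there are finitely many triples, one facet `t` occurs for infinitely many `m`
(`∃ᶠ m in atTop`). The cone is closed (`IsClosed.mem_of_frequently_of_tendsto`), so `p i` lies in
the cone of `t`, and `i` is a vertex of `t` by `cone_vertex`. After a permutation of the vertices
(`facet_perm1`, `facet_perm2`, `inC_swap`, `inC_rot`) `t = (i, j, k)`. Take any `m` with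
`t m = t`: by `inC_inS`, `0 ≤ D * dt (p i) (x m) (p k)` and `0 ≤ D * dt (p i) (p j) (x m)`; by
linearity and `dt_self12`, `dt_self13` these are `(1/(m+1))` times the same expressions with `u`
in place of `x m`. -/
theorem sec_cover {p : Fin n → E3} {κ : ℝ} (hκ : 0 < κ) (hG : Gen p) (hC : Covers p κ) (i : Fin n)
    (u : E3) : ∃ j k, Facet p (i, j, k) ∧ InS (p i) (p j) (p k) u := by
  obtain ⟨x, hx⟩ : ∃ x : ℕ → E3, x = fun m : ℕ => p i + (1 / ((m : ℝ) + 1)) • u := ⟨_, rfl⟩
  have hxt : Filter.Tendsto x Filter.atTop (nhds (p i)) := by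
    have h1 : Filter.Tendsto (fun m : ℕ => p i + (1 / ((m : ℝ) + 1)) • u) Filter.atTop
        (nhds (p i + (0 : ℝ) • u)) :=
      tendsto_const_nhds.add (tendsto_one_div_add_atTop_nhds_zero_nat.smul_const u)
    rw [hx]
    rwa [zero_smul, add_zero] at h1
  have h1 : ∀ m, ∃ t : Fin n × Fin n × Fin n, Facet p t ∧
      InC (p t.1) (p t.2.1) (p t.2.2) (x m) := fun m => by
    obtain ⟨i, j, k, h2, h3⟩ := cone_cover hκ hG hC (x m)
    exact ⟨(i, j, k), h2, h3⟩
  choose T hT hTC using h1
  obtain ⟨t, ht⟩ : ∃ t, ∃ᶠ m in Filter.atTop, T m = t := by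
    by_contra hcon
    have h2 : ∀ t, ∀ᶠ m in Filter.atTop, T m ≠ t := fun t => by
      by_contra h3
      exact hcon ⟨t, fun h4 => h3 h4⟩
    obtain ⟨m, hm⟩ := (Filter.eventually_all.2 h2).exists
    exact hm (T m) rfl
  have h2 : InC (p t.1) (p t.2.1) (p t.2.2) (p i) := by
    have h3 : ∃ᶠ m in Filter.atTop, x m ∈ {x : E3 | InC (p t.1) (p t.2.1) (p t.2.2) x} :=
      ht.mono fun m hm => by
        have := hTC m
        rw [hm] at this
        exact this
    exact (sec_closed _ _ _).mem_of_frequently_of_tendsto h3 hxt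
  obtain ⟨m, hm⟩ := ht.exists
  have hF := hT m
  have hI := hTC m
  rw [hm] at hF hI
  obtain ⟨a, b, c⟩ := t
  have key : ∃ j k, Facet p (i, j, k) ∧ InC (p i) (p j) (p k) (x m) := by
    rcases cone_vertex hG.1 hF h2 with h | h | h
    · subst h
      exact ⟨b, c, hF, hI⟩
    · subst h
      exact ⟨a, c, facet_perm1 hF, inC_swap hI⟩
    · subst h
      exact ⟨a, b, facet_perm2 (facet_perm2 hF), inC_rot (inC_rot hI)⟩
  obtain ⟨j, k, hF', hI'⟩ := key
  refine ⟨j, k, hF', ?_⟩
  obtain ⟨-, k1, k2⟩ := hI'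
  have hε : (0 : ℝ) < 1 / ((m : ℝ) + 1) := by positivity
  obtain ⟨ε, hεe⟩ : ∃ ε : ℝ, ε = 1 / ((m : ℝ) + 1) := ⟨_, rfl⟩
  rw [← hεe] at hε
  have hxm : x m = (1 : ℝ) • p i + ε • u := by
    rw [hx, one_smul, hεe]
  rw [hxm, dt_lin2, dt_self12] at k1
  rw [hxm, dt_lin3, dt_self13] at k2
  constructor
  · have e1 : dt (p i) (p j) (p k) * (1 * 0 + ε * dt (p i) u (p k)) =
        ε * (dt (p i) (p j) (p k) * dt (p i) u (p k)) := by ring
    rw [e1] at k1
    exact nonneg_of_mul_nonneg_right k1 hε
  · have e1 : dt (p i) (p j) (p k) * (1 * 0 + ε * dt (p i) (p j) u) =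
        ε * (dt (p i) (p j) (p k) * dt (p i) (p j) u) := by ring
    rw [e1] at k2
    exact nonneg_of_mul_nonneg_right k2 hε

end Pool.Agent.C32
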