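import Pool.Agent.Lib.MP_488b8a_co_W.Sec
import Pool.Agent.Lib.MP_488b8a_co_W.Arc
import Pool.Agent.Lib.MP_488b8a_co_W.Ang

/-! # Project C32, module SumA: the angle sum at a vertex is at least `2π` -/

set_option autoImplicit false

namespace Pool.Agent.C32

open Real

private theorem pr_orth {p : E3} (hp : ‖p‖ = 1) (q : E3) : inner ℝ p (pr p q) = 0 := by
  unfold pr
  rw [inner_sub_right, real_inner_smul_right, real_inner_self_eq_norm_sq, hp]
  ring

private theorem dt_pr (p v w : E3) : dt p (pr p v) (pr p w) = dt p v w := by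
  simp only [dt, pr, PiLp.sub_apply, PiLp.smul_apply, smul_eq_mul]
  ring

private theorem frame {p e : E3} (hp : ‖p‖ = 1) (he : ‖e‖ = 1) (hpe : inner ℝ p e = 0) :
    ∃ J : ℂ →ₗᵢ[ℝ] E3, (∀ z, inner ℝ p (J z) = 0) ∧
      ∀ x, inner ℝ p x = 0 → ∃ z, J z = x := by
  have hf : ‖vx p e‖ ^ 2 = 1 := by
    rw [vx_norm_sq, real_inner_self_eq_norm_sq, real_inner_self_eq_norm_sq, hp, he, hpe]
    norm_num
  have hff : inner ℝ (vx p e) (vx p e) = (1 : ℝ) := by
    rw [real_inner_self_eq_norm_sq, hf]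
  have hee : inner ℝ e e = (1 : ℝ) := by
    rw [real_inner_self_eq_norm_sq, he]
    norm_num
  have hpf : inner ℝ p (vx p e) = 0 := inner_vx_left p e
  have hef : inner ℝ e (vx p e) = 0 := inner_vx_right p e
  have hfe : inner ℝ (vx p e) e = 0 := by rw [real_inner_comm]; exact hef
  have hf0 : vx p e ≠ 0 := by
    intro h
    rw [h] at hf
    norm_num at hf
  let L : ℂ →ₗ[ℝ] E3 :=
    { toFun := fun z => z.re • e + z.im • vx p e
      map_add' := by
        intro x y
        simp only [Complex.add_re, Complex.add_im, add_smul]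
        abel
      map_smul' := by
        intro c x
        simp only [Complex.smul_re, Complex.smul_im, smul_eq_mul, RingHom.id_apply, smul_add,
          mul_smul] }
  have hL : ∀ z, ‖L z‖ = ‖z‖ := by
    intro z
    have h1 : ‖L z‖ ^ 2 = ‖z‖ ^ 2 := by
      rw [← real_inner_self_eq_norm_sq, Complex.sq_norm, Complex.normSq_apply]
      change inner ℝ (z.re • e + z.im • vx p e) (z.re • e + z.im • vx p e) = _
      simp only [inner_add_left, inner_add_right, real_inner_smul_left, real_inner_smul_right,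
        hee, hff, hef, hfe]
      ring
    have h2 := abs_eq_abs.2 (sq_eq_sq_iff_eq_or_eq_neg.1 h1)
    rwa [abs_of_nonneg (norm_nonneg _), abs_of_nonneg (norm_nonneg _)] at h2
  refine ⟨⟨L, hL⟩, ?_, ?_⟩
  · intro z
    change inner ℝ p (z.re • e + z.im • vx p e) = 0
    rw [inner_add_right, real_inner_smul_right, real_inner_smul_right, hpe, hpf]
    ring
  · intro x hx
    obtain ⟨t, ht⟩ := eq_smul_vx (x := p) (y := e) (u := x - inner ℝ e x • e) hf0
      (by
        rw [inner_sub_left, real_inner_smul_left, real_inner_comm, hx, real_inner_comm p e, hpe]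
        ring)
      (by
        rw [inner_sub_left, real_inner_smul_left, hee, real_inner_comm]
        ring)
    refine ⟨⟨inner ℝ e x, t⟩, ?_⟩
    change (inner ℝ e x) • e + t • vx p e = x
    rw [← ht]
    abel

/-- PROOF. Choose unit vectors `e`, `f` with `p`, `e`, `f` orthonormal (`e` any unit vector
orthogonal to `p`, `f = vx p e`) and let `J z = z.re • e + z.im • f`, a linear isometry of `ℂ` onto
the orthogonal complement of `p`, with inverse `K x = ⟨inner x e, inner x f⟩` there; it preserves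
angles. For `s ∈ S` let `V s = K (pr p (v s))`, `W s = K (pr p (w s))`: linearly independent
(`dt p (v s) (w s) ≠ 0` and `dt p (v s) (w s) = dt p (pr p (v s)) (pr p (w s))`), so nonzero with
`V s / ‖V s‖ + W s / ‖W s‖ ≠ 0 =: m s`. For `u : ℂ`, `‖u‖ = 1`, there is `s ∈ S` with
`InS p (v s) (w s) (J u)`; by `inS_coeff` `J u = l p + α v s + β w s`, apply `pr p`:
`J u = α pr p (v s) + β pr p (w s)`, `u = α V s + β W s`. By `half_angle` (scale to unit vectors)
`angle u (m s) ≤ angle (V s) (W s) / 2 = ang p (v s) (w s) / 2`. Now `arc_sum`. -/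
theorem sec_sum {ι : Type*} (S : Finset ι) {p : E3} (hp : ‖p‖ = 1) (v w : ι → E3)
    (hd : ∀ s ∈ S, dt p (v s) (w s) ≠ 0) (hc : ∀ u : E3, ∃ s ∈ S, InS p (v s) (w s) u) :
    2 * π ≤ ∑ s ∈ S, ang p (v s) (w s) := by
  have hV : ∀ s ∈ S, pr p (v s) ≠ 0 := by
    intro s hs h0
    apply hd s hs
    rw [← dt_pr, h0]
    simp [dt]
  have hW : ∀ s ∈ S, pr p (w s) ≠ 0 := by
    intro s hs h0
    apply hd s hs
    rw [← dt_pr, h0]
    simp [dt]
  obtain ⟨s₀, hs₀, -⟩ := hc 0
  have hn0 : ‖pr p (v s₀)‖ ≠ 0 := norm_ne_zero_iff.2 (hV s₀ hs₀)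
  obtain ⟨J, hJp, hJs⟩ := frame (p := p) (e := ‖pr p (v s₀)‖⁻¹ • pr p (v s₀)) hp
    (by
      rw [norm_smul, norm_inv, norm_norm]
      exact inv_mul_cancel₀ hn0)
    (by rw [real_inner_smul_right, pr_orth hp]; ring)
  choose! K hK using hJs
  have hKv : ∀ s, J (K (pr p (v s))) = pr p (v s) := fun s => hK _ (pr_orth hp _)
  have hKw : ∀ s, J (K (pr p (w s))) = pr p (w s) := fun s => hK _ (pr_orth hp _)
  set V : ι → ℂ := fun s => K (pr p (v s)) with hVdef
  set W : ι → ℂ := fun s => K (pr p (w s)) with hWdef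
  have hV0 : ∀ s ∈ S, V s ≠ 0 := by
    intro s hs h0
    apply hV s hs
    rw [← hKv s]
    change J (V s) = 0
    rw [h0, map_zero]
  have hW0 : ∀ s ∈ S, W s ≠ 0 := by
    intro s hs h0
    apply hW s hs
    rw [← hKw s]
    change J (W s) = 0
    rw [h0, map_zero]
  have key : π ≤ ∑ s ∈ S, ang p (v s) (w s) / 2 := by
    apply arc_sum S (fun s => ‖V s‖⁻¹ • V s + ‖W s‖⁻¹ • W s)
    · intro s hs h0
      have h1 : ‖V s‖⁻¹ • pr p (v s) + ‖W s‖⁻¹ • pr p (w s) = 0 := by
        have h2 := congrArg J h0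
        simp only [map_add, map_zero, LinearIsometry.map_smul] at h2
        rw [← hKv s, ← hKw s]
        exact h2
      have h3 : dt p (‖V s‖⁻¹ • pr p (v s) + ‖W s‖⁻¹ • pr p (w s)) (pr p (w s)) = 0 := by
        rw [h1]
        simp [dt]
      rw [dt_lin2, dt_self23, dt_pr, mul_zero, add_zero] at h3
      rcases mul_eq_zero.1 h3 with h4 | h4
      · exact inv_ne_zero (norm_ne_zero_iff.2 (hV0 s hs)) h4
      · exact hd s hs h4
    · intro s _
      exact div_nonneg (InnerProductGeometry.angle_nonneg _ _) (by norm_num)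
    · intro u hu
      obtain ⟨s, hs, hin⟩ := hc (J u)
      obtain ⟨l, α, β, ha, hb, he⟩ := inS_coeff (hd s hs) hin
      refine ⟨s, hs, ?_⟩
      have hu0 : u ≠ 0 := by
        intro h
        rw [h] at hu
        norm_num at hu
      have hnV : 0 < ‖V s‖ := norm_pos_iff.2 (hV0 s hs)
      have hnW : 0 < ‖W s‖ := norm_pos_iff.2 (hW0 s hs)
      have h1 : J u = α • pr p (v s) + β • pr p (w s) := by
        have h2 : inner ℝ p (J u) = 0 := hJp u
        rw [he, inner_add_right, inner_add_right, real_inner_smul_right, real_inner_smul_right,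
          real_inner_smul_right, real_inner_self_eq_norm_sq, hp] at h2
        have h3 : l = -(α * inner ℝ p (v s) + β * inner ℝ p (w s)) := by linarith
        rw [he, h3]
        unfold pr
        module
      have h4 : u = α • V s + β • W s := by
        apply J.injective
        rw [h1, map_add, LinearIsometry.map_smul, LinearIsometry.map_smul]
        change _ = α • J (K (pr p (v s))) + β • J (K (pr p (w s)))
        rw [hKv s, hKw s]
      have h5 : u = (α * ‖V s‖) • (‖V s‖⁻¹ • V s) + (β * ‖W s‖) • (‖W s‖⁻¹ • W s) := by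
        rw [smul_smul, smul_smul, mul_assoc, mul_assoc, mul_inv_cancel₀ hnV.ne',
          mul_inv_cancel₀ hnW.ne', mul_one, mul_one]
        exact h4
      have h6 : ‖V s‖⁻¹ • V s + ‖W s‖⁻¹ • W s ≠ 0 := by
        intro h0
        have h1 : ‖V s‖⁻¹ • pr p (v s) + ‖W s‖⁻¹ • pr p (w s) = 0 := by
          have h2 := congrArg J h0
          simp only [map_add, map_zero, LinearIsometry.map_smul] at h2
          rw [← hKv s, ← hKw s]
          exact h2
        have h3 : dt p (‖V s‖⁻¹ • pr p (v s) + ‖W s‖⁻¹ • pr p (w s)) (pr p (w s)) = 0 := by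
          rw [h1]
          simp [dt]
        rw [dt_lin2, dt_self23, dt_pr, mul_zero, add_zero] at h3
        rcases mul_eq_zero.1 h3 with h4 | h4
        · exact inv_ne_zero hnV.ne' h4
        · exact hd s hs h4
      have h7 := half_angle (V := ℂ) (v := ‖V s‖⁻¹ • V s) (w := ‖W s‖⁻¹ • W s)
        (by rw [norm_smul, norm_inv, norm_norm]; exact inv_mul_cancel₀ hnV.ne')
        (by rw [norm_smul, norm_inv, norm_norm]; exact inv_mul_cancel₀ hnW.ne') h6 hu0
        (mul_nonneg ha hnV.le) (mul_nonneg hb hnW.le) h5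
      rw [InnerProductGeometry.angle_smul_left_of_pos _ _ (inv_pos.2 hnV),
        InnerProductGeometry.angle_smul_right_of_pos _ _ (inv_pos.2 hnW),
        ← J.angle_map (V s) (W s)] at h7
      have h8 : J (V s) = pr p (v s) := hKv s
      have h9 : J (W s) = pr p (w s) := hKw s
      rw [h8, h9] at h7
      exact h7
  rw [← Finset.sum_div] at key
  linarith

private theorem half_sum {n : ℕ} {p : Fin n → E3} {κ : ℝ} (hκ : 0 < κ) (hG : Gen p)
    (hC : Covers p κ) (i : Fin n) (S : Finset (Fin n × Fin n × Fin n))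
    (h1 : ∀ t ∈ S, Facet p t ∧ t.1 = i)
    (h2 : ∀ j k, j ≠ k → Facet p (i, j, k) → (i, j, k) ∈ S ∨ (i, k, j) ∈ S) :
    2 * π ≤ ∑ t ∈ S, ang (p i) (p t.2.1) (p t.2.2) := by
  have hd : ∀ t ∈ S, dt (p i) ((fun t : Fin n × Fin n × Fin n => p t.2.1) t)
      ((fun t : Fin n × Fin n × Fin n => p t.2.2) t) ≠ 0 := by
    intro t ht
    have h := (h1 t ht).1.1
    rw [(h1 t ht).2] at h
    exact h
  have hc : ∀ u : E3, ∃ t ∈ S, InS (p i) ((fun t : Fin n × Fin n × Fin n => p t.2.1) t)
      ((fun t : Fin n × Fin n × Fin n => p t.2.2) t) u := by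
    intro u
    obtain ⟨j, k, hF, hI⟩ := sec_cover hκ hG hC i u
    rcases h2 j k (facet_ne hF).2.1 hF with h | h
    · exact ⟨(i, j, k), h, hI⟩
    · exact ⟨(i, k, j), h, inS_swap hI⟩
  exact sec_sum S (hG.1 i) _ _ hd hc

/-- PROOF. The ordered facets `(i, j, k)` with `j < k` and those with `k < j` are disjoint subsets
of the index set of the sum; each of them satisfies the hypothesis of `sec_sum` (`sec_cover`,
`inS_swap`, `facet_perm1`, `facet_perm2` to exchange `j` and `k`), and `ang ≥ 0`. -/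
theorem angle_sum {n : ℕ} {p : Fin n → E3} {κ : ℝ} (hκ : 0 < κ) (hG : Gen p) (hC : Covers p κ)
    (i : Fin n) :
    4 * π ≤ ∑ t ∈ (facets p).filter (fun t => t.1 = i), ang (p t.1) (p t.2.1) (p t.2.2) := by
  have h0 : ∑ t ∈ (facets p).filter (fun t => t.1 = i), ang (p t.1) (p t.2.1) (p t.2.2) =
      ∑ t ∈ (facets p).filter (fun t => t.1 = i), ang (p i) (p t.2.1) (p t.2.2) := by
    apply Finset.sum_congr rfl
    intro t ht
    rw [(Finset.mem_filter.1 ht).2]
  rw [h0, ← Finset.sum_filter_add_sum_filter_not _ (fun t => t.2.1 < t.2.2)]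
  have h1 := half_sum hκ hG hC i (((facets p).filter (fun t => t.1 = i)).filter
      (fun t => t.2.1 < t.2.2))
    (by
      intro t ht
      have h := (Finset.mem_filter.1 (Finset.mem_filter.1 ht).1)
      exact ⟨(mem_facets p t).1 h.1, h.2⟩)
    (by
      intro j k hjk hF
      rcases lt_or_gt_of_ne hjk with hlt | hlt
      · left
        exact Finset.mem_filter.2 ⟨Finset.mem_filter.2 ⟨(mem_facets p _).2 hF, rfl⟩, hlt⟩
      · right
        exact Finset.mem_filter.2 ⟨Finset.mem_filter.2
          ⟨(mem_facets p _).2 (facet_perm2 (facet_perm1 hF)), rfl⟩, hlt⟩)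
  have h2 := half_sum hκ hG hC i (((facets p).filter (fun t => t.1 = i)).filter
      (fun t => ¬ t.2.1 < t.2.2))
    (by
      intro t ht
      have h := (Finset.mem_filter.1 (Finset.mem_filter.1 ht).1)
      exact ⟨(mem_facets p t).1 h.1, h.2⟩)
    (by
      intro j k hjk hF
      rcases lt_or_gt_of_ne hjk with hlt | hlt
      · right
        exact Finset.mem_filter.2 ⟨Finset.mem_filter.2
          ⟨(mem_facets p _).2 (facet_perm2 (facet_perm1 hF)), rfl⟩, not_lt.2 hlt.le⟩
      · left
        exact Finset.mem_filter.2 ⟨Finset.mem_filter.2 ⟨(mem_facets p _).2 hF, rfl⟩,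
          not_lt.2 hlt.le⟩)
  linarith

end Pool.Agent.C32
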