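import Pool.Agent.Lib.MP_488b8a_co_W.Vec
import Pool.Agent.Lib.MP_488b8a_co_W.Num3

/-! # Project C32, module Twin: the triangle on the other side of a side -/

set_option autoImplicit false

namespace Pool.Agent.C32

open Real

variable {p : Fin 32 → E3} {lb : Fin 32 → Bool} {T : Finset (Fin 32 × Fin 32 × Fin 32)}

private theorem twin_self (h : Tiling p lb T) (i : Fin 32) : inner ℝ (p i) (p i) = 1 := by
  rw [real_inner_self_eq_norm_sq, h.unit, one_pow]

private theorem twin_swap (h : Tiling p lb T) {i j k : Fin 32} (ht : (i, j, k) ∈ T) :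
    (i, k, j) ∈ T :=
  h.perm1 _ _ _ (h.perm2 _ _ _ (h.perm2 _ _ _ ht))

/-- PROOF. `gram_det` with `inner x x = 1`, `dist` and the three cases of `one`: in each case
`dt^2 = 1 + 2 g56^2 g66 - 2 g56^2 - g66^2 > 0` (`gram_tight_pos`). -/
theorem til_dt (h : Tiling p lb T) {i j k : Fin 32} (ht : (i, j, k) ∈ T) :
    dt (p i) (p j) (p k) ≠ 0 := by
  intro h0
  have h1 := gram_det (p i) (p j) (p k)
  have e1 := h.dist i j k ht
  have e2 := h.dist j k i (h.perm2 _ _ _ ht)
  have e3 := h.dist i k j (twin_swap h ht)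
  rw [h0, twin_self h, twin_self h, twin_self h, e1, e2, e3] at h1
  have h2 := gram_tight_pos
  rcases h.one i j k ht with ⟨a, b, c⟩ | ⟨a, b, c⟩ | ⟨a, b, c⟩ <;> rw [a, b, c] at h1 <;>
    simp only [GG, Bool.or_false, Bool.or_true, Bool.or_self, if_true, Bool.false_eq_true,
      if_false] at h1 <;> nlinarith

/-- A unit vector in the direction of a farther vertex lies beyond the facet. -/
private theorem twin_aux {x y y' N : E3} (hx : inner ℝ x x = 1) (hy : inner ℝ y y = 1)
    (hy' : inner ℝ y' y' = 1) {l α : ℝ} (hα : 0 < α) (he : y = l • x + α • y')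
    (h0 : 0 < inner ℝ x y') (h1 : inner ℝ x y' < inner ℝ x y) (h2 : inner ℝ x y < 1)
    (n1 : inner ℝ N x = 1) (n2 : inner ℝ N y' = 1) (n3 : inner ℝ N y ≤ 1) : False := by
  have e1 : inner ℝ x y = l + α * inner ℝ x y' := by
    rw [he, inner_add_right, inner_smul_right, inner_smul_right, hx, mul_one]
  have e2 : inner ℝ y y = l ^ 2 + α ^ 2 + 2 * l * α * inner ℝ x y' := by
    rw [he, inner_add_right, inner_add_left, inner_add_left, inner_smul_left, inner_smul_left,
      inner_smul_left, inner_smul_left, inner_smul_right, inner_smul_right, inner_smul_right,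
      inner_smul_right, hx, hy', real_inner_comm x y']
    simp only [conj_trivial]
    ring
  have e3 : inner ℝ N y = l + α := by
    rw [he, inner_add_right, inner_smul_right, inner_smul_right, n1, n2, mul_one, mul_one]
  rw [hy] at e2
  rw [e3] at n3
  set s := inner ℝ x y with hs
  set s' := inner ℝ x y' with hs'
  have e4 : 1 - s ^ 2 = α ^ 2 * (1 - s' ^ 2) := by
    rw [e1]
    linear_combination e2
  have h3 : α < 1 := by
    by_contra hc
    have h4 : 1 ≤ α := not_lt.1 hc
    have h5 : (1 : ℝ) ≤ α ^ 2 := by nlinarith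
    have h6 : 0 < 1 - s' ^ 2 := by nlinarith
    have h7 : s' ^ 2 < s ^ 2 := by nlinarith
    nlinarith
  have h4 : 0 < l := by nlinarith
  have h5 : (l + α) ^ 2 ≤ 1 := by nlinarith
  have h6 : 0 < l * α := mul_pos h4 hα
  nlinarith

private theorem twin_unit {x y y' : E3} (hx : inner ℝ x x = 1) (hy : inner ℝ y y = 1)
    (hy' : inner ℝ y' y' = 1) {l α : ℝ} (hα : 0 < α) (he : y = l • x + α • y')
    (h0 : 0 < inner ℝ x y') (h1 : inner ℝ x y = inner ℝ x y') (h2 : inner ℝ x y < 1) :
    y' = y := by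
  have e1 : inner ℝ x y = l + α * inner ℝ x y' := by
    rw [he, inner_add_right, inner_smul_right, inner_smul_right, hx, mul_one]
  have e2 : inner ℝ y y = l ^ 2 + α ^ 2 + 2 * l * α * inner ℝ x y' := by
    rw [he, inner_add_right, inner_add_left, inner_add_left, inner_smul_left, inner_smul_left,
      inner_smul_left, inner_smul_left, inner_smul_right, inner_smul_right, inner_smul_right,
      inner_smul_right, hx, hy', real_inner_comm x y']
    simp only [conj_trivial]
    ring
  rw [hy] at e2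
  rw [h1] at e1 h2
  have e4 : (1 - α ^ 2) * (1 - inner ℝ x y' ^ 2) = 0 := by
    have e5 : l = inner ℝ x y' - α * inner ℝ x y' := by linarith
    rw [e5] at e2
    linear_combination e2
  have h3 : 0 < 1 - inner ℝ x y' ^ 2 := by nlinarith
  have h4 : 1 - α ^ 2 = 0 := by
    rcases mul_eq_zero.1 e4 with h | h
    · exact h
    · exact absurd h h3.ne'
  have h5 : α = 1 := by nlinarith
  rw [h5, one_mul] at e1
  have h6 : l = 0 := by linarith
  rw [he, h5, h6, zero_smul, one_smul, zero_add]


/-- two neighbours of a vertex in the same direction coincide.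

PROOF. `s = inner x y = GG (lb i) (lb j)`, `s' = inner x y' = GG (lb i) (lb a)` with `x = p i`,
`y = p j`, `y' = p a`, `y = l x + α y'`, `α > 0` (all unit vectors). Then `s = l + α s'`,
`1 = l^2 + α^2 + 2 l α s'`, so `1 - s^2 = α^2 (1 - s'^2)`.
If `s = s'`: `α = 1`, `l = 0`, `y = y'`; and `lb a = lb j`: if `lb i = false` because
`GG false l` is `g56` or `g66`, different by `g66_lt`; if `lb i = true` then
`lb j = lb a = false` by `one`.
If `s > s'` then `α < 1`, `l = s - α s' > 0` (`s' > 0`), so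
`(l + α)^2 > l^2 + α^2 + 2 l α s' = 1`, `l + α > 1`, and the normal `N` of the triangle
`(i, a, b)` (`supp`) has `inner N y = l + α > 1`, contradiction with `inner N (p j) ≤ 1`.
If `s < s'` then `y' = (-l/α) x + (1/α) y` and the same argument with the triangle `(i, j, k)`. -/
theorem til_same (h : Tiling p lb T) {i j k a b : Fin 32} (ht : (i, j, k) ∈ T)
    (ht' : (i, a, b) ∈ T) {l α : ℝ} (hα : 0 < α) (hy : p j = l • p i + α • p a) :
    p a = p j ∧ lb a = lb j := by
  obtain ⟨g1, g2, g3, g4⟩ := g_bounds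
  have hi := twin_self h i
  have hj := twin_self h j
  have ha := twin_self h a
  have e1 := h.dist i j k ht
  have e2 := h.dist i a b ht'
  obtain ⟨N, n1, n2, -, n3⟩ := h.supp i a b ht'
  obtain ⟨N', m1, m2, -, m3⟩ := h.supp i j k ht
  have hrev : p a = (-l / α) • p i + (1 / α) • p j := by
    rw [hy, smul_add, smul_smul, smul_smul, ← add_assoc, ← add_smul, one_div,
      inv_mul_cancel₀ hα.ne', one_smul, neg_div, ← div_eq_inv_mul, neg_add_cancel, zero_smul,
      zero_add]
  have key : lb a = lb j → p a = p j := by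
    intro hl
    refine twin_unit hi hj ha hα hy ?_ ?_ ?_
    · rw [e2]
      unfold GG
      split_ifs <;> linarith
    · rw [e1, e2, hl]
    · rw [e1]
      unfold GG
      split_ifs <;> linarith
  by_cases hl : lb a = lb j
  · exact ⟨key hl, hl⟩
  · exfalso
    have hif : lb i = false := by
      rcases h.one i j k ht with ⟨u, v, w⟩ | ⟨u, v, w⟩ | ⟨u, v, w⟩
      · rcases h.one i a b ht' with ⟨u', v', w'⟩ | ⟨u', v', w'⟩ | ⟨u', v', w'⟩
        · exact absurd (v'.trans v.symm) hl
        · exact u'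
        · exact u'
      · exact u
      · exact u
    rw [hif] at e1 e2
    cases hlj : lb j with
    | true =>
      have hla : lb a = false := by
        cases hla : lb a with
        | true => exact absurd (hla.trans hlj.symm) hl
        | false => rfl
      rw [hlj] at e1
      rw [hla] at e2
      simp only [GG, Bool.or_true, Bool.or_self, if_true, Bool.false_eq_true, if_false] at e1 e2
      exact twin_aux hi hj ha hα hy (by rw [e2]; linarith) (by rw [e1, e2]; linarith)
        (by rw [e1]; linarith) n1 n2 (n3 j)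
    | false =>
      have hla : lb a = true := by
        cases hla : lb a with
        | true => rfl
        | false => exact absurd (hla.trans hlj.symm) hl
      rw [hlj] at e1
      rw [hla] at e2
      simp only [GG, Bool.or_true, Bool.or_self, if_true, Bool.false_eq_true, if_false] at e1 e2
      exact twin_aux hi ha hj (by positivity) hrev (by rw [e1]; linarith)
        (by rw [e1, e2]; linarith) (by rw [e2]; linarith) m1 m2 (m3 a)

/-- the vectors which tend to a vertex from the other side -/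
private noncomputable def twin_u (y z : E3) (m : ℕ) : E3 := (1 : ℝ) • y + (-(1 / ((m : ℝ) + 1))) • z

private theorem twin_fin (h : Tiling p lb T) {i j k a b : Fin 32} (ht : (i, j, k) ∈ T)
    (ht' : (i, a, b) ∈ T) {l α : ℝ} (hα : 0 < α) (hy : p j = l • p i + α • p a) {m : ℕ}
    (hm : InS (p i) (p a) (p b) (twin_u (p j) (p k) m)) :
    ∃ a b, (i, a, b) ∈ T ∧ p a = p j ∧ lb a = lb j ∧ lb b = lb k ∧ p b ≠ p k := by
  obtain ⟨h1, h2⟩ := til_same h ht ht' hα hy
  refine ⟨a, b, ht', h1, h2, ?_, ?_⟩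
  · rcases h.one i j k ht with ⟨u, v, w⟩ | ⟨u, v, w⟩ | ⟨u, v, w⟩ <;>
      rcases h.one i a b ht' with ⟨u', v', w'⟩ | ⟨u', v', w'⟩ | ⟨u', v', w'⟩ <;>
      first
      | exact w'.trans w.symm
      | exact absurd (u.symm.trans u') (by decide)
      | exact absurd (v.symm.trans (h2.symm.trans v')) (by decide)
  · intro h3
    have h4 := hm.2
    have hD := til_dt h ht
    rw [h1, h3, twin_u, dt_lin3, dt_self23, mul_zero, zero_add] at h4
    have h5 : 0 < dt (p i) (p j) (p k) ^ 2 := by positivity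
    have h6 : 0 < 1 / ((m : ℝ) + 1) := by positivity
    nlinarith [mul_pos h6 h5]

private theorem twin_lim {x q w y z : E3} {f : ℕ → Prop} (hf : ∃ᶠ m in Filter.atTop, f m)
    (h : ∀ m, f m → InS x q w (twin_u y z m)) : InS x q w y := by
  have h0 : Filter.Tendsto (fun m : ℕ => twin_u y z m) Filter.atTop (nhds y) := by
    have h1 : Filter.Tendsto (fun m : ℕ => -(1 / ((m : ℝ) + 1))) Filter.atTop (nhds (-0)) :=
      tendsto_one_div_add_atTop_nhds_zero_nat.neg
    have h2 : Filter.Tendsto (fun m : ℕ => twin_u y z m) Filter.atTop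
        (nhds ((1 : ℝ) • y + (-0 : ℝ) • z)) := tendsto_const_nhds.add (h1.smul_const z)
    rwa [neg_zero, zero_smul, add_zero, one_smul] at h2
  have h1 := (dt_tendsto (tendsto_const_nhds (x := x)) h0 (tendsto_const_nhds (x := w))).const_mul
    (dt x q w)
  have h2 := (dt_tendsto (tendsto_const_nhds (x := x)) (tendsto_const_nhds (x := q)) h0).const_mul
    (dt x q w)
  constructor
  · by_contra hc
    have h3 := h1.eventually_lt_const (not_le.1 hc)
    obtain ⟨m, hm1, hm2⟩ := (hf.and_eventually h3).exists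
    exact absurd (h m hm1).1 (not_le.2 hm2)
  · by_contra hc
    have h3 := h2.eventually_lt_const (not_le.1 hc)
    obtain ⟨m, hm1, hm2⟩ := (hf.and_eventually h3).exists
    exact absurd (h m hm1).2 (not_le.2 hm2)

private theorem twin_small {A B e1 e2 : ℝ} (hA : 0 < A) (hB : 0 < B) :
    ∃ δ : ℝ, 0 < δ ∧ 0 < A + δ * e1 ∧ 0 < B + δ * e2 := by
  have h0 : 0 < 1 + |e1| + |e2| := by positivity
  have hc : 0 < min A B := lt_min hA hB
  have hd : 0 < min A B / (1 + |e1| + |e2|) := by positivity
  have h1 : min A B / (1 + |e1| + |e2|) * (1 + |e1| + |e2|) = min A B :=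
    div_mul_cancel₀ _ h0.ne'
  refine ⟨min A B / (1 + |e1| + |e2|), hd, ?_, ?_⟩
  · have h2 := neg_abs_le e1
    have h3 := abs_nonneg e2
    have h4 := min_le_left A B
    nlinarith [mul_le_mul_of_nonneg_left h2 hd.le, mul_nonneg hd.le h3]
  · have h2 := neg_abs_le e2
    have h3 := abs_nonneg e1
    have h4 := min_le_right A B
    nlinarith [mul_le_mul_of_nonneg_left h2 hd.le, mul_nonneg hd.le h3]

/-- PROOF. Let `x = p i`, `y = p j`, `z = p k` (`dt x y z ≠ 0`) and `u m = y - (1/(m+1)) • z`. By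
`cover` for `u m` some pair `(a, b)` occurs for infinitely many `m`, so `InS x (p a) (p b) (u m)`
for these `m` and, in the limit, `InS x (p a) (p b) y` (`dt_tendsto`). Let `D' = dt x (p a) (p b)`,
`D' ≠ 0` (`til_dt`), `y = l x + α p a + β p b`, `α, β ≥ 0` (`inS_coeff`).
(1) `α, β > 0` is impossible: `v = y + δ • z` with small `δ > 0` is in `InO x (p a) (p b)` (open
condition, it holds at `y` by `inO_of_coeff`) and in `InO x y z` (`inO_of_coeff`), so by `nonov`
`j = a` or `j = b`, but then `dt x y (p a) = 0` or `dt x y (p b) = 0`, while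
`dt x y (p a) = -β D'` and `dt x y (p b) = α D'`.
(2) `α = β = 0` is impossible because `dt x y z ≠ 0`.
(3) So one of them is zero, and after exchanging `a` and `b` (`perm1`, `perm2`, `inS_swap`) we have
`β = 0`, `α > 0`: `y = l x + α p a`; `til_same` gives `p a = y` and `lb a = lb j`; and
`lb b = lb k` by `one`.
(4) `p b ≠ z`: if `p b = z` then `D' = dt x y z`, and `InS x (p a) (p b) (u m)` gives
`0 ≤ D' * dt x (p a) (u m) = - (1/(m+1)) (dt x y z)^2 < 0`. -/
theorem twin (h : Tiling p lb T) {i j k : Fin 32} (ht : (i, j, k) ∈ T) :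
    ∃ a b, (i, a, b) ∈ T ∧ p a = p j ∧ lb a = lb j ∧ lb b = lb k ∧ p b ≠ p k := by
  have hD := til_dt h ht
  have hcov : ∀ m : ℕ, ∃ c : Fin 32 × Fin 32, (i, c.1, c.2) ∈ T ∧
      InS (p i) (p c.1) (p c.2) (twin_u (p j) (p k) m) := fun m => by
    obtain ⟨a, b, h1, h2⟩ := h.cover i (twin_u (p j) (p k) m)
    exact ⟨(a, b), h1, h2⟩
  choose f hf1 hf2 using hcov
  obtain ⟨c, hc⟩ := Finite.exists_infinite_fiber f
  have hfr : ∃ᶠ m in Filter.atTop, f m = c :=
    Nat.frequently_atTop_iff_infinite.2 (Set.infinite_coe_iff.1 hc)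
  obtain ⟨m₀, hm₀⟩ := hfr.exists
  obtain ⟨a, b⟩ := c
  have ht' : (i, a, b) ∈ T := by
    have := hf1 m₀
    rwa [hm₀] at this
  have hm : InS (p i) (p a) (p b) (twin_u (p j) (p k) m₀) := by
    have := hf2 m₀
    rwa [hm₀] at this
  have hlim : InS (p i) (p a) (p b) (p j) := twin_lim hfr fun m hm => by
    have := hf2 m
    rwa [hm] at this
  have hD' := til_dt h ht'
  obtain ⟨l, α, β, hα, hβ, hy⟩ := inS_coeff hD' hlim
  have d1 : dt (p i) (p j) (p a) = -(β * dt (p i) (p a) (p b)) := by
    have e : p j = (1 : ℝ) • (l • p i + α • p a) + β • p b := by rw [one_smul]; exact hy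
    rw [e, dt_lin2, dt_lin2, dt_self12, dt_self23, dt_swap' (p i) (p a) (p b)]
    ring
  have d2 : dt (p i) (p j) (p b) = α * dt (p i) (p a) (p b) := by
    have e : p j = (1 : ℝ) • (l • p i + α • p a) + β • p b := by rw [one_smul]; exact hy
    rw [e, dt_lin2, dt_lin2, dt_self12, dt_self23]
    ring
  rcases hα.eq_or_lt with hα0 | hα0
  · rcases hβ.eq_or_lt with hβ0 | hβ0
    · exfalso
      apply hD
      rw [← hα0, ← hβ0, zero_smul, zero_smul, add_zero, add_zero] at hy
      have e : p j = l • p i + (0 : ℝ) • p i := by rw [zero_smul, add_zero]; exact hy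
      rw [e, dt_lin2, dt_self12, mul_zero, mul_zero, add_zero]
    · rw [← hα0, zero_smul, add_zero] at hy
      exact twin_fin h ht (twin_swap h ht') hβ0 hy (inS_swap hm)
  · rcases hβ.eq_or_lt with hβ0 | hβ0
    · rw [← hβ0, zero_smul, add_zero] at hy
      exact twin_fin h ht ht' hα0 hy hm
    · exfalso
      have hsq : 0 < dt (p i) (p a) (p b) ^ 2 := by positivity
      obtain ⟨δ, hδ, h1, h2⟩ := twin_small (e1 := dt (p i) (p a) (p b) * dt (p i) (p k) (p b))
        (e2 := dt (p i) (p a) (p b) * dt (p i) (p a) (p k)) (mul_pos hα0 hsq) (mul_pos hβ0 hsq)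
      have o1 : InO (p i) (p j) (p k) ((0 : ℝ) • p i + (1 : ℝ) • p j + δ • p k) :=
        inO_of_coeff hD one_pos hδ
      have o2 : InO (p i) (p a) (p b) ((0 : ℝ) • p i + (1 : ℝ) • p j + δ • p k) := by
        rw [zero_smul, zero_add]
        constructor
        · rw [dt_lin2, d2]
          have e : dt (p i) (p a) (p b) * (1 * (α * dt (p i) (p a) (p b)) +
              δ * dt (p i) (p k) (p b)) = α * dt (p i) (p a) (p b) ^ 2 +
              δ * (dt (p i) (p a) (p b) * dt (p i) (p k) (p b)) := by ring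
          rw [e]
          exact h1
        · rw [dt_lin3, dt_swap' (p i) (p j) (p a), d1]
          have e : dt (p i) (p a) (p b) * (1 * -(-(β * dt (p i) (p a) (p b))) +
              δ * dt (p i) (p a) (p k)) = β * dt (p i) (p a) (p b) ^ 2 +
              δ * (dt (p i) (p a) (p b) * dt (p i) (p a) (p k)) := by ring
          rw [e]
          exact h2
      rcases h.nonov i j k a b _ ht ht' o1 o2 with ⟨h3, -⟩ | ⟨h3, -⟩
      · rw [h3, dt_self23] at d1
        have h4 : β * dt (p i) (p a) (p b) ≠ 0 := mul_ne_zero hβ0.ne' hD'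
        exact h4 (by linarith)
      · rw [h3, dt_self23] at d2
        have h4 : α * dt (p i) (p a) (p b) ≠ 0 := mul_ne_zero hα0.ne' hD'
        exact h4 d2.symm

private theorem mirror_t {z z' v : E3} {t : ℝ} (hz : ‖z‖ = 1) (hz' : ‖z'‖ = 1) (hne : z' ≠ z)
    (h : z' - z = t • v) : t * ‖v‖ ^ 2 = -(2 * inner ℝ z v) := by
  have e : z' = z + t • v := by rw [← h]; abel
  have ht : t ≠ 0 := by
    intro h0
    rw [h0, zero_smul, add_zero] at e
    exact hne e
  have h1 : ‖z + t • v‖ ^ 2 = 1 := by rw [← e, hz', one_pow]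
  rw [norm_add_sq_real, inner_smul_right, norm_smul, mul_pow, hz, Real.norm_eq_abs, sq_abs] at h1
  have h2 : t * (t * ‖v‖ ^ 2 + 2 * inner ℝ z v) = 0 := by linear_combination h1
  rcases mul_eq_zero.1 h2 with h3 | h3
  · exact absurd h3 ht
  · linarith

/-- the third vertex is determined by its side. PROOF. `z' - z` and `z'' - z` are orthogonal to `x`
and `y`, so (`eq_smul_vx`, `vx x y ≠ 0` by `vx_norm_sq`) `z' = z + t • vx x y`,
`z'' = z + t' • vx x y` with `t, t' ≠ 0`, and from the norms
`t ‖vx x y‖^2 = -2 inner z (vx x y) = t' ‖vx x y‖^2`. -/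
theorem mirror_unique {x y z z' z'' : E3} (hx : ‖x‖ = 1) (hy : ‖y‖ = 1) (hz : ‖z‖ = 1)
    (hz' : ‖z'‖ = 1) (hz'' : ‖z''‖ = 1) (hxy : inner ℝ x y ^ 2 < 1)
    (h1 : inner ℝ z' x = inner ℝ z x) (h2 : inner ℝ z' y = inner ℝ z y)
    (h3 : inner ℝ z'' x = inner ℝ z x) (h4 : inner ℝ z'' y = inner ℝ z y) (hne : z' ≠ z)
    (hne' : z'' ≠ z) : z' = z'' := by
  have hv : 0 < ‖vx x y‖ ^ 2 := by
    rw [vx_norm_sq, real_inner_self_eq_norm_sq, real_inner_self_eq_norm_sq, hx, hy]
    linarith
  have hv0 : vx x y ≠ 0 := by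
    intro h0
    rw [h0, norm_zero] at hv
    norm_num at hv
  obtain ⟨t, ht⟩ := eq_smul_vx (u := z' - z) hv0 (by rw [inner_sub_left, h1, sub_self])
    (by rw [inner_sub_left, h2, sub_self])
  obtain ⟨t', ht'⟩ := eq_smul_vx (u := z'' - z) hv0 (by rw [inner_sub_left, h3, sub_self])
    (by rw [inner_sub_left, h4, sub_self])
  have e1 := mirror_t hz hz' hne ht
  have e2 := mirror_t hz hz'' hne' ht'
  have e3 : t = t' := mul_right_cancel₀ hv.ne' (e1.trans e2.symm)
  rw [e3, ← ht'] at ht
  exact sub_left_injective ht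

end Pool.Agent.C32
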